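import Pool.Agent.HT.Grp

/-!
# Project HT, piece HT-C1: relations in the Artin group of type `H3`

The proofs of `Pool/Agent/Helper7/AG/Defs.lean` (type `G2~`) can be adapted for the first block.
-/

namespace Pool.Agent.HT

open Pool.Agent.Helper7.AG

theorem ga_gc : ga * gc = gc * ga := by
  have h : alt (FreeGroup.of (2 : Fin 3)) (FreeGroup.of 0) (CoxeterMatrix.H₃ 2 0) *
    (alt (FreeGroup.of 0) (FreeGroup.of 2) (CoxeterMatrix.H₃ 2 0))⁻¹ ∈
      rels CoxeterMatrix.H₃ := ⟨2, 0, rfl⟩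
  have h1 := PresentedGroup.one_of_mem h
  rw [map_mul, map_inv, mul_inv_eq_one] at h1
  have e : (CoxeterMatrix.H₃ : Matrix (Fin 3) (Fin 3) ℕ) 2 0 = 2 := rfl
  rw [e] at h1
  simpa [alt, ga, gc, PresentedGroup.of, mul_assoc] using h1

theorem gb_gc : gb * gc * gb = gc * gb * gc := by
  have h : alt (FreeGroup.of (1 : Fin 3)) (FreeGroup.of 0) (CoxeterMatrix.H₃ 1 0) *
    (alt (FreeGroup.of 0) (FreeGroup.of 1) (CoxeterMatrix.H₃ 1 0))⁻¹ ∈
      rels CoxeterMatrix.H₃ := ⟨1, 0, rfl⟩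
  have h1 := PresentedGroup.one_of_mem h
  rw [map_mul, map_inv, mul_inv_eq_one] at h1
  have e : (CoxeterMatrix.H₃ : Matrix (Fin 3) (Fin 3) ℕ) 1 0 = 3 := rfl
  rw [e] at h1
  simpa [alt, gb, gc, PresentedGroup.of, mul_assoc] using h1

theorem ga_gb : ga * gb * ga * gb * ga = gb * ga * gb * ga * gb := by
  have h : alt (FreeGroup.of (2 : Fin 3)) (FreeGroup.of 1) (CoxeterMatrix.H₃ 2 1) *
    (alt (FreeGroup.of 1) (FreeGroup.of 2) (CoxeterMatrix.H₃ 2 1))⁻¹ ∈
      rels CoxeterMatrix.H₃ := ⟨2, 1, rfl⟩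
  have h1 := PresentedGroup.one_of_mem h
  rw [map_mul, map_inv, mul_inv_eq_one] at h1
  have e : (CoxeterMatrix.H₃ : Matrix (Fin 3) (Fin 3) ℕ) 2 1 = 5 := rfl
  rw [e] at h1
  simpa [alt, ga, gb, PresentedGroup.of, mul_assoc] using h1

theorem closure_gen : Subgroup.closure ({ga, gb, gc} : Set HA) = ⊤ := by
  rw [eq_top_iff, ← PresentedGroup.closure_range_of, Subgroup.closure_le]
  rintro _ ⟨i, rfl⟩
  fin_cases i <;> exact Subgroup.subset_closure (by simp [ga, gb, gc])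

private theorem C1_lift {K : Type*} [Group K] (x y w : K) (h1 : x * w = w * x)
    (h2 : y * w * y = w * y * w) (h3 : x * y * x * y * x = y * x * y * x * y) :
    ∀ r ∈ rels CoxeterMatrix.H₃, FreeGroup.lift (![w, y, x] : Fin 3 → K) r = 1 := by
  rintro r ⟨s, t, rfl⟩
  rw [map_mul, map_inv, mul_inv_eq_one]
  have e : ∀ s t : Fin 3, (CoxeterMatrix.H₃ : Matrix (Fin 3) (Fin 3) ℕ) s t =
    (!![1, 3, 2; 3, 1, 5; 2, 5, 1] : Matrix (Fin 3) (Fin 3) ℕ) s t := fun _ _ => rfl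
  rw [e]
  have h3' : x * (y * (x * (y * x))) = y * (x * (y * (x * y))) := by
    simpa [mul_assoc] using h3
  have h2' : y * (w * y) = w * (y * w) := by simpa [mul_assoc] using h2
  fin_cases s <;> fin_cases t <;> simp [alt, h1, h2', h3']

/-- the universal property of `HA` -/
theorem exists_lift {K : Type*} [Group K] (x y w : K) (h1 : x * w = w * x)
    (h2 : y * w * y = w * y * w) (h3 : x * y * x * y * x = y * x * y * x * y) :
    ∃ f : HA →* K, f ga = x ∧ f gb = y ∧ f gc = w := by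
  refine ⟨PresentedGroup.toGroup (C1_lift x y w h1 h2 h3), ?_, ?_, ?_⟩
  · unfold ga
    rw [PresentedGroup.toGroup.of]
    rfl
  · unfold gb
    rw [PresentedGroup.toGroup.of]
    rfl
  · unfold gc
    rw [PresentedGroup.toGroup.of]
    rfl

theorem hom_ext3 {K : Type*} [Group K] {f g : HA →* K} (h1 : f ga = g ga) (h2 : f gb = g gb)
    (h3 : f gc = g gc) : f = g := by
  apply PresentedGroup.ext
  intro i
  fin_cases i
  · exact h3
  · exact h2
  · exact h1

end Pool.Agent.HT
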