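import Pool.Agent.HT.C1

/-!
# Project HT, piece HT-C2: the relations of the simple elements
-/

namespace Pool.Agent.HT

/-- `a b c b = a c b c = c a b c`. -/
theorem gd_gb : gd * gb = gc * gd := by
  calc gd * gb = ga * (gb * gc * gb) := by unfold gd; simp only [mul_assoc]
    _ = ga * (gc * gb * gc) := by rw [gb_gc]
    _ = ga * gc * gb * gc := by simp only [mul_assoc]
    _ = gc * ga * gb * gc := by rw [ga_gc]
    _ = gc * gd := by unfold gd; simp only [mul_assoc]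

/-- `δ² = a b c a b c = a b a (c b c) = a b a b c b`; so
`b δ² = b a b a b c b = a b a b a c b = (a b a b c) a b = (a b a b c b) b⁻¹ a b = δ² b⁻¹ a b`. -/
theorem gb_gd2 : gb * gd ^ 2 = gd ^ 2 * (gb⁻¹ * ga * gb) := by
  have h1 : gd ^ 2 = ga * gb * ga * gb * gc * gb := by
    calc gd ^ 2 = ga * gb * (gc * ga) * gb * gc := by
          rw [pow_two]; unfold gd; simp only [mul_assoc]
      _ = ga * gb * (ga * gc) * gb * gc := by rw [ga_gc]
      _ = ga * gb * ga * (gc * gb * gc) := by simp only [mul_assoc]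
      _ = ga * gb * ga * (gb * gc * gb) := by rw [gb_gc]
      _ = ga * gb * ga * gb * gc * gb := by simp only [mul_assoc]
  calc gb * gd ^ 2 = gb * ga * gb * ga * gb * (gc * gb) := by rw [h1]; simp only [mul_assoc]
    _ = ga * gb * ga * gb * ga * (gc * gb) := by rw [ga_gb]
    _ = ga * gb * ga * gb * (ga * gc) * gb := by simp only [mul_assoc]
    _ = ga * gb * ga * gb * (gc * ga) * gb := by rw [ga_gc]
    _ = gd ^ 2 * (gb⁻¹ * ga * gb) := by rw [h1]; group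

/-- Put `b_j = δ^(-j) b δ^j`; `b_(-1) = c` (`gd_gb`) and `b_2 = b⁻¹ a b` (`gb_gd2`), so
`b_0 b_2 b_(-1) = a b c = δ`.  Hence `b_2 b_(-1) = b_0⁻¹ δ = δ b_1⁻¹`, that is
`b_2 b_(-1) b_1 = δ`.  Conjugating `b_0 b_2 b_(-1) = δ` by `δ²` gives `b_2 b_4 b_1 = δ`.  So
`b_4 = b_(-1)`, that is `δ⁵` commutes with `b`. -/
theorem gb_gd5 : gb * gd ^ 5 = gd ^ 5 * gb := by
  have hc : gc = gd * gb * gd⁻¹ := by rw [gd_gb, mul_inv_cancel_right]
  have ha : ga = gd * gc⁻¹ * gb⁻¹ := by unfold gd; group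
  have h2 : gb * gd ^ 2 = gd ^ 2 * (gb⁻¹ * ga * gb) := gb_gd2
  rw [ha, hc] at h2
  generalize gb = x at h2
  generalize gd = d at h2
  have e : x * d ^ 3 * x = d ^ 2 * x⁻¹ * d ^ 2 := by
    calc x * d ^ 3 * x = x * d ^ 2 * (d * x) := by group
      _ = d ^ 2 * (x⁻¹ * (d * (d * x * d⁻¹)⁻¹ * x⁻¹) * x) * (d * x) := by rw [h2]
      _ = d ^ 2 * x⁻¹ * d ^ 2 := by
          simp only [mul_inv_rev, inv_inv, pow_two, mul_assoc, inv_mul_cancel_left,
            mul_inv_cancel_left, inv_mul_cancel, mul_one]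
  have f1 : x * ((d ^ 2)⁻¹ * x * d ^ 3) * x = d ^ 2 := by
    calc x * ((d ^ 2)⁻¹ * x * d ^ 3) * x = x * (d ^ 2)⁻¹ * (x * d ^ 3 * x) := by
          simp only [mul_assoc]
      _ = x * (d ^ 2)⁻¹ * (d ^ 2 * x⁻¹ * d ^ 2) := by rw [e]
      _ = d ^ 2 := by group
  have f2 : x * (d ^ 3 * x * (d ^ 2)⁻¹) * x = d ^ 2 := by
    calc x * (d ^ 3 * x * (d ^ 2)⁻¹) * x = (x * d ^ 3 * x) * (d ^ 2)⁻¹ * x := by
          simp only [mul_assoc]
      _ = (d ^ 2 * x⁻¹ * d ^ 2) * (d ^ 2)⁻¹ * x := by rw [e]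
      _ = d ^ 2 := by group
  have f3 : (d ^ 2)⁻¹ * x * d ^ 3 = d ^ 3 * x * (d ^ 2)⁻¹ :=
    mul_left_cancel (mul_right_cancel (f1.trans f2.symm))
  calc x * d ^ 5 = d ^ 2 * ((d ^ 2)⁻¹ * x * d ^ 3) * d ^ 2 := by group
    _ = d ^ 2 * (d ^ 3 * x * (d ^ 2)⁻¹) * d ^ 2 := by rw [f3]
    _ = d ^ 5 * x := by group

/-- `c = δ b δ⁻¹` and `a = δ c⁻¹ b⁻¹` commute with `δ⁵` too. -/
theorem gd5_central (g : HA) : g * gd ^ 5 = gd ^ 5 * g := by
  have hc : gc = gd * gb * gd⁻¹ := by rw [gd_gb, mul_inv_cancel_right]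
  have ha : ga = gd * gc⁻¹ * gb⁻¹ := by unfold gd; group
  have hb : gb ∈ Subgroup.centralizer ({gd ^ 5} : Set HA) :=
    Subgroup.mem_centralizer_singleton_iff.2 gb_gd5
  have hd : gd ∈ Subgroup.centralizer ({gd ^ 5} : Set HA) :=
    Subgroup.mem_centralizer_singleton_iff.2 (by rw [← pow_succ, ← pow_succ'])
  have hc' : gc ∈ Subgroup.centralizer ({gd ^ 5} : Set HA) := by
    rw [hc]
    exact mul_mem (mul_mem hd hb) (inv_mem hd)
  have ha' : ga ∈ Subgroup.centralizer ({gd ^ 5} : Set HA) := by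
    rw [ha]
    exact mul_mem (mul_mem hd (inv_mem hc')) (inv_mem hb)
  have hle : Subgroup.closure ({ga, gb, gc} : Set HA) ≤
      Subgroup.centralizer ({gd ^ 5} : Set HA) := by
    rw [Subgroup.closure_le]
    intro y hy
    rcases hy with rfl | rfl | rfl
    · exact ha'
    · exact hb
    · exact hc'
  have hg : g ∈ Subgroup.closure ({ga, gb, gc} : Set HA) := by
    rw [closure_gen]
    exact Subgroup.mem_top g
  exact Subgroup.mem_centralizer_singleton_iff.1 (hle hg)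

/-- By cases on `i` (`interval_cases`); if the index wraps around use `gd5_central`. -/
theorem gS_tau {i : ℕ} (hi : i < 32) : gS (tau i) = gd⁻¹ * gS i * gd := by
  by_cases h0 : i = 0
  · subst h0
    have h1 : tau 0 = 0 := by decide +kernel
    rw [h1]
    simp [gS]
  by_cases h31 : i = 31
  · subst h31
    have h1 : tau 31 = 31 := by decide +kernel
    rw [h1]
    have h2 : gS 31 = gd := rfl
    rw [h2]
    group
  have key : ∀ i < 32, i ≠ 0 → i ≠ 31 → tau i ≠ 0 ∧ tau i ≠ 31 ∧ (tau i - 1) / 5 = (i - 1) / 5 ∧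
      ((tau i - 1) % 5 + off ((i - 1) / 5)) % 5 =
        (((i - 1) % 5 + off ((i - 1) / 5)) % 5 + 1) % 5 := by decide +kernel
  obtain ⟨k1, k2, k3, k4⟩ := key i hi h0 h31
  have e1 : gS (tau i) = gd ^ (-((((tau i - 1) % 5 + off ((tau i - 1) / 5)) % 5 : ℕ) : ℤ)) *
      base ((tau i - 1) / 5) *
      gd ^ ((((tau i - 1) % 5 + off ((tau i - 1) / 5)) % 5 : ℕ) : ℤ) := by
    unfold gS
    rw [if_neg k1, if_neg k2]
  have e2 : gS i = gd ^ (-((((i - 1) % 5 + off ((i - 1) / 5)) % 5 : ℕ) : ℤ)) *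
      base ((i - 1) / 5) *
      gd ^ ((((i - 1) % 5 + off ((i - 1) / 5)) % 5 : ℕ) : ℤ) := by
    unfold gS
    rw [if_neg h0, if_neg h31]
  rw [e1, e2, k3, k4]
  generalize base ((i - 1) / 5) = x
  have hlt : ((i - 1) % 5 + off ((i - 1) / 5)) % 5 < 5 := Nat.mod_lt _ (by norm_num)
  generalize ((i - 1) % 5 + off ((i - 1) / 5)) % 5 = k at hlt
  by_cases hk : k = 4
  · subst hk
    have h5 := gd5_central x
    have h6 : x = gd⁻¹ * (gd ^ (-((4 : ℕ) : ℤ)) * x * gd ^ ((4 : ℕ) : ℤ)) * gd := by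
      calc x = (gd ^ 5)⁻¹ * (gd ^ 5 * x) := by group
        _ = (gd ^ 5)⁻¹ * (x * gd ^ 5) := by rw [h5]
        _ = _ := by group
    have h7 : ((4 + 1) % 5 : ℕ) = 0 := rfl
    rw [h7, ← h6]
    simp
  · have h7 : (k + 1) % 5 = k + 1 := Nat.mod_eq_of_lt (by omega)
    rw [h7]
    push_cast
    group

private theorem C2_sh_lt {k i : ℕ} (hi : i < 32) : sh k i < 32 := by
  cases k with
  | zero => exact hi
  | succ k => exact Nat.mod_lt _ (by norm_num)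

theorem gS_sh {k i : ℕ} (hi : i < 32) :
    gS (sh k i) = gd ^ (-(k : ℤ)) * gS i * gd ^ (k : ℤ) := by
  induction k with
  | zero =>
    show gS i = _
    simp
  | succ k ih =>
    show gS (tau (sh k i)) = _
    rw [gS_tau (C2_sh_lt hi), ih]
    push_cast
    group

/-- The base relations, with `a_0 = a`, `b_0 = b`, `c_0 = a b a⁻¹`, `b_4 = c` (`δ⁻⁴ b δ⁴ = δ b δ⁻¹`),
`b_2 = b⁻¹ a b`, `a_4 = δ a δ⁻¹ = a b a b⁻¹ a⁻¹` (since `δ a = a b c a = a b a c`),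
`c_1 = δ⁻¹ a b a⁻¹ δ = c⁻¹ b c`:
`b_0 b_2 = b_2 a_4 = a_4 c_0 = c_0 a_0 = a_0 b_0 = a b` (for `b_2 a_4` use `ga_gb`),
`b_0 b_4 = b_4 c_1 = c_1 b_0 = b c`, `a_0 b_4 = b_4 a_0 = a c`, and
`a_0 [a_1*] = a (b c) = δ`, `[a_1*] a_1 = δ`, `[b_4*] b_4 = (a b) c = δ`, `b_4 [b_0*] = δ`,
`c_0 [c_1*] = a b a⁻¹ (a c) = δ`, `[c_1*] c_1 = δ` (each second relation follows from the first
one: `x y = δ` gives `y (δ⁻¹ x δ) = δ`). -/
theorem mul_base : gS 6 * gS 8 = gS 25 ∧ gS 8 * gS 5 = gS 25 ∧ gS 5 * gS 11 = gS 25 ∧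
    gS 11 * gS 1 = gS 25 ∧ gS 1 * gS 6 = gS 25 ∧ gS 6 * gS 10 = gS 17 ∧ gS 10 * gS 12 = gS 17 ∧
    gS 12 * gS 6 = gS 17 ∧ gS 1 * gS 10 = gS 27 ∧ gS 10 * gS 1 = gS 27 ∧ gS 1 * gS 17 = gS 31 ∧
    gS 17 * gS 2 = gS 31 ∧ gS 25 * gS 10 = gS 31 ∧ gS 10 * gS 21 = gS 31 ∧
    gS 11 * gS 27 = gS 31 ∧ gS 27 * gS 12 = gS 31 := by
  have a10 : gS 10 = gc := by
    have h1 : gS 10 = gd ^ (-((4 : ℕ) : ℤ)) * gb * gd ^ ((4 : ℕ) : ℤ) := rfl
    have h2 := gd5_central gb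
    have h3 := gd_gb
    calc gS 10 = (gd ^ 4)⁻¹ * (gb * gd ^ 5) * gd⁻¹ := by rw [h1]; group
      _ = (gd ^ 4)⁻¹ * (gd ^ 5 * gb) * gd⁻¹ := by rw [h2]
      _ = (gd * gb) * gd⁻¹ := by group
      _ = gc := by rw [h3]; group
  have a8 : gS 8 = gb⁻¹ * ga * gb := by
    have h1 : gS 8 = gd ^ (-((2 : ℕ) : ℤ)) * gb * gd ^ ((2 : ℕ) : ℤ) := rfl
    have h2 := gb_gd2
    calc gS 8 = (gd ^ 2)⁻¹ * (gb * gd ^ 2) := by rw [h1]; group
      _ = (gd ^ 2)⁻¹ * (gd ^ 2 * (gb⁻¹ * ga * gb)) := by rw [h2]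
      _ = _ := by group
  have a5 : gS 5 = ga * gb * ga * gb⁻¹ * ga⁻¹ := by
    have h1 : gS 5 = gd ^ (-((4 : ℕ) : ℤ)) * ga * gd ^ ((4 : ℕ) : ℤ) := rfl
    have h2 := gd5_central ga
    have h3 := ga_gc
    calc gS 5 = (gd ^ 4)⁻¹ * (ga * gd ^ 5) * gd⁻¹ := by rw [h1]; group
      _ = (gd ^ 4)⁻¹ * (gd ^ 5 * ga) * gd⁻¹ := by rw [h2]
      _ = gd * ga * gd⁻¹ := by group
      _ = ga * gb * (ga * gc) * gc⁻¹ * gb⁻¹ * ga⁻¹ := by rw [h3]; unfold gd; group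
      _ = _ := by group
  have a12 : gS 12 = gc⁻¹ * gb * gc := by
    have h1 : gS 12 = gd ^ (-((1 : ℕ) : ℤ)) * (ga * gb * ga⁻¹) * gd ^ ((1 : ℕ) : ℤ) := rfl
    rw [h1]
    unfold gd
    group
  have a2 : gS 2 = gd⁻¹ * ga * gd := by
    have h1 : gS 2 = gd ^ (-((1 : ℕ) : ℤ)) * ga * gd ^ ((1 : ℕ) : ℤ) := rfl
    rw [h1]
    group
  have a21 : gS 21 = gd⁻¹ * (ga * gb) * gd := by
    have h1 : gS 21 = gd ^ (-((1 : ℕ) : ℤ)) * (ga * gb) * gd ^ ((1 : ℕ) : ℤ) := rfl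
    rw [h1]
    group
  have a1 : gS 1 = ga := by
    have h1 : gS 1 = gd ^ (-((0 : ℕ) : ℤ)) * ga * gd ^ ((0 : ℕ) : ℤ) := rfl
    rw [h1]
    simp
  have a6 : gS 6 = gb := by
    have h1 : gS 6 = gd ^ (-((0 : ℕ) : ℤ)) * gb * gd ^ ((0 : ℕ) : ℤ) := rfl
    rw [h1]
    simp
  have a11 : gS 11 = ga * gb * ga⁻¹ := by
    have h1 : gS 11 = gd ^ (-((0 : ℕ) : ℤ)) * (ga * gb * ga⁻¹) * gd ^ ((0 : ℕ) : ℤ) := rfl
    rw [h1]
    simp
  have a17 : gS 17 = gb * gc := by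
    have h1 : gS 17 = gd ^ (-((0 : ℕ) : ℤ)) * (gb * gc) * gd ^ ((0 : ℕ) : ℤ) := rfl
    rw [h1]
    simp
  have a25 : gS 25 = ga * gb := by
    have h1 : gS 25 = gd ^ (-((0 : ℕ) : ℤ)) * (ga * gb) * gd ^ ((0 : ℕ) : ℤ) := rfl
    rw [h1]
    simp
  have a27 : gS 27 = ga * gc := by
    have h1 : gS 27 = gd ^ (-((0 : ℕ) : ℤ)) * (ga * gc) * gd ^ ((0 : ℕ) : ℤ) := rfl
    rw [h1]
    simp
  have a31 : gS 31 = gd := rfl
  rw [a10, a8, a5, a12, a2, a21, a1, a6, a11, a17, a25, a27, a31]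
  refine ⟨by group, ?_, by group, by group, rfl, rfl, by group, ?_, rfl, ga_gc.symm, ?_, ?_, rfl,
    ?_, ?_, ?_⟩
  · calc gb⁻¹ * ga * gb * (ga * gb * ga * gb⁻¹ * ga⁻¹)
        = gb⁻¹ * (ga * gb * ga * gb * ga) * gb⁻¹ * ga⁻¹ := by group
      _ = gb⁻¹ * (gb * ga * gb * ga * gb) * gb⁻¹ * ga⁻¹ := by rw [ga_gb]
      _ = ga * gb := by group
  · calc gc⁻¹ * gb * gc * gb = gc⁻¹ * (gb * gc * gb) := by group
      _ = gc⁻¹ * (gc * gb * gc) := by rw [gb_gc]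
      _ = gb * gc := by group
  · unfold gd
    group
  · unfold gd
    group
  · unfold gd
    group
  · unfold gd
    group
  · unfold gd
    group

/-- the pairs of `mul_base` with their products -/
private def baseL : List (ℕ × ℕ × ℕ) :=
  [(6, 8, 25), (8, 5, 25), (5, 11, 25), (11, 1, 25), (1, 6, 25), (6, 10, 17), (10, 12, 17),
    (12, 6, 17), (1, 10, 27), (10, 1, 27), (1, 17, 31), (17, 2, 31), (25, 10, 31), (10, 21, 31),
    (11, 27, 31), (27, 12, 31)]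

private theorem baseL_lt : ∀ p ∈ baseL, p.1 < 32 ∧ p.2.1 < 32 ∧ p.2.2 < 32 := by
  decide

private theorem baseL_mul : ∀ p ∈ baseL, gS p.1 * gS p.2.1 = gS p.2.2 := by
  obtain ⟨h1, h2, h3, h4, h5, h6, h7, h8, h9, h10, h11, h12, h13, h14, h15, h16⟩ := mul_base
  intro p hp
  simp only [baseL, List.mem_cons, List.not_mem_nil, or_false] at hp
  rcases hp with rfl | rfl | rfl | rfl | rfl | rfl | rfl | rfl | rfl | rfl | rfl | rfl | rfl |
    rfl | rfl | rfl <;> assumption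

private def chkT (i j : ℕ) : Bool :=
  (List.range 5).any fun k => baseL.any fun p =>
    decide (sh k p.1 = i) && (decide (sh k p.2.1 = j) && decide (sh k p.2.2 = tm i j))

private theorem tm_chk : ∀ i < 32, ∀ j < 32,
    (decide (i = 0) || (decide (j = 0) || (decide (32 ≤ tm i j) || chkT i j))) = true := by
  decide +kernel

private theorem tm_cases (i : ℕ) (hi : i < 32) (j : ℕ) (hj : j < 32) (hi0 : i ≠ 0) (hj0 : j ≠ 0)
    (h : tm i j < 32) :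
    ∃ k, ∃ p ∈ baseL, sh k p.1 = i ∧ sh k p.2.1 = j ∧ sh k p.2.2 = tm i j := by
  have h1 := tm_chk i hi j hj
  simp only [Bool.or_eq_true, decide_eq_true_eq, hi0, hj0, false_or, chkT, List.any_eq_true,
    Bool.and_eq_true] at h1
  rcases h1 with h1 | ⟨k, -, p, hp, h2⟩
  · omega
  · exact ⟨k, p, hp, h2⟩

private theorem tm_zero_left : ∀ j < 32, tm 0 j = j := by
  decide +kernel

private theorem tm_zero_right : ∀ i < 32, tm i 0 = i := by
  decide +kernel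

/-- Every pair `i, j` with `tm i j < 32` and `i ≠ 0`, `j ≠ 0` is the shift by some `sh k`, `k < 5`,
of one of the 16 pairs of `mul_base`, and the product is shifted too (`decide +kernel`); use
`gS_sh`. -/
theorem mul_gS {i j : ℕ} (hi : i < 32) (hj : j < 32) (h : tm i j < 32) :
    gS i * gS j = gS (tm i j) := by
  have h0 : gS 0 = 1 := by simp [gS]
  rcases eq_or_ne i 0 with rfl | hi0
  · rw [tm_zero_left j hj, h0, one_mul]
  rcases eq_or_ne j 0 with rfl | hj0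
  · rw [tm_zero_right i hi, h0, mul_one]
  obtain ⟨k, p, hp, e1, e2, e3⟩ := tm_cases i hi j hj hi0 hj0 h
  obtain ⟨l1, l2, l3⟩ := baseL_lt p hp
  have hm := baseL_mul p hp
  rw [← e1, ← e2] at e3 ⊢
  rw [← e3, gS_sh l1, gS_sh l2, gS_sh l3, ← hm]
  group

/-- the length homomorphism -/
theorem exists_len : ∃ f : HA →* Multiplicative ℤ, f ga = Multiplicative.ofAdd 1 ∧
    f gb = Multiplicative.ofAdd 1 ∧ f gc = Multiplicative.ofAdd 1 :=
  exists_lift (Multiplicative.ofAdd (1 : ℤ)) (Multiplicative.ofAdd 1) (Multiplicative.ofAdd 1)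
    rfl rfl rfl

/-- the length -/
noncomputable def ln (g : HA) : ℤ := Multiplicative.toAdd (exists_len.choose g)

theorem ln_mul (g h : HA) : ln (g * h) = ln g + ln h := by
  rw [ln, map_mul, toAdd_mul]
  rfl

private theorem ln_one' : ln (1 : HA) = 0 := by
  rw [ln, map_one, toAdd_one]

private theorem ln_inv' (g : HA) : ln g⁻¹ = - ln g := by
  rw [ln, map_inv, toAdd_inv]
  rfl

private theorem ln_ga' : ln ga = 1 := by
  rw [ln, exists_len.choose_spec.1, toAdd_ofAdd]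

private theorem ln_gb' : ln gb = 1 := by
  rw [ln, exists_len.choose_spec.2.1, toAdd_ofAdd]

private theorem ln_gc' : ln gc = 1 := by
  rw [ln, exists_len.choose_spec.2.2, toAdd_ofAdd]

theorem ln_gd : ln gd = 3 := by
  rw [gd, ln_mul, ln_mul, ln_ga', ln_gb', ln_gc']
  norm_num

private theorem ln_conj' (x : HA) (k : ℤ) : ln (gd ^ (-k) * x * gd ^ k) = ln x := by
  rw [ln_mul, ln_mul, zpow_neg, ln_inv']
  ring

private theorem ln_base' (m : ℕ) : ln (base m) = if m < 3 then 1 else 2 := by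
  match m with
  | 0 => simp [base, ln_ga']
  | 1 => simp [base, ln_gb']
  | 2 => simp [base, ln_mul, ln_inv', ln_ga', ln_gb']
  | 3 => simp [base, ln_mul, ln_gb', ln_gc']
  | 4 => simp [base, ln_mul, ln_ga', ln_gb']
  | (m + 5) =>
    rw [if_neg (by omega)]
    simp [base, ln_mul, ln_ga', ln_gc']

private theorem rk_eq : ∀ i < 32, i ≠ 0 → i ≠ 31 →
    rk i = if (i - 1) / 5 < 3 then 1 else 2 := by
  decide +kernel

private theorem rk_ends : rk 0 = 0 ∧ rk 31 = 3 := by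
  decide +kernel

theorem ln_gS {i : ℕ} (hi : i < 32) : ln (gS i) = rk i := by
  rcases eq_or_ne i 0 with rfl | h0
  · rw [rk_ends.1, show gS 0 = 1 by simp [gS], ln_one']
    rfl
  rcases eq_or_ne i 31 with rfl | h1
  · rw [rk_ends.2, show gS 31 = gd by simp [gS], ln_gd]
    rfl
  rw [gS, if_neg h0, if_neg h1, ln_conj', ln_base', rk_eq i hi h0 h1]
  split_ifs <;> rfl

end Pool.Agent.HT
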