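import Pool.Agent.HT.Tab

/-!
# Project HT, piece HT-C3: normal forms of positive elements

Pure combinatorics of the table: left weighted sequences of simple elements and the left
multiplication by a simple element.
-/

namespace Pool.Agent.HT

/-- left multiplication of a left weighted sequence by a simple element -/
def act : ℕ → List ℕ → List ℕ
  | s, [] => if s = 0 then [] else [s]
  | s, x :: l => hd s x :: act (tl s x) l

/-- left weighted sequences: the entries are in `1..31`, and `x⁻¹ δ ∧ y = 1` for consecutive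
entries `x, y` -/
def Nf : List ℕ → Prop
  | [] => True
  | [x] => 1 ≤ x ∧ x < 32
  | x :: y :: l => (1 ≤ x ∧ x < 32) ∧ mt (kt x) y = 0 ∧ Nf (y :: l)

theorem Nf.tail {x : ℕ} {l : List ℕ} (h : Nf (x :: l)) : Nf l := by
  cases l with
  | nil => exact trivial
  | cons y l => exact h.2.2

theorem Nf.head {x : ℕ} {l : List ℕ} (h : Nf (x :: l)) : 1 ≤ x ∧ x < 32 := by
  cases l with
  | nil => exact h
  | cons y l => exact h.1

private theorem C3_tab1 : ∀ x < 32, ∀ y < 32, mt (kt x) y = 0 → hd x y = x ∧ tl x y = y := by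
  decide +kernel

private theorem C3_tab2 : ∀ s < 32, ∀ x < 32, hd s x < 32 ∧ tl s x < 32 ∧
    (x ≠ 0 → hd s x ≠ 0) ∧ mt (kt (hd s x)) (tl s x) = 0 := by
  decide +kernel

private theorem C3_tab3 : ∀ s < 32, ∀ x < 32, ∀ y < 32, mt (kt x) y = 0 →
    mt (kt (hd s x)) (hd (tl s x) y) = 0 := by
  decide +kernel

private theorem C3_tab4 : ∀ s < 32, ∀ t < 32, tm s t < 32 → ∀ x < 32,
    hd s (hd t x) = hd (tm s t) x ∧ tm (tl s (hd t x)) (tl t x) = tl (tm s t) x := by
  decide +kernel

private theorem C3_tab5 : ∀ s < 32, ∀ t < 32, tm s t < 32 → hd s t = tm s t ∧ tl s t = 0 ∧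
    (t = 0 ∨ tm s t ≠ 0) := by
  decide +kernel

private theorem C3_tab7 : ∀ s < 32, tm s 0 = s := by
  decide +kernel

private theorem C3_tab6 : ∀ x < 32, hd 0 x = x ∧ tl 0 x = 0 ∧ mt (kt 31) x = 0 := by
  decide +kernel

/-- table: `hd 0 x = x`, `tl 0 x = 0` -/
theorem act_zero {l : List ℕ} (h : Nf l) : act 0 l = l := by
  induction l with
  | nil => rfl
  | cons x l ih =>
    obtain ⟨h1, h2⟩ := h.head
    obtain ⟨h3, h4, -⟩ := C3_tab6 x h2
    show hd 0 x :: act (tl 0 x) l = x :: l
    rw [h3, h4, ih h.tail]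

/-- if `x⁻¹ δ ∧ y = 1` then `hd x y = x`, `tl x y = y` (table) -/
theorem act_cons {x : ℕ} {l : List ℕ} (h : Nf (x :: l)) : act x l = x :: l := by
  induction l generalizing x with
  | nil =>
    have h1 : x ≠ 0 := by
      have := h.head.1
      omega
    show (if x = 0 then [] else [x]) = [x]
    rw [if_neg h1]
  | cons y l ih =>
    obtain ⟨h1, h2⟩ := h.head
    obtain ⟨h3, h4⟩ := h.tail.head
    obtain ⟨h5, h6⟩ := C3_tab1 x h2 y h4 h.2.1
    show hd x y :: act (tl x y) l = x :: y :: l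
    rw [h5, h6, ih h.tail]

theorem act_last {l : List ℕ} (h : Nf l) : act 31 l = 31 :: l := by
  apply act_cons
  cases l with
  | nil => exact ⟨by norm_num, by norm_num⟩
  | cons x l => exact ⟨⟨by norm_num, by norm_num⟩, (C3_tab6 x h.head.2).2.2, h⟩

/-- Table (`decide +kernel`, tested, a few seconds): for `s, x, y < 32` with
`mt (kt x) y = 0` we have `mt (kt (hd s x)) (hd (tl s x) y) = 0`, also
`mt (kt (hd s x)) (tl s x) = 0`, `hd s x ≠ 0` for `x ≠ 0` and `hd s x < 32`, `tl s x < 32`. -/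
theorem act_nf {s : ℕ} (hs : s < 32) {l : List ℕ} (h : Nf l) : Nf (act s l) := by
  induction l generalizing s with
  | nil =>
    show Nf (if s = 0 then [] else [s])
    split_ifs with h0
    · exact trivial
    · exact ⟨by omega, hs⟩
  | cons x l ih =>
    obtain ⟨h1, h2⟩ := h.head
    obtain ⟨h3, h4, h5, h6⟩ := C3_tab2 s hs x h2
    have h7 : hd s x ≠ 0 := h5 (by omega)
    have h8 := ih h4 h.tail
    show Nf (hd s x :: act (tl s x) l)
    cases l with
    | nil =>
      show Nf (hd s x :: if tl s x = 0 then [] else [tl s x])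
      split_ifs with h0
      · exact ⟨by omega, h3⟩
      · exact ⟨⟨by omega, h3⟩, h6, by omega, h4⟩
    | cons y l =>
      exact ⟨⟨by omega, h3⟩, C3_tab3 s hs x h2 y h.tail.head.2 h.2.1, h8⟩

/-- Induction on `l`.  Table: if `u = tm s t < 32` and `x < 32` then `hd s (hd t x) = hd u x` and
`tm (tl s (hd t x)) (tl t x) = tl u x` (in particular it is `< 32`), and for the empty sequence
`hd s t = u`, `tl s t = 0`. -/
theorem act_act {s t : ℕ} (hs : s < 32) (ht : t < 32) (hst : tm s t < 32) {l : List ℕ}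
    (h : Nf l) : act s (act t l) = act (tm s t) l := by
  induction l generalizing s t with
  | nil =>
    obtain ⟨h1, h2, h3⟩ := C3_tab5 s hs t ht hst
    show act s (if t = 0 then [] else [t]) = if tm s t = 0 then [] else [tm s t]
    by_cases h0 : t = 0
    · rw [if_pos h0, h0, C3_tab7 s hs]
      rfl
    · rw [if_neg h0, if_neg (h3.resolve_left h0)]
      show hd s t :: act (tl s t) [] = [tm s t]
      rw [h1, h2]
      rfl
  | cons x l ih =>
    obtain ⟨h1, h2⟩ := h.head
    obtain ⟨h3, h4⟩ := C3_tab4 s hs t ht hst x h2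
    obtain ⟨h5, h6, -⟩ := C3_tab2 t ht x h2
    obtain ⟨-, h7, -⟩ := C3_tab2 s hs _ h5
    obtain ⟨-, h8, -⟩ := C3_tab2 _ hst x h2
    show hd s (hd t x) :: act (tl s (hd t x)) (act (tl t x) l) =
      hd (tm s t) x :: act (tl (tm s t) x) l
    rw [h3, ih h7 h6 (by rw [h4]; exact h8) h.tail, h4]

end Pool.Agent.HT
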