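import Pool.Agent.HT.C3

/-!
# Project HT, piece HT-C4: normal forms of all elements

The space `XX` of pairs `(k, l)`, `k` an integer and `l` a left weighted sequence which does not
begin with `31` (`δ`); `(k, l)` stands for `δ^k l`.  Left multiplication by `s` is
`(k, l) ↦ strip k (act (τ^k s) l)`.
-/

namespace Pool.Agent.HT

/-- the power `τ^k s` for an integer `k` -/
def shz (k : ℤ) (s : ℕ) : ℕ := sh (k % 5).toNat s

/-- move the leading `δ`'s of a sequence to the exponent -/
def strip : ℤ → List ℕ → ℤ × List ℕ
  | k, [] => (k, [])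
  | k, x :: l => if x = 31 then strip (k + 1) l else (k, x :: l)

/-- the normal forms -/
def XX : Type := {p : ℤ × List ℕ // Nf p.2 ∧ p.2.head? ≠ some 31}

private theorem C4_tab1 : ∀ s < 32, tau s < 32 ∧ hd s 31 = 31 ∧ tl s 31 = tau s ∧
    tau (tau (tau (tau (tau s)))) = s := by
  decide +kernel

private theorem C4_tab2 : tau 31 = 31 ∧ tau 0 = 0 := by
  decide +kernel

private theorem C4_tab3 : ∀ s < 32, ∀ t < 32, tm s t < 32 →
    tm (tau s) (tau t) = tau (tm s t) := by
  decide +kernel

private theorem C4_tab4 : ∀ s < 32, kt s < 32 ∧ tm s (kt s) = 31 ∧ ∃ t < 32, tm t s = 31 := by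
  decide +kernel

private theorem sh_lt {n s : ℕ} (hs : s < 32) : sh n s < 32 := by
  induction n with
  | zero => exact hs
  | succ n ih => exact (C4_tab1 _ ih).1

private theorem strip_of_head (k : ℤ) {l : List ℕ} (h : l.head? ≠ some 31) :
    strip k l = (k, l) := by
  cases l with
  | nil => rfl
  | cons x l =>
    have hx : x ≠ 31 := fun e => h (by rw [e]; rfl)
    simp [strip, hx]

/-- `Nf` of the tail; the new head is not `31` because `strip` continues. -/
theorem strip_spec (k : ℤ) {l : List ℕ} (h : Nf l) :
    Nf (strip k l).2 ∧ (strip k l).2.head? ≠ some 31 := by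
  induction l generalizing k with
  | nil => exact ⟨trivial, by simp [strip]⟩
  | cons x l ih =>
    by_cases hx : x = 31
    · have e : strip k (x :: l) = strip (k + 1) l := by simp [strip, hx]
      rw [e]
      exact ih (k + 1) h.tail
    · have e : strip k (x :: l) = (k, x :: l) := by simp [strip, hx]
      rw [e]
      exact ⟨h, by simp [hx]⟩

/-- the exponent does not decrease -/
theorem le_strip (k : ℤ) (l : List ℕ) : k ≤ (strip k l).1 := by
  induction l generalizing k with
  | nil => exact le_rfl
  | cons x l ih =>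
    by_cases hx : x = 31
    · have e : strip k (x :: l) = strip (k + 1) l := by simp [strip, hx]
      rw [e]
      exact le_trans (by omega) (ih (k + 1))
    · have e : strip k (x :: l) = (k, x :: l) := by simp [strip, hx]
      rw [e]

/-- `sh 5 s = s` and `sh (i + j) s = sh i (sh j s)` for `s < 32` -/
theorem shz_lt {k : ℤ} {s : ℕ} (hs : s < 32) : shz k s < 32 :=
  sh_lt hs

theorem shz_succ {k : ℤ} {s : ℕ} (hs : s < 32) : shz (k + 1) s = tau (shz k s) := by
  unfold shz
  by_cases h : k % 5 = 4
  · have h1 : ((k + 1) % 5).toNat = 0 := by omega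
    have h2 : (k % 5).toNat = 4 := by omega
    rw [h1, h2]
    exact (C4_tab1 s hs).2.2.2.symm
  · have h1 : ((k + 1) % 5).toNat = (k % 5).toNat + 1 := by omega
    rw [h1]
    rfl

theorem shz_last (k : ℤ) : shz k 31 = 31 := by
  unfold shz
  generalize (k % 5).toNat = n
  induction n with
  | zero => rfl
  | succ n ih =>
    show tau (sh n 31) = 31
    rw [ih]
    exact C4_tab2.1

private theorem shz_zero (k : ℤ) : shz k 0 = 0 := by
  unfold shz
  generalize (k % 5).toNat = n
  induction n with
  | zero => rfl
  | succ n ih =>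
    show tau (sh n 0) = 0
    rw [ih]
    exact C4_tab2.2

/-- table: `tm (tau s) (tau t) = tau (tm s t)` if one of them is `< 32` -/
theorem tm_shz {k : ℤ} {s t : ℕ} (hs : s < 32) (ht : t < 32) (h : tm s t < 32) :
    tm (shz k s) (shz k t) = shz k (tm s t) := by
  unfold shz
  generalize (k % 5).toNat = n
  induction n with
  | zero => rfl
  | succ n ih =>
    show tm (tau (sh n s)) (tau (sh n t)) = tau (sh n (tm s t))
    rw [← ih]
    exact C4_tab3 _ (sh_lt hs) _ (sh_lt ht) (by rw [ih]; exact sh_lt h)

/-- Induction on `l` (for all `k`): if `l = 31 :: l'` then `hd s' 31 = 31`, `tl s' 31 = tau s'`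
(table), so `strip k (act s' l) = strip (k + 1) (act (tau s') l')`. -/
theorem strip_act {k : ℤ} {s : ℕ} (hs : s < 32) {l : List ℕ} (h : Nf l) :
    strip (strip k l).1 (act (shz (strip k l).1 s) (strip k l).2) =
      strip k (act (shz k s) l) := by
  induction l generalizing k with
  | nil => rfl
  | cons x l ih =>
    by_cases hx : x = 31
    · have e : strip k (x :: l) = strip (k + 1) l := by simp [strip, hx]
      rw [e, ih h.tail, hx]
      obtain ⟨-, h2, h3, -⟩ := C4_tab1 (shz k s) (shz_lt hs)
      have e2 : act (shz k s) (31 :: l) = hd (shz k s) 31 :: act (tl (shz k s) 31) l := rfl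
      rw [e2, h2, h3, shz_succ hs]
      simp [strip]
    · have e : strip k (x :: l) = (k, x :: l) := by simp [strip, hx]
      rw [e]

/-- left multiplication by `s` on the normal forms -/
def actX (s : ℕ) (hs : s < 32) (p : XX) : XX :=
  ⟨strip p.1.1 (act (shz p.1.1 s) p.1.2), strip_spec _ (act_nf (shz_lt hs) p.2.1)⟩

private theorem actX_congr {s t : ℕ} (h : s = t) (hs : s < 32) (ht : t < 32) :
    actX s hs = actX t ht := by
  subst h
  rfl

/-- `strip_act`, `act_act`, `tm_shz` -/
theorem actX_mul {s t : ℕ} (hs : s < 32) (ht : t < 32) (h : tm s t < 32) (p : XX) :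
    actX s hs (actX t ht p) = actX (tm s t) h p := by
  apply Subtype.ext
  show strip (strip p.1.1 (act (shz p.1.1 t) p.1.2)).1
      (act (shz (strip p.1.1 (act (shz p.1.1 t) p.1.2)).1 s)
        (strip p.1.1 (act (shz p.1.1 t) p.1.2)).2) =
    strip p.1.1 (act (shz p.1.1 (tm s t)) p.1.2)
  rw [strip_act hs (act_nf (shz_lt ht) p.2.1),
    act_act (shz_lt hs) (shz_lt ht) (by rw [tm_shz hs ht h]; exact shz_lt h) p.2.1,
    tm_shz hs ht h]

theorem actX_zero (p : XX) : actX 0 (by norm_num) p = p := by
  apply Subtype.ext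
  show strip p.1.1 (act (shz p.1.1 0) p.1.2) = p.1
  rw [shz_zero, act_zero p.2.1, strip_of_head _ p.2.2]

/-- `act 31 l = 31 :: l` and `l` does not begin with `31` -/
theorem actX_last (p : XX) : (actX 31 (by norm_num) p).1 = (p.1.1 + 1, p.1.2) := by
  show strip p.1.1 (act (shz p.1.1 31) p.1.2) = (p.1.1 + 1, p.1.2)
  rw [shz_last, act_last p.2.1, ← strip_of_head (p.1.1 + 1) p.2.2]
  simp [strip]

private theorem actX_last_bij : Function.Bijective (actX 31 (by norm_num)) := by
  constructor
  · intro p q h
    have h1 := congrArg Subtype.val h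
    rw [actX_last, actX_last] at h1
    apply Subtype.ext
    have h2 := congrArg Prod.fst h1
    have h3 := congrArg Prod.snd h1
    apply Prod.ext
    · have : p.1.1 + 1 = q.1.1 + 1 := h2
      omega
    · exact h3
  · intro p
    refine ⟨⟨(p.1.1 - 1, p.1.2), p.2⟩, ?_⟩
    apply Subtype.ext
    rw [actX_last]
    apply Prod.ext
    · show p.1.1 - 1 + 1 = p.1.1
      omega
    · rfl

/-- `kt s` is a right inverse up to `31` (`tm s (kt s) = 31`), there is `t` with `tm t s = 31`
(table), and `actX 31` is bijective by `actX_last`. -/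
theorem actX_bij {s : ℕ} (hs : s < 32) : Function.Bijective (actX s hs) := by
  obtain ⟨h1, h2, t, h3, h4⟩ := C4_tab4 s hs
  have e1 : actX s hs ∘ actX (kt s) h1 = actX 31 (by norm_num) := by
    funext p
    show actX s hs (actX (kt s) h1 p) = actX 31 (by norm_num) p
    rw [actX_mul hs h1 (by rw [h2]; norm_num)]
    exact congrFun (actX_congr h2 _ _) p
  have e2 : actX t h3 ∘ actX s hs = actX 31 (by norm_num) := by
    funext p
    show actX t h3 (actX s hs p) = actX 31 (by norm_num) p
    rw [actX_mul h3 hs (by rw [h4]; norm_num)]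
    exact congrFun (actX_congr h4 _ _) p
  constructor
  · have h5 : Function.Injective (actX t h3 ∘ actX s hs) := by
      rw [e2]
      exact actX_last_bij.1
    exact h5.of_comp
  · have h5 : Function.Surjective (actX s hs ∘ actX (kt s) h1) := by
      rw [e1]
      exact actX_last_bij.2
    exact h5.of_comp

end Pool.Agent.HT
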