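import Pool.Agent.HT.C4
import Pool.Agent.HT.C2

/-!
# Project HT, piece HT-C5: the Artin group acts on the normal forms
-/

namespace Pool.Agent.HT

/-- the permutation `actX s` -/
private noncomputable def C5_P (s : ℕ) : Equiv.Perm XX :=
  if h : s < 32 then Equiv.ofBijective (actX s h) (actX_bij h) else 1

private theorem C5_P_apply {s : ℕ} (h : s < 32) (p : XX) : C5_P s p = actX s h p := by
  unfold C5_P
  rw [dif_pos h]
  rfl

private theorem C5_P_mul {s t u : ℕ} (hs : s < 32) (ht : t < 32) (h : tm s t = u) (hu : u < 32) :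
    C5_P s * C5_P t = C5_P u := by
  subst h
  ext p
  rw [Equiv.Perm.mul_apply, C5_P_apply ht, C5_P_apply hs, C5_P_apply hu, actX_mul hs ht hu]

private theorem C5_P_zero : C5_P 0 = 1 := by
  ext p
  rw [C5_P_apply (by norm_num), actX_zero]
  rfl

private theorem C5_tab2 : ∀ s < 32, tau s < 32 ∧ kt s < 32 ∧ tm s (kt s) = 31 ∧
    tm (kt s) (tau s) = 31 := by
  decide +kernel

private theorem C5_P_tau {s : ℕ} (hs : s < 32) : C5_P (tau s) = (C5_P 31)⁻¹ * C5_P s * C5_P 31 := by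
  obtain ⟨h1, h2, h3, h4⟩ := C5_tab2 s hs
  have e1 := C5_P_mul hs h2 h3 (by norm_num)
  have e2 := C5_P_mul h2 h1 h4 (by norm_num)
  have e3 : C5_P 31 * C5_P (tau s) = C5_P s * C5_P 31 := by
    conv_lhs => rw [← e1]
    rw [mul_assoc, e2]
  rw [mul_assoc, ← e3, inv_mul_cancel_left]

private theorem C5_sh_lt {k s : ℕ} (hs : s < 32) : sh k s < 32 := by
  induction k with
  | zero => exact hs
  | succ k ih => exact (C5_tab2 _ ih).1

private theorem C5_P_sh {k s : ℕ} (hs : s < 32) :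
    C5_P (sh k s) = C5_P 31 ^ (-(k : ℤ)) * C5_P s * C5_P 31 ^ (k : ℤ) := by
  induction k with
  | zero =>
    show C5_P s = _
    simp
  | succ k ih =>
    show C5_P (tau (sh k s)) = _
    rw [C5_P_tau (C5_sh_lt hs), ih]
    push_cast
    group

/-- the index of `base t` -/
private def C5_b (t : ℕ) : ℕ :=
  if t = 0 then 1 else if t = 1 then 6 else if t = 2 then 11 else if t = 3 then 17 else
    if t = 4 then 25 else 27

private theorem C5_tab3 : ∀ i < 32, i ≠ 0 → i ≠ 31 →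
    sh (((i - 1) % 5 + off ((i - 1) / 5)) % 5) (C5_b ((i - 1) / 5)) = i ∧
      C5_b ((i - 1) / 5) < 32 ∧ (i - 1) / 5 < 6 := by
  decide +kernel

private theorem C5_tab4 : tm 1 10 = 27 ∧ tm 10 1 = 27 ∧ tm 6 10 = 17 ∧ tm 12 6 = 17 ∧
    tm 10 12 = 17 ∧ tm 1 6 = 25 ∧ tm 6 8 = 25 ∧ tm 8 5 = 25 ∧ tm 5 11 = 25 ∧ tm 11 1 = 25 ∧
    tm 25 10 = 31 := by
  decide +kernel

/-- Let `P s` be the permutation `actX s` (`actX_bij`).  `P s * P t = P (tm s t)` if
`tm s t < 32` (`actX_mul`).  The relations for `P 1, P 6, P 10` (`a, b, c`):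
`1 10 = 27 = 10 1`; `6 10 = 17` and `17 = 12 6 = 10 12`, so `6 10 6 = 17 6 = 10 12 6 = 10 17 = 10 6 10`;
with `25 = 1 6 = 6 8 = 8 5 = 5 11 = 11 1`:
`6 1 6 1 6 = 6 25 25 = 6 8 5 25 = 25 5 25 = 25 5 11 1 = 25 25 1 = 1 6 1 6 1`.
So `exists_lift` gives a homomorphism `f` with `f ga = P 1`, `f gb = P 6`, `f gc = P 10`.  Then
`f gd = P 31` (`1 6 = 25`, `25 10 = 31`), `P s * P 31 = P 31 * P (tau s)`
(`tm s (kt s) = 31 = tm (kt s) (tau s)`) and `f (gS i) = P i` by the definition of `gS`. -/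
theorem exists_rep : ∃ f : HA →* Equiv.Perm XX,
    ∀ i (hi : i < 32) (p : XX), f (gS i) p = actX i hi p := by
  obtain ⟨t1, t2, t3, t4, t5, t6, t7, t8, t9, t10, t11⟩ := C5_tab4
  have e1 : C5_P 1 * C5_P 10 = C5_P 27 := C5_P_mul (by norm_num) (by norm_num) t1 (by norm_num)
  have e2 : C5_P 10 * C5_P 1 = C5_P 27 := C5_P_mul (by norm_num) (by norm_num) t2 (by norm_num)
  have e3 : C5_P 6 * C5_P 10 = C5_P 17 := C5_P_mul (by norm_num) (by norm_num) t3 (by norm_num)
  have e4 : C5_P 12 * C5_P 6 = C5_P 17 := C5_P_mul (by norm_num) (by norm_num) t4 (by norm_num)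
  have e5 : C5_P 10 * C5_P 12 = C5_P 17 := C5_P_mul (by norm_num) (by norm_num) t5 (by norm_num)
  have e6 : C5_P 1 * C5_P 6 = C5_P 25 := C5_P_mul (by norm_num) (by norm_num) t6 (by norm_num)
  have e7 : C5_P 6 * C5_P 8 = C5_P 25 := C5_P_mul (by norm_num) (by norm_num) t7 (by norm_num)
  have e8 : C5_P 8 * C5_P 5 = C5_P 25 := C5_P_mul (by norm_num) (by norm_num) t8 (by norm_num)
  have e9 : C5_P 5 * C5_P 11 = C5_P 25 := C5_P_mul (by norm_num) (by norm_num) t9 (by norm_num)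
  have e10 : C5_P 11 * C5_P 1 = C5_P 25 := C5_P_mul (by norm_num) (by norm_num) t10 (by norm_num)
  have e11 : C5_P 25 * C5_P 10 = C5_P 31 := C5_P_mul (by norm_num) (by norm_num) t11 (by norm_num)
  have r1 : C5_P 1 * C5_P 10 = C5_P 10 * C5_P 1 := by rw [e1, e2]
  have r2 : C5_P 6 * C5_P 10 * C5_P 6 = C5_P 10 * C5_P 6 * C5_P 10 := by
    rw [e3, ← e5, mul_assoc, e4, mul_assoc, e3]
  have r3 : C5_P 1 * C5_P 6 * C5_P 1 * C5_P 6 * C5_P 1 =
      C5_P 6 * C5_P 1 * C5_P 6 * C5_P 1 * C5_P 6 := by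
    have l1 : C5_P 1 * C5_P 6 * C5_P 1 * C5_P 6 * C5_P 1 = C5_P 25 * C5_P 25 * C5_P 1 := by
      rw [e6, mul_assoc (C5_P 25) (C5_P 1) (C5_P 6), e6]
    have l2 : C5_P 6 * C5_P 1 * C5_P 6 * C5_P 1 * C5_P 6 = C5_P 6 * C5_P 25 * C5_P 25 := by
      rw [mul_assoc (C5_P 6) (C5_P 1) (C5_P 6), e6, mul_assoc (C5_P 6 * C5_P 25) (C5_P 1) (C5_P 6),
        e6]
    rw [l1, l2]
    calc C5_P 25 * C5_P 25 * C5_P 1 = C5_P 25 * (C5_P 5 * C5_P 11) * C5_P 1 := by rw [e9]
      _ = C5_P 25 * C5_P 5 * (C5_P 11 * C5_P 1) := by simp only [mul_assoc]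
      _ = C5_P 25 * C5_P 5 * C5_P 25 := by rw [e10]
      _ = C5_P 6 * C5_P 8 * C5_P 5 * C5_P 25 := by rw [e7]
      _ = C5_P 6 * (C5_P 8 * C5_P 5) * C5_P 25 := by simp only [mul_assoc]
      _ = C5_P 6 * C5_P 25 * C5_P 25 := by rw [e8]
  obtain ⟨f, fa, fb, fc⟩ := exists_lift (C5_P 1) (C5_P 6) (C5_P 10) r1 r2 r3
  have fd : f gd = C5_P 31 := by
    unfold gd
    rw [map_mul, map_mul, fa, fb, fc, e6, e11]
  have fbase : ∀ t < 6, f (base t) = C5_P (C5_b t) := by
    intro t ht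
    interval_cases t
    · exact fa
    · exact fb
    · show f (ga * gb * ga⁻¹) = C5_P 11
      rw [map_mul, map_mul, map_inv, fa, fb, e6, ← e10, mul_inv_cancel_right]
    · show f (gb * gc) = C5_P 17
      rw [map_mul, fb, fc, e3]
    · show f (ga * gb) = C5_P 25
      rw [map_mul, fa, fb, e6]
    · show f (ga * gc) = C5_P 27
      rw [map_mul, fa, fc, e1]
  have key : ∀ i < 32, f (gS i) = C5_P i := by
    intro i hi
    by_cases h0 : i = 0
    · subst h0
      have h1 : gS 0 = 1 := by simp [gS]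
      rw [h1, map_one, C5_P_zero]
    by_cases h31 : i = 31
    · subst h31
      have h1 : gS 31 = gd := rfl
      rw [h1, fd]
    obtain ⟨k1, k2, k3⟩ := C5_tab3 i hi h0 h31
    have h1 : gS i = gd ^ (-((((i - 1) % 5 + off ((i - 1) / 5)) % 5 : ℕ) : ℤ)) *
        base ((i - 1) / 5) * gd ^ ((((i - 1) % 5 + off ((i - 1) / 5)) % 5 : ℕ) : ℤ) := by
      unfold gS
      rw [if_neg h0, if_neg h31]
    rw [h1, map_mul, map_mul, map_zpow, map_zpow, fd, fbase _ k3, ← C5_P_sh k2, k1]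
  exact ⟨f, fun i hi p => by rw [key i hi, C5_P_apply hi]⟩

/-- the action of the Artin group on the normal forms -/
noncomputable def rep : HA →* Equiv.Perm XX := exists_rep.choose

theorem rep_gS {i : ℕ} (hi : i < 32) (p : XX) : rep (gS i) p = actX i hi p :=
  exists_rep.choose_spec i hi p

/-- the element of a normal form -/
noncomputable def ev (p : XX) : HA := gd ^ p.1.1 * (p.1.2.map gS).prod

private theorem C5_gS0 : gS 0 = 1 := by simp [gS]

private theorem C5_gS31 : gS 31 = gd := rfl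

private theorem C5_tab1 : ∀ s < 32, ∀ x < 32, mt (kt s) x < 32 ∧ tm s (mt (kt s) x) < 32 ∧
    tl s x < 32 ∧ hd s x = tm s (mt (kt s) x) ∧ tm (mt (kt s) x) (tl s x) = x := by
  decide +kernel

/-- Induction on `l` in `gS s * (l.map gS).prod = ((act s l).map gS).prod`, from
`gS (hd s x) * gS (tl s x) = gS s * gS x` (with `m = mt (kt s) x`: `hd s x = tm s m`,
`x = tm m (tl s x)`, table and `mul_gS`). -/
theorem act_prod {s : ℕ} (hs : s < 32) {l : List ℕ} (h : Nf l) :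
    ((act s l).map gS).prod = gS s * (l.map gS).prod := by
  induction l generalizing s with
  | nil =>
    show ((if s = 0 then [] else [s]).map gS).prod = gS s * 1
    split_ifs with h0
    · rw [h0, C5_gS0, mul_one]
      rfl
    · simp
  | cons x l ih =>
    obtain ⟨h1, h2⟩ := h.head
    obtain ⟨t1, t2, t3, t4, t5⟩ := C5_tab1 s hs x h2
    show (gS (hd s x) :: (act (tl s x) l).map gS).prod = gS s * (gS x :: l.map gS).prod
    rw [List.prod_cons, List.prod_cons, ih t3 h.tail, t4, ← mul_gS hs t1 t2, ← mul_assoc,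
      mul_assoc (gS s), mul_gS t1 t3 (by rw [t5]; exact h2), t5, mul_assoc]

theorem strip_prod (k : ℤ) (l : List ℕ) :
    gd ^ (strip k l).1 * ((strip k l).2.map gS).prod = gd ^ k * (l.map gS).prod := by
  induction l generalizing k with
  | nil => rfl
  | cons x l ih =>
    by_cases hx : x = 31
    · have e : strip k (x :: l) = strip (k + 1) l := by simp [strip, hx]
      rw [e, ih, hx, List.map_cons, List.prod_cons, C5_gS31, zpow_add_one, mul_assoc]
    · have e : strip k (x :: l) = (k, x :: l) := by simp [strip, hx]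
      rw [e]

/-- `gS s * gd^k = gd^k * gS (shz k s)` (`gS_sh`, `gd5_central`) -/
theorem gS_mul_zpow {s : ℕ} (hs : s < 32) (k : ℤ) : gS s * gd ^ k = gd ^ k * gS (shz k s) := by
  have h1 : (((k % 5).toNat : ℕ) : ℤ) = k % 5 := by omega
  have h2 : k = 5 * (k / 5) + k % 5 := by omega
  have h3 : Commute (gS s) (gd ^ (5 * (k / 5))) := by
    rw [zpow_mul]
    apply Commute.zpow_right
    exact gd5_central (gS s)
  unfold shz
  rw [gS_sh hs, h1]
  have h4 : gd ^ k = gd ^ (5 * (k / 5)) * gd ^ (k % 5) := by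
    rw [← zpow_add, ← h2]
  have h5 : gd ^ k * gd ^ (-(k % 5)) = gd ^ (5 * (k / 5)) := by
    rw [h4, mul_assoc, ← zpow_add, add_neg_cancel, zpow_zero, mul_one]
  calc gS s * gd ^ k = gS s * gd ^ (5 * (k / 5)) * gd ^ (k % 5) := by rw [h4, mul_assoc]
    _ = gd ^ (5 * (k / 5)) * gS s * gd ^ (k % 5) := by rw [h3.eq]
    _ = gd ^ k * gd ^ (-(k % 5)) * gS s * gd ^ (k % 5) := by rw [h5]
    _ = gd ^ k * (gd ^ (-(k % 5)) * gS s * gd ^ (k % 5)) := by simp only [mul_assoc]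

theorem ev_actX {s : ℕ} (hs : s < 32) (p : XX) : ev (actX s hs p) = gS s * ev p := by
  show gd ^ (strip p.1.1 (act (shz p.1.1 s) p.1.2)).1 *
      ((strip p.1.1 (act (shz p.1.1 s) p.1.2)).2.map gS).prod =
    gS s * (gd ^ p.1.1 * (p.1.2.map gS).prod)
  rw [strip_prod, act_prod (shz_lt hs) p.2.1, ← mul_assoc, ← mul_assoc, gS_mul_zpow hs]

private theorem C5_gS1 : ga = gS 1 := by
  have h1 : gS 1 = gd ^ (-((0 : ℕ) : ℤ)) * ga * gd ^ ((0 : ℕ) : ℤ) := rfl
  rw [h1]
  simp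

private theorem C5_gS6 : gb = gS 6 := by
  have h1 : gS 6 = gd ^ (-((0 : ℕ) : ℤ)) * gb * gd ^ ((0 : ℕ) : ℤ) := rfl
  rw [h1]
  simp

private theorem C5_gS10 : gc = gS 10 := by
  have h1 : gS 10 = gd ^ (-((4 : ℕ) : ℤ)) * gb * gd ^ ((4 : ℕ) : ℤ) := rfl
  have h2 := gd5_central gb
  have h3 := gd_gb
  symm
  calc gS 10 = (gd ^ 4)⁻¹ * (gb * gd ^ 5) * gd⁻¹ := by rw [h1]; group
    _ = (gd ^ 4)⁻¹ * (gd ^ 5 * gb) * gd⁻¹ := by rw [h2]
    _ = (gd * gb) * gd⁻¹ := by group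
    _ = gc := by rw [h3]; group

private theorem C5_ev_gS {i : ℕ} (hi : i < 32) (p : XX) : ev (rep (gS i) p) = gS i * ev p := by
  rw [rep_gS hi, ev_actX]

/-- `ga = gS 1`, `gb = gS 6`, `gc = gS 10` generate; induction with `Subgroup.closure_induction` -/
theorem ev_rep (g : HA) (p : XX) : ev (rep g p) = g * ev p := by
  have hg : g ∈ Subgroup.closure ({ga, gb, gc} : Set HA) := by
    rw [closure_gen]
    exact Subgroup.mem_top g
  induction hg using Subgroup.closure_induction generalizing p with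
  | mem x hx =>
    rcases hx with rfl | rfl | rfl
    · rw [C5_gS1]
      exact C5_ev_gS (by norm_num) p
    · rw [C5_gS6]
      exact C5_ev_gS (by norm_num) p
    · rw [C5_gS10]
      exact C5_ev_gS (by norm_num) p
  | one => rw [map_one, Equiv.Perm.one_apply, one_mul]
  | mul x y _ _ hx hy => rw [map_mul, Equiv.Perm.mul_apply, hx, hy, mul_assoc]
  | inv x _ hx =>
    have h1 := hx (rep x⁻¹ p)
    rw [← Equiv.Perm.mul_apply, ← map_mul, mul_inv_cancel, map_one, Equiv.Perm.one_apply] at h1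
    rw [h1, inv_mul_cancel_left]

/-- the base point -/
def x0 : XX := ⟨(0, []), trivial, by simp⟩

theorem ev_rep_x0 (g : HA) : ev (rep g x0) = g := by
  rw [ev_rep]
  have h : ev x0 = 1 := by
    show gd ^ (0 : ℤ) * (([] : List ℕ).map gS).prod = 1
    simp
  rw [h, mul_one]

theorem rep_gS_x0 {i : ℕ} (h1 : 1 ≤ i) (h2 : i ≤ 30) : (rep (gS i) x0).1 = (0, [i]) := by
  have h3 : i < 32 := by omega
  rw [rep_gS h3]
  show strip 0 (if i = 0 then [] else [i]) = (0, [i])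
  rw [if_neg (by omega)]
  simp [strip, show i ≠ 31 by omega]

end Pool.Agent.HT
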