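import Pool.Agent.HT.C5

/-!
# Project HT, piece HT-C6: positive elements
-/

namespace Pool.Agent.HT

/-- the monoid of positive elements -/
def PP : Submonoid HA := Submonoid.closure {g | ∃ i < 32, g = gS i}

theorem gS_mem {i : ℕ} (hi : i < 32) : gS i ∈ PP := Submonoid.subset_closure ⟨i, hi, rfl⟩

theorem gd_mem : gd ∈ PP := gS_mem (i := 31) (by norm_num)

private theorem C6a_tab1 : ∀ i < 32, kt i < 32 ∧ tm i (kt i) = 31 := by
  decide +kernel

private theorem C6a_tab2 : ∀ i < 32, ∃ t < 32, tm t i = 31 := by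
  decide +kernel

private theorem C6a_tab3 : ∀ i < 32, tau i < 32 ∧ (rk i = 0 → i = 0) := by
  decide +kernel

/-- `kt i` and the other complement: `gS i * gS (kt i) = gd` -/
theorem gS_inv_gd_mem {i : ℕ} (hi : i < 32) : (gS i)⁻¹ * gd ∈ PP := by
  obtain ⟨h1, h2⟩ := C6a_tab1 i hi
  have h3 := mul_gS hi h1 (by rw [h2]; norm_num)
  rw [h2] at h3
  have h4 : (gS i)⁻¹ * gd = gS (kt i) := by
    rw [show gd = gS 31 from rfl, ← h3, inv_mul_cancel_left]
  rw [h4]
  exact gS_mem h1

/-- there is `t` with `tm t i = 31` (table) -/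
theorem gd_gS_inv_mem {i : ℕ} (hi : i < 32) : gd * (gS i)⁻¹ ∈ PP := by
  obtain ⟨t, h1, h2⟩ := C6a_tab2 i hi
  have h3 := mul_gS h1 hi (by rw [h2]; norm_num)
  rw [h2] at h3
  have h4 : gd * (gS i)⁻¹ = gS t := by
    rw [show gd = gS 31 from rfl, ← h3, mul_inv_cancel_right]
  rw [h4]
  exact gS_mem h1

/-- `Submonoid.closure_induction` and `gS_tau` -/
theorem conj_mem {g : HA} (hg : g ∈ PP) : gd⁻¹ * g * gd ∈ PP := by
  refine Submonoid.closure_induction (motive := fun g _ => gd⁻¹ * g * gd ∈ PP) ?_ ?_ ?_ hg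
  · rintro x ⟨i, hi, rfl⟩
    rw [← gS_tau hi]
    exact gS_mem (C6a_tab3 i hi).1
  · simp [PP.one_mem]
  · intro x y _ _ hx hy
    have h := PP.mul_mem hx hy
    have e : gd⁻¹ * (x * y) * gd = gd⁻¹ * x * gd * (gd⁻¹ * y * gd) := by group
    rw [e]
    exact h

private theorem C6_conj_pow {g : HA} (hg : g ∈ PP) (n : ℕ) : (gd ^ n)⁻¹ * g * gd ^ n ∈ PP := by
  induction n with
  | zero => simpa using hg
  | succ n ih =>
    have h := conj_mem ih
    have e : (gd ^ (n + 1))⁻¹ * g * gd ^ (n + 1) = gd⁻¹ * ((gd ^ n)⁻¹ * g * gd ^ n) * gd := by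
      rw [pow_succ, mul_inv_rev]
      simp only [mul_assoc]
    rw [e]
    exact h

/-- the same with `gd5_central`: conjugate four times by `gd` -/
theorem conj_mem' {g : HA} (hg : g ∈ PP) : gd * g * gd⁻¹ ∈ PP := by
  have h := C6_conj_pow hg 4
  have h5 := gd5_central g
  have e : gd * g * gd⁻¹ = (gd ^ 4)⁻¹ * g * gd ^ 4 := by
    calc gd * g * gd⁻¹ = (gd ^ 4)⁻¹ * (gd ^ 5 * g) * gd⁻¹ := by group
      _ = (gd ^ 4)⁻¹ * (g * gd ^ 5) * gd⁻¹ := by rw [h5]
      _ = (gd ^ 4)⁻¹ * g * gd ^ 4 := by group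
  rw [e]
  exact h

private theorem C6_conj_pow' {g : HA} (hg : g ∈ PP) (n : ℕ) : gd ^ n * g * (gd ^ n)⁻¹ ∈ PP := by
  induction n with
  | zero => simpa using hg
  | succ n ih =>
    have h := conj_mem' ih
    have e : gd ^ (n + 1) * g * (gd ^ (n + 1))⁻¹ = gd * (gd ^ n * g * (gd ^ n)⁻¹) * gd⁻¹ := by
      rw [pow_succ', mul_inv_rev]
      simp only [mul_assoc]
    rw [e]
    exact h

private theorem C6_ln {g : HA} (hg : g ∈ PP) : 0 ≤ ln g ∧ (ln g ≤ 0 → g = 1) := by
  refine Submonoid.closure_induction (motive := fun g _ => 0 ≤ ln g ∧ (ln g ≤ 0 → g = 1)) ?_ ?_ ?_ hg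
  · rintro x ⟨i, hi, rfl⟩
    rw [ln_gS hi]
    refine ⟨by positivity, fun h => ?_⟩
    have h1 : rk i = 0 := by omega
    rw [(C6a_tab3 i hi).2 h1]
    simp [gS]
  · refine ⟨?_, fun _ => rfl⟩
    have h := ln_mul 1 1
    rw [mul_one] at h
    omega
  · rintro x y _ _ ⟨hx1, hx2⟩ ⟨hy1, hy2⟩
    rw [ln_mul]
    refine ⟨by omega, fun h => ?_⟩
    rw [hx2 (by omega), hy2 (by omega), mul_one]

theorem ln_nonneg {g : HA} (hg : g ∈ PP) : 0 ≤ ln g := (C6_ln hg).1

/-- `gS 0 = 1` and `rk i ≥ 1` for `i ≥ 1` -/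
theorem eq_one_of_ln {g : HA} (hg : g ∈ PP) (h : ln g ≤ 0) : g = 1 := (C6_ln hg).2 h

/-- if `g ≠ 1` is positive then `g = gS i * g'` with `i ≥ 1` and `g'` positive -/
theorem exists_first {g : HA} (hg : g ∈ PP) (h : g ≠ 1) :
    ∃ i, 1 ≤ i ∧ i < 32 ∧ (gS i)⁻¹ * g ∈ PP := by
  revert h
  refine Submonoid.closure_induction_left
    (motive := fun g _ => g ≠ 1 → ∃ i, 1 ≤ i ∧ i < 32 ∧ (gS i)⁻¹ * g ∈ PP) ?_ ?_ hg
  · intro h
    exact absurd rfl h
  · rintro x ⟨i, hi, rfl⟩ y hy ih h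
    rcases Nat.eq_zero_or_pos i with rfl | h0
    · have e : gS 0 = 1 := by simp [gS]
      rw [e, one_mul] at h ⊢
      exact ih h
    · refine ⟨i, h0, hi, ?_⟩
      rw [inv_mul_cancel_left]
      exact hy

/-- if `g ≠ 1` is positive then `g = g' * gS i` with `i ≥ 1` and `g'` positive -/
theorem exists_last {g : HA} (hg : g ∈ PP) (h : g ≠ 1) :
    ∃ i, 1 ≤ i ∧ i < 32 ∧ g * (gS i)⁻¹ ∈ PP := by
  revert h
  refine Submonoid.closure_induction_right
    (motive := fun g _ => g ≠ 1 → ∃ i, 1 ≤ i ∧ i < 32 ∧ g * (gS i)⁻¹ ∈ PP) ?_ ?_ hg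
  · intro h
    exact absurd rfl h
  · rintro x hx y ⟨i, hi, rfl⟩ ih h
    rcases Nat.eq_zero_or_pos i with rfl | h0
    · have e : gS 0 = 1 := by simp [gS]
      rw [e, mul_one] at h ⊢
      exact ih h
    · refine ⟨i, h0, hi, ?_⟩
      rw [mul_inv_cancel_right]
      exact hx

private theorem C6_gen {x : HA} (hx : x ∈ ({ga, gb, gc} : Set HA)) : ∃ i < 32, x = gS i := by
  rcases hx with rfl | rfl | rfl
  · refine ⟨1, by norm_num, ?_⟩
    have h1 : gS 1 = gd ^ (-((0 : ℕ) : ℤ)) * ga * gd ^ ((0 : ℕ) : ℤ) := rfl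
    rw [h1]
    simp
  · refine ⟨6, by norm_num, ?_⟩
    have h1 : gS 6 = gd ^ (-((0 : ℕ) : ℤ)) * gb * gd ^ ((0 : ℕ) : ℤ) := rfl
    rw [h1]
    simp
  · refine ⟨10, by norm_num, ?_⟩
    have h1 : gS 10 = gd ^ (-((4 : ℕ) : ℤ)) * gb * gd ^ ((4 : ℕ) : ℤ) := rfl
    have h2 := gd5_central gb
    have h3 := gd_gb
    symm
    calc gS 10 = (gd ^ 4)⁻¹ * (gb * gd ^ 5) * gd⁻¹ := by rw [h1]; group
      _ = (gd ^ 4)⁻¹ * (gd ^ 5 * gb) * gd⁻¹ := by rw [h2]
      _ = (gd * gb) * gd⁻¹ := by group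
      _ = gc := by rw [h3]; group

/-- Induction on `g` in the group generated by `ga, gb, gc` (`Subgroup.closure_induction`); the
generators are `gS 1`, `gS 6`, `gS 10`; use `conj_mem`, `conj_mem'`, `gS_inv_gd_mem`. -/
theorem exists_zpow (g : HA) : ∃ n : ℕ, gd ^ n * g ∈ PP ∧ g⁻¹ * gd ^ n ∈ PP := by
  have hg : g ∈ Subgroup.closure ({ga, gb, gc} : Set HA) := by
    rw [closure_gen]
    exact Subgroup.mem_top g
  refine Subgroup.closure_induction
    (p := fun g _ => ∃ n : ℕ, gd ^ n * g ∈ PP ∧ g⁻¹ * gd ^ n ∈ PP) ?_ ?_ ?_ ?_ hg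
  · intro x hx
    obtain ⟨i, hi, rfl⟩ := C6_gen hx
    refine ⟨1, ?_, ?_⟩
    · rw [pow_one]
      exact PP.mul_mem gd_mem (gS_mem hi)
    · rw [pow_one]
      exact gS_inv_gd_mem hi
  · exact ⟨0, by simp [PP.one_mem], by simp [PP.one_mem]⟩
  · rintro x y _ _ ⟨n, hx1, hx2⟩ ⟨m, hy1, hy2⟩
    refine ⟨n + m, ?_, ?_⟩
    · have h := PP.mul_mem (C6_conj_pow' hx1 m) hy1
      have e : gd ^ (n + m) * (x * y) = gd ^ m * (gd ^ n * x) * (gd ^ m)⁻¹ * (gd ^ m * y) := by
        rw [Nat.add_comm, pow_add]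
        group
      rw [e]
      exact h
    · have h := PP.mul_mem hy2 (C6_conj_pow hx2 m)
      have e : (x * y)⁻¹ * gd ^ (n + m) = y⁻¹ * gd ^ m * ((gd ^ m)⁻¹ * (x⁻¹ * gd ^ n) * gd ^ m) := by
        rw [pow_add]
        group
      rw [e]
      exact h
  · rintro x _ ⟨n, hx1, hx2⟩
    refine ⟨n, ?_, ?_⟩
    · have h := C6_conj_pow' hx2 n
      have e : gd ^ n * x⁻¹ = gd ^ n * (x⁻¹ * gd ^ n) * (gd ^ n)⁻¹ := by group
      rw [e]
      exact h
    · have h := C6_conj_pow hx1 n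
      have e : x⁻¹⁻¹ * gd ^ n = (gd ^ n)⁻¹ * (gd ^ n * x) * gd ^ n := by group
      rw [e]
      exact h

/-- the first simple element of a normal form -/
def al (p : XX) : ℕ := if 0 < p.1.1 then 31 else p.1.2.headD 0

private theorem C6_rep_mul {i : ℕ} (hi : i < 32) (h : HA) :
    (rep (gS i * h) x0).1 = strip (rep h x0).1.1 (act (shz (rep h x0).1.1 i) (rep h x0).1.2) := by
  rw [map_mul, Equiv.Perm.mul_apply, rep_gS hi]
  rfl

/-- the exponent of a positive element: induction, `le_strip` -/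
theorem rep_nonneg {g : HA} (hg : g ∈ PP) : 0 ≤ (rep g x0).1.1 := by
  unfold PP at hg
  induction hg using Submonoid.closure_induction_left with
  | one =>
    rw [map_one]
    exact le_refl (0 : ℤ)
  | mul_left x hx y hy ih =>
    obtain ⟨i, hi, rfl⟩ := hx
    rw [C6_rep_mul hi]
    exact le_trans ih (le_strip _ _)

private theorem C6_tab1 : ∀ i < 32, leT i 31 = true ∧ leT i i = true := by
  decide +kernel

private theorem C6_tab2 : ∀ i < 32, ∀ x < 32, leT i (hd i x) = true := by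
  decide +kernel

private theorem C6_tab3 : ∀ i < 32, leT i 0 = true → i = 0 := by
  decide +kernel

private theorem C6_tab4 : ∀ i < 32, ∀ x < 32, leT i x = true → ld i x < 32 ∧ tm i (ld i x) = x := by
  decide +kernel

private theorem C6_nf_mem {l : List ℕ} (h : Nf l) : ∀ x ∈ l, x < 32 := by
  induction l with
  | nil => intro x hx; simp at hx
  | cons y l ih =>
    intro x hx
    rcases List.mem_cons.1 hx with rfl | hx
    · exact h.head.2
    · exact ih h.tail x hx

private theorem C6_prod_mem {l : List ℕ} (h : Nf l) : (l.map gS).prod ∈ PP := by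
  apply Submonoid.list_prod_mem
  intro x hx
  obtain ⟨i, hi, rfl⟩ := List.mem_map.1 hx
  exact gS_mem (C6_nf_mem h i hi)

/-- If `g = gS i * g'` then with `rep g' x0 = (k', l')`, `k' ≥ 0`: `rep g x0 = strip k' (act i' l')`.
If `k' > 0` then `al = 31` by `le_strip`.  If `k' = 0` and `l' = x :: l''` then `act i l'` begins
with `hd i x` and `i ≤ hd i x` (table); if `hd i x = 31` then `strip` makes the exponent positive.
If `l' = []` then `al = i`. -/
theorem le_al {g : HA} {i : ℕ} (hi : i < 32) (hg : (gS i)⁻¹ * g ∈ PP) :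
    leT i (al (rep g x0)) = true := by
  have h0 := rep_nonneg hg
  have h1 := C6_rep_mul hi ((gS i)⁻¹ * g)
  rw [mul_inv_cancel_left] at h1
  obtain ⟨h2, h3⟩ := (rep ((gS i)⁻¹ * g) x0).2
  generalize (rep ((gS i)⁻¹ * g) x0).1 = p at h0 h1 h2 h3
  obtain ⟨k, l⟩ := p
  simp only at h0 h1 h2 h3
  have key : leT i (if 0 < (strip k (act (shz k i) l)).1 then 31 else
      (strip k (act (shz k i) l)).2.headD 0) = true := by
    rcases h0.lt_or_eq with hk | hk
    · rw [if_pos (lt_of_lt_of_le hk (le_strip _ _))]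
      exact (C6_tab1 i hi).1
    · subst hk
      have h4 : shz 0 i = i := rfl
      rw [h4]
      cases l with
      | nil =>
        show leT i (if 0 < (strip 0 (if i = 0 then [] else [i])).1 then 31 else
          (strip 0 (if i = 0 then [] else [i])).2.headD 0) = true
        by_cases hi0 : i = 0
        · subst hi0
          decide +kernel
        · rw [if_neg hi0]
          by_cases hi1 : i = 31
          · subst hi1
            decide +kernel
          · have h5 : strip 0 [i] = (0, [i]) := by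
              show (if i = 31 then strip (0 + 1) [] else (0, [i])) = (0, [i])
              rw [if_neg hi1]
            rw [h5]
            show leT i (if (0 : ℤ) < 0 then 31 else i) = true
            rw [if_neg (lt_irrefl _)]
            exact (C6_tab1 i hi).2
      | cons x l =>
        show leT i (if 0 < (strip 0 (hd i x :: act (tl i x) l)).1 then 31 else
          (strip 0 (hd i x :: act (tl i x) l)).2.headD 0) = true
        have h5 := C6_tab2 i hi x h2.head.2
        have h6 : strip 0 (hd i x :: act (tl i x) l) =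
            if hd i x = 31 then strip (0 + 1) (act (tl i x) l) else
              (0, hd i x :: act (tl i x) l) := rfl
        rw [h6]
        by_cases h7 : hd i x = 31
        · rw [if_pos h7, if_pos]
          · exact (C6_tab1 i hi).1
          · have h8 := le_strip (0 + 1) (act (tl i x) l)
            omega
        · rw [if_neg h7]
          show leT i (if (0 : ℤ) < 0 then 31 else hd i x) = true
          rw [if_neg (lt_irrefl _)]
          exact h5
  rw [al, h1]
  exact key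

/-- `g = ev (rep g x0)` (`ev_rep_x0`) and `rep g x0 = (k, l)` with `k ≥ 0`.  If `k > 0` then
`g = gd * (...)` with a positive second factor, and `gS_inv_gd_mem`.  If `k = 0` and `l = x :: l'`
then `g = gS x * (...)`, and `gS x = gS i * gS (ld i x)` for `i ≤ x`.  If `l = []` then `i = 0`. -/
theorem mem_of_le_al {g : HA} (hg : g ∈ PP) {i : ℕ} (hi : i < 32)
    (h : leT i (al (rep g x0)) = true) : (gS i)⁻¹ * g ∈ PP := by
  have h0 := rep_nonneg hg
  have h1 := ev_rep_x0 g
  rw [ev] at h1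
  rw [al] at h
  obtain ⟨h2, h3⟩ := (rep g x0).2
  generalize (rep g x0).1 = p at h0 h1 h2 h3 h
  obtain ⟨k, l⟩ := p
  simp only at h0 h1 h2 h3 h
  rw [← h1]
  rcases h0.lt_or_eq with hk | hk
  · obtain ⟨n, rfl⟩ : ∃ n : ℕ, k = (n : ℤ) + 1 := ⟨(k - 1).toNat, by omega⟩
    have h4 : (gS i)⁻¹ * (gd ^ ((n : ℤ) + 1) * (l.map gS).prod) =
        (gS i)⁻¹ * gd * (gd ^ n * (l.map gS).prod) := by
      rw [add_comm, zpow_add, zpow_one, zpow_natCast]
      simp only [mul_assoc]
    rw [h4]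
    exact mul_mem (gS_inv_gd_mem hi) (mul_mem (pow_mem gd_mem n) (C6_prod_mem h2))
  · subst hk
    rw [if_neg (lt_irrefl _)] at h
    cases l with
    | nil =>
      have h4 := C6_tab3 i hi h
      subst h4
      have h5 : gS 0 = 1 := by simp [gS]
      rw [h5]
      simp
    | cons x l =>
      obtain ⟨h4, h5⟩ := C6_tab4 i hi x h2.head.2 h
      have h6 := mul_gS hi h4 (by rw [h5]; exact h2.head.2)
      rw [h5] at h6
      have h7 : (gS i)⁻¹ * (gd ^ (0 : ℤ) * ((x :: l).map gS).prod) =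
          gS (ld i x) * (l.map gS).prod := by
        rw [zpow_zero, one_mul, List.map_cons, List.prod_cons, ← h6]
        group
      rw [h7]
      exact mul_mem (gS_mem h4) (C6_prod_mem h2.tail)

theorem al_lt {g : HA} : al (rep g x0) < 32 := by
  rw [al]
  split_ifs with h
  · norm_num
  · obtain ⟨h2, h3⟩ := (rep g x0).2
    generalize (rep g x0).1.2 = l at h2 h3
    cases l with
    | nil => show (0 : ℕ) < 32; norm_num
    | cons x l => exact h2.head.2

end Pool.Agent.HT
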