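import Pool.Agent.HT.C6

/-!
# Project HT, piece HT-C7: joins and meets
-/

namespace Pool.Agent.HT

/-- the order of the Artin group: `g ≤ h` iff `g⁻¹ h` is positive -/
def Le (g h : HA) : Prop := g⁻¹ * h ∈ PP

theorem Le.refl (g : HA) : Le g g := by
  show g⁻¹ * g ∈ PP
  rw [inv_mul_cancel]
  exact PP.one_mem

theorem Le.trans {g h k : HA} (h1 : Le g h) (h2 : Le h k) : Le g k := by
  have h3 : g⁻¹ * h * (h⁻¹ * k) ∈ PP := PP.mul_mem h1 h2
  have e : g⁻¹ * h * (h⁻¹ * k) = g⁻¹ * k := by group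
  rw [e] at h3
  exact h3

/-- `ln` of `g⁻¹ h` and of `h⁻¹ g` are `≥ 0`, so both are `0`; `eq_one_of_ln` -/
theorem Le.antisymm {g h : HA} (h1 : Le g h) (h2 : Le h g) : g = h := by
  have h3 : 0 ≤ ln (g⁻¹ * h) := ln_nonneg h1
  have h4 : 0 ≤ ln (h⁻¹ * g) := ln_nonneg h2
  have h5 := ln_mul (g⁻¹ * h) (h⁻¹ * g)
  have e : g⁻¹ * h * (h⁻¹ * g) = 1 := by group
  have h6 := ln_mul 1 1
  rw [mul_one] at h6
  rw [e] at h5
  have h7 : g⁻¹ * h = 1 := eq_one_of_ln h1 (by omega)
  exact inv_mul_eq_one.1 h7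

theorem Le.mul {u g h : HA} : Le (u * g) (u * h) ↔ Le g h := by
  show (u * g)⁻¹ * (u * h) ∈ PP ↔ g⁻¹ * h ∈ PP
  have e : (u * g)⁻¹ * (u * h) = g⁻¹ * h := by group
  rw [e]

theorem one_Le {g : HA} : Le 1 g ↔ g ∈ PP := by
  show (1 : HA)⁻¹ * g ∈ PP ↔ g ∈ PP
  rw [inv_one, one_mul]

private theorem C7_jn_tab : ∀ i < 32, ∀ j < 32, jn i j < 32 ∧
    leT i (jn i j) = true ∧ leT j (jn i j) = true := by
  decide +kernel

private theorem C7_jn_tab2 : ∀ i < 32, ∀ j < 32, ∀ x < 32, leT i x = true → leT j x = true →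
    leT (jn i j) x = true := by
  decide +kernel

private theorem C7_ld_tab : ∀ i < 32, ∀ m < 32, leT i m = true → ld i m < 32 ∧
    tm i (ld i m) = m := by
  decide +kernel

/-- `gS i ≤ g` and `gS j ≤ g` give `gS (jn i j) ≤ g` (`le_al`, `mem_of_le_al` and the table of
joins; `g` is positive because `1 ≤ gS i ≤ g`). -/
theorem jn_Le {g : HA} {i j : ℕ} (hi : i < 32) (hj : j < 32) (h1 : Le (gS i) g)
    (h2 : Le (gS j) g) : Le (gS (jn i j)) g := by
  have hg : g ∈ PP := one_Le.1 (Le.trans (one_Le.2 (gS_mem hi)) h1)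
  have h3 := le_al hi h1
  have h4 := le_al hj h2
  have h5 := C7_jn_tab2 i hi j hj _ al_lt h3 h4
  exact mem_of_le_al hg (C7_jn_tab i hi j hj).1 h5

private theorem C7_gS_le {i m : ℕ} (hi : i < 32) (hm : m < 32) (h : leT i m = true) :
    gS i * gS (ld i m) = gS m := by
  obtain ⟨h1, h2⟩ := C7_ld_tab i hi m hm h
  have h3 := mul_gS hi h1 (by rw [h2]; exact hm)
  rw [h2] at h3
  exact h3

/-- the join of a positive element and a simple element.  Induction on `u ∈ PP`
(`Submonoid.closure_induction_left`): if `u = 1` take `v = gS i`.  If `u = gS k * u'` let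
`m = jn k i` and `i' = ld k m` (so `gS k * gS i' = gS m`, table), take `v'` for `u'` and `i'` and
`v = gS k * v'`.  For `x ≥ u, gS i` we have `x ≥ gS k`, so `x ≥ gS m` by `jn_Le`, hence
`(gS k)⁻¹ x ≥ u', gS i'`. -/
theorem join_simple {u : HA} (hu : u ∈ PP) {i : ℕ} (hi : i < 32) :
    ∃ v, Le u v ∧ Le (gS i) v ∧ ∀ x, Le u x → Le (gS i) x → Le v x := by
  revert i
  unfold PP at hu
  induction hu using Submonoid.closure_induction_left with
  | one =>
    intro i hi
    exact ⟨gS i, one_Le.2 (gS_mem hi), Le.refl _, fun x _ hx => hx⟩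
  | mul_left k hk u' hu' ih =>
    intro i hi
    obtain ⟨k, hk, rfl⟩ := hk
    obtain ⟨hm, hkm, him⟩ := C7_jn_tab k hk i hi
    have e := C7_gS_le hk hm hkm
    obtain ⟨hi', -⟩ := C7_ld_tab k hk _ hm hkm
    obtain ⟨v', hv1, hv2, hv3⟩ := ih hi'
    have him' : Le (gS i) (gS (jn k i)) := by
      have e2 := C7_gS_le hi hm him
      show (gS i)⁻¹ * gS (jn k i) ∈ PP
      rw [← e2, inv_mul_cancel_left]
      exact gS_mem (C7_ld_tab i hi _ hm him).1
    refine ⟨gS k * v', Le.mul.2 hv1, ?_, ?_⟩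
    · refine Le.trans him' ?_
      rw [← e]
      exact Le.mul.2 hv2
    · intro x hx1 hx2
      have hkx : Le (gS k) x := by
        refine Le.trans ?_ hx1
        show (gS k)⁻¹ * (gS k * u') ∈ PP
        rw [inv_mul_cancel_left]
        exact hu'
      have hmx : Le (gS (jn k i)) x := jn_Le hk hi hkx hx2
      have ex : gS k * ((gS k)⁻¹ * x) = x := mul_inv_cancel_left _ _
      have h1 : Le u' ((gS k)⁻¹ * x) := by
        rw [← Le.mul (u := gS k), ex]
        exact hx1
      have h2 : Le (gS (ld k (jn k i))) ((gS k)⁻¹ * x) := by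
        rw [← Le.mul (u := gS k), ex, e]
        exact hmx
      have h3 := hv3 _ h1 h2
      rw [← Le.mul (u := gS k), ex] at h3
      exact h3

/-- the join of two positive elements: induction on `v ∈ PP`.  If `v = gS i * v'` let `w` be the
join of `u` and `gS i` (`join_simple`), and `w'` the join of `(gS i)⁻¹ w` and `v'`; take
`gS i * w'`. -/
theorem join_pos {u v : HA} (hu : u ∈ PP) (hv : v ∈ PP) :
    ∃ w, Le u w ∧ Le v w ∧ ∀ x, Le u x → Le v x → Le w x := by
  revert u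
  unfold PP at hv
  induction hv using Submonoid.closure_induction_left with
  | one =>
    intro u hu
    exact ⟨u, Le.refl _, one_Le.2 hu, fun x hx _ => hx⟩
  | mul_left i hi v' hv' ih =>
    intro u hu
    obtain ⟨i, hi, rfl⟩ := hi
    obtain ⟨w, hw1, hw2, hw3⟩ := join_simple hu hi
    obtain ⟨w', hw1', hw2', hw3'⟩ := ih (u := (gS i)⁻¹ * w) hw2
    have ew : gS i * ((gS i)⁻¹ * w) = w := mul_inv_cancel_left _ _
    refine ⟨gS i * w', ?_, Le.mul.2 hw2', ?_⟩
    · refine Le.trans hw1 ?_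
      have h1 := (Le.mul (u := gS i)).2 hw1'
      rw [ew] at h1
      exact h1
    · intro x hx1 hx2
      have hix : Le (gS i) x := by
        refine Le.trans ?_ hx2
        show (gS i)⁻¹ * (gS i * v') ∈ PP
        rw [inv_mul_cancel_left]
        exact hv'
      have hwx : Le w x := hw3 x hx1 hix
      have ex : gS i * ((gS i)⁻¹ * x) = x := mul_inv_cancel_left _ _
      have h1 : Le ((gS i)⁻¹ * w) ((gS i)⁻¹ * x) := by
        rw [← Le.mul (u := gS i), ex, ew]
        exact hwx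
      have h2 : Le v' ((gS i)⁻¹ * x) := by
        rw [← Le.mul (u := gS i), ex]
        exact hx2
      have h3 := hw3' _ h1 h2
      rw [← Le.mul (u := gS i), ex] at h3
      exact h3

/-- multiply by `gd ^ n` on the left (`exists_zpow`) -/
theorem exists_join (g h : HA) :
    ∃ w, Le g w ∧ Le h w ∧ ∀ x, Le g x → Le h x → Le w x := by
  obtain ⟨n, hn, -⟩ := exists_zpow g
  obtain ⟨m, hm, -⟩ := exists_zpow h
  have h1 : gd ^ (m + n) * g ∈ PP := by
    rw [pow_add, mul_assoc]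
    exact mul_mem (pow_mem gd_mem m) hn
  have h2 : gd ^ (m + n) * h ∈ PP := by
    rw [add_comm, pow_add, mul_assoc]
    exact mul_mem (pow_mem gd_mem n) hm
  obtain ⟨w, hw1, hw2, hw3⟩ := join_pos h1 h2
  have e : gd ^ (m + n) * ((gd ^ (m + n))⁻¹ * w) = w := mul_inv_cancel_left _ _
  refine ⟨(gd ^ (m + n))⁻¹ * w, ?_, ?_, ?_⟩
  · rw [← Le.mul (u := gd ^ (m + n)), e]
    exact hw1
  · rw [← Le.mul (u := gd ^ (m + n)), e]
    exact hw2
  · intro x hx1 hx2
    rw [← Le.mul (u := gd ^ (m + n)), e]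
    exact hw3 _ (Le.mul.2 hx1) (Le.mul.2 hx2)

private theorem C7_ln_le {g h : HA} (hgh : Le g h) : ln g ≤ ln h := by
  have h1 := ln_nonneg hgh
  have h2 : ln (g * (g⁻¹ * h)) = ln g + ln (g⁻¹ * h) := ln_mul _ _
  rw [mul_inv_cancel_left] at h2
  omega

private theorem C7_eq_of_ln {g h : HA} (hgh : Le g h) (hl : ln h ≤ ln g) : g = h := by
  have h2 : ln (g * (g⁻¹ * h)) = ln g + ln (g⁻¹ * h) := ln_mul _ _
  rw [mul_inv_cancel_left] at h2
  have h1 := eq_one_of_ln hgh (by omega)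
  calc g = g * 1 := (mul_one g).symm
    _ = g * (g⁻¹ * h) := by rw [h1]
    _ = h := mul_inv_cancel_left _ _

/-- The common lower bounds of `g` and `h` are nonempty (`exists_zpow`: `gd ^ (-n)`), and their
length is at most `ln g` (`ln_nonneg`).  Take one, `w`, of the largest length.  For another one,
`x`, the join of `w` and `x` is a common lower bound too, and has length at least `ln w`, so it
is `w` (`eq_one_of_ln`); hence `x ≤ w`. -/
theorem exists_meet (g h : HA) :
    ∃ w, Le w g ∧ Le w h ∧ ∀ x, Le x g → Le x h → Le x w := by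
  have h0 : ∃ z, ∃ x, Le x g ∧ Le x h ∧ ln x = z := by
    obtain ⟨n, hn, -⟩ := exists_zpow g
    obtain ⟨m, hm, -⟩ := exists_zpow h
    refine ⟨_, (gd ^ (m + n))⁻¹, ?_, ?_, rfl⟩
    · show ((gd ^ (m + n))⁻¹)⁻¹ * g ∈ PP
      rw [inv_inv, pow_add, mul_assoc]
      exact mul_mem (pow_mem gd_mem m) hn
    · show ((gd ^ (m + n))⁻¹)⁻¹ * h ∈ PP
      rw [inv_inv, add_comm, pow_add, mul_assoc]
      exact mul_mem (pow_mem gd_mem n) hm
  have hb : ∃ b : ℤ, ∀ z : ℤ, (∃ x, Le x g ∧ Le x h ∧ ln x = z) → z ≤ b := by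
    refine ⟨ln g, ?_⟩
    rintro z ⟨x, hx1, -, rfl⟩
    exact C7_ln_le hx1
  obtain ⟨z, ⟨w, hw1, hw2, hw3⟩, hmax⟩ := Int.exists_greatest_of_bdd hb h0
  refine ⟨w, hw1, hw2, ?_⟩
  intro x hx1 hx2
  obtain ⟨v, hv1, hv2, hv3⟩ := exists_join w x
  have h1 := hmax (ln v) ⟨v, hv3 g hw1 hx1, hv3 h hw2 hx2, rfl⟩
  have h2 : w = v := C7_eq_of_ln hv1 (by omega)
  rw [h2]
  exact hv2

private theorem C7_al_gS {j : ℕ} (hj : j < 32) : al (rep (gS j) x0) = j := by
  rcases eq_or_ne j 0 with rfl | h0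
  · have h1 : gS 0 = 1 := by simp [gS]
    rw [h1, map_one]
    rfl
  rcases eq_or_ne j 31 with rfl | h1
  · have h2 := actX_last x0
    rw [rep_gS (by norm_num), al, h2]
    rfl
  · have h2 := rep_gS_x0 (i := j) (by omega) (by omega)
    rw [al, h2]
    rfl

private theorem C7_tab1 : ∀ x < 32, kt x < 32 ∧
    ∀ y < 32, mt (kt x) y = 0 → leT y (kt x) = true → y = 0 := by
  decide +kernel

private theorem C7_tab2 : ∀ x < 32, tm x (kt x) = 31 := by
  decide +kernel

/-- If `1 ≤ g ≤ gd` then `g` is simple: `rep g x0 = (k, l)`, `k ≥ 0`, `g = gd ^ k * ...`.  If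
`k ≥ 1` then `gd ≤ g`, so `g = gd`.  If `k = 0` and `l = x :: y :: l'` then `gS x * gS y ≤ g ≤ gd`,
so `gS y ≤ (gS x)⁻¹ gd = gS (kt x)`, so `leT y (kt x)` (`le_al` for `gS (kt x)` with `rep_gS_x0`),
which contradicts `mt (kt x) y = 0`, `y ≥ 1` (table). -/
theorem cover_gS {g : HA} (h1 : Le 1 g) (h2 : Le g gd) : ∃ i < 32, gS i = g := by
  have hg : g ∈ PP := one_Le.1 h1
  have h3 := rep_nonneg hg
  have h4 := ev_rep_x0 g
  rw [ev] at h4
  obtain ⟨h5, h6⟩ := (rep g x0).2
  generalize (rep g x0).1 = p at h3 h4 h5 h6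
  obtain ⟨k, l⟩ := p
  simp only at h3 h4 h5 h6
  have hmem : ∀ (l : List ℕ), Nf l → (l.map gS).prod ∈ PP := by
    intro l
    induction l with
    | nil => intro _; exact one_mem PP
    | cons x l ih =>
      intro hl
      rw [List.map_cons, List.prod_cons]
      exact mul_mem (gS_mem hl.head.2) (ih hl.tail)
  rcases h3.lt_or_eq with hk | hk
  · refine ⟨31, by norm_num, ?_⟩
    have h7 : Le gd g := by
      obtain ⟨n, rfl⟩ : ∃ n : ℕ, k = (n : ℤ) + 1 := ⟨(k - 1).toNat, by omega⟩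
      have h8 : gd⁻¹ * g = gd ^ n * (l.map gS).prod := by
        rw [← h4, add_comm, zpow_add, zpow_one, zpow_natCast]
        simp only [mul_assoc, inv_mul_cancel_left]
      show gd⁻¹ * g ∈ PP
      rw [h8]
      exact mul_mem (pow_mem gd_mem n) (hmem l h5)
    have h8 : gS 31 = gd := rfl
    rw [h8]
    exact Le.antisymm h7 h2
  · subst hk
    rw [zpow_zero, one_mul] at h4
    cases l with
    | nil =>
      refine ⟨0, by norm_num, ?_⟩
      rw [← h4]
      simp [gS]
    | cons x l =>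
      cases l with
      | nil =>
        refine ⟨x, h5.head.2, ?_⟩
        rw [← h4]
        simp
      | cons y l =>
        exfalso
        obtain ⟨hx1, hx2⟩ := h5.head
        obtain ⟨hy1, hy2⟩ := h5.tail.head
        have h7 : mt (kt x) y = 0 := h5.2.1
        obtain ⟨h8, h9⟩ := C7_tab1 x hx2
        have h10 : gS x * gS (kt x) = gd := by
          have := mul_gS hx2 h8 (by rw [C7_tab2 x hx2]; norm_num)
          rw [this, C7_tab2 x hx2]
          rfl
        have h11 : (gS y)⁻¹ * gS (kt x) ∈ PP := by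
          have e : (gS y)⁻¹ * gS (kt x) = (l.map gS).prod * (g⁻¹ * gd) := by
            rw [← h4, ← h10, List.map_cons, List.prod_cons, List.map_cons, List.prod_cons]
            group
          rw [e]
          exact mul_mem (hmem l h5.tail.tail) h2
        have h12 := le_al hy2 h11
        rw [C7_al_gS h8] at h12
        have h13 := h9 y hy2 h7 h12
        omega

/-- `al (rep (gS j) x0) = j` for `j < 32` -/
theorem gS_Le_iff {i j : ℕ} (hi : i < 32) (hj : j < 32) :
    Le (gS i) (gS j) ↔ leT i j = true := by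
  constructor
  · intro h
    have h1 := le_al hi h
    rwa [C7_al_gS hj] at h1
  · intro h
    exact mem_of_le_al (gS_mem hj) hi (by rw [C7_al_gS hj]; exact h)

end Pool.Agent.HT
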