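import Pool.Agent.HT.G6
import Pool.Agent.HT.Tab

/-!
# Project HT (MP_2ec7a7_al): frame of type H3

`H3F G` is a lattice ordered group as in `Gar` whose interval from `1` to `δ` is the table of
`Tab.lean` (the lattice of noncrossing partitions of type `H3`).  `pl g`, `ph g` are the indices
of `lo g`, `hi g`; for a homomorphism `φ` we use `fl φ i`, `fh φ i`, the indices of
`lo (φ (S i))`, `hi (φ (S i))`.
-/

namespace Pool.Agent.HT

/-- a frame of type `H3` -/
structure H3F (G : Type*) [Group G] [Lattice G] extends Gar G where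
  /-- the simple elements -/
  S : ℕ → G
  S_zero : S 0 = 1
  S_last : S 31 = δ
  le_iff : ∀ i < 32, ∀ j < 32, (S i ≤ S j ↔ leT i j = true)
  cover : ∀ g : G, 1 ≤ g → g ≤ δ → ∃ i < 32, S i = g
  mulS : ∀ i < 32, ∀ j < 32, tm i j < 32 → S i * S j = S (tm i j)
  lenS : ∀ i < 32, len (S i) = rk i

namespace H3F

variable {G : Type*} [Group G] [Lattice G] (H : H3F G)

open Classical in
/-- the index of a simple element -/
noncomputable def idx (g : G) : ℕ := if h : ∃ i < 32, H.S i = g then h.choose else 0

/-- the index of the smallest direction -/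
noncomputable def pl (g : G) : ℕ := H.idx (H.toGar.lo g)

/-- the index of the largest direction -/
noncomputable def ph (g : G) : ℕ := H.idx (H.toGar.hi g)

/-- the index of the smallest direction of `φ (S i)` -/
noncomputable def fl (φ : G →* G) (i : ℕ) : ℕ := H.pl (φ (H.S i))

/-- the index of the largest direction of `φ (S i)` -/
noncomputable def fh (φ : G →* G) (i : ℕ) : ℕ := H.ph (φ (H.S i))

/-- `φ` fixes `δ` and preserves the length -/
structure NH (φ : G →* G) : Prop where
  mapδ : φ H.δ = H.δ
  maplen : ∀ g, H.len (φ g) = H.len g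

end H3F

/-- the six relations between the directions of `X` and of `W = X Y` for `X Y Z = δ`, where
`nx, ny, nz` are `up - lw` of `X, Y, Z` and `N = 1 - lw X - lw Y - lw Z`; `xl xh` are the indices
of the directions of `X`, and `wl wh` those of `W` -/
def Cor (xl xh wl wh : ℕ) (N nx ny nz : ℤ) : Prop :=
  (leT wl xh = true ↔ ny < N) ∧ (leT xl wh = true ↔ N < nx + nz) ∧
  (N ≤ nz → leT xh wh = true) ∧ (nx + ny ≤ N → leT wl xl = true) ∧
  (ny + nz ≤ N → leT wh xh = true) ∧ (N ≤ nx → leT xl wl = true)

/-- `(l, h)` is the pair of indices of the directions of some element -/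
def Pr (l h : ℕ) : Prop := 1 ≤ l ∧ l ≤ 30 ∧ 1 ≤ h ∧ h ≤ 30 ∧ leT l h = true

end Pool.Agent.HT
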