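import Pool.Agent.HT.C7
import Pool.Agent.HT.H3F

/-!
# Project HT, piece HT-C8: the frame of type `H3` of the Artin group
-/

namespace Pool.Agent.HT

private theorem C8_rk : ∀ i < 32, 1 ≤ i → 1 ≤ rk i := by decide +kernel

private theorem C8_ne {i : ℕ} (h1 : 1 ≤ i) (hi : i < 32) : gS i ≠ 1 := by
  intro h
  have h2 := ln_gS hi
  have h3 : ln (1 : HA) = 0 := by
    have h4 := ln_mul (1 : HA) 1
    rw [mul_one] at h4
    omega
  rw [h, h3] at h2
  have h5 := C8_rk i hi h1
  omega

/-- the lattice structure of the Artin group -/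
noncomputable def C8_lat : Lattice HA where
  le := Le
  le_refl := Le.refl
  le_trans := fun _ _ _ => Le.trans
  le_antisymm := fun _ _ => Le.antisymm
  sup := fun g h => (exists_join g h).choose
  le_sup_left := fun g h => (exists_join g h).choose_spec.1
  le_sup_right := fun g h => (exists_join g h).choose_spec.2.1
  sup_le := fun g h k h1 h2 => (exists_join g h).choose_spec.2.2 k h1 h2
  inf := fun g h => (exists_meet g h).choose
  inf_le_left := fun g h => (exists_meet g h).choose_spec.1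
  inf_le_right := fun g h => (exists_meet g h).choose_spec.2.1
  le_inf := fun k g h h1 h2 => (exists_meet g h).choose_spec.2.2 k h1 h2

private theorem C8_lt {g h : HA} (h1 : Le g h) (h2 : g ≠ h) : C8_lat.lt g h := by
  letI := C8_lat
  have h3 : g ≤ h := h1
  exact lt_of_le_of_ne h3 h2

private theorem C8_le {g h : HA} (h1 : C8_lat.lt g h) : Le g h ∧ g ≠ h := by
  letI := C8_lat
  have h3 : g < h := h1
  exact ⟨h3.le, h3.ne⟩

/-- the lattice ordered group -/
noncomputable def C8_gar : @Gar HA _ C8_lat :=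
  letI := C8_lat
  { δ := gd
    len := ln
    mul_le := fun u g h h1 => Le.mul.2 h1
    mulδ_le := fun g h h1 => by
      show (g * gd)⁻¹ * (h * gd) ∈ PP
      have h2 := conj_mem (show g⁻¹ * h ∈ PP from h1)
      have e : (g * gd)⁻¹ * (h * gd) = gd⁻¹ * (g⁻¹ * h) * gd := by group
      rw [e]
      exact h2
    mulδi_le := fun g h h1 => by
      show (g * gd⁻¹)⁻¹ * (h * gd⁻¹) ∈ PP
      have h2 := conj_mem' (show g⁻¹ * h ∈ PP from h1)
      have e : (g * gd⁻¹)⁻¹ * (h * gd⁻¹) = gd * (g⁻¹ * h) * gd⁻¹ := by group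
      rw [e]
      exact h2
    len_mul := ln_mul
    len_lt := fun g h h1 => by
      obtain ⟨h2, h3⟩ := C8_le h1
      by_contra h4
      have h5 := ln_mul g (g⁻¹ * h)
      rw [mul_inv_cancel_left] at h5
      have h6 := eq_one_of_ln h2 (by omega)
      exact h3 (inv_mul_eq_one.1 h6)
    len_δ := ln_gd
    one_le_δ := by
      show (1 : HA)⁻¹ * gd ∈ PP
      rw [inv_one, one_mul]
      exact gd_mem
    arch := fun g => by
      obtain ⟨n, h1, h2⟩ := exists_zpow g
      refine ⟨n, ?_, ?_⟩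
      · show (gd ^ (-(n : ℤ)))⁻¹ * g ∈ PP
        rw [zpow_neg, inv_inv, zpow_natCast]
        exact h1
      · show g⁻¹ * gd ^ (n : ℤ) ∈ PP
        rw [zpow_natCast]
        exact h2
    pos := fun g h1 => by
      obtain ⟨h2, h3⟩ := C8_le h1
      have h4 : g ∈ PP := one_Le.1 h2
      obtain ⟨i, hi1, hi, h5⟩ := exists_first h4 (Ne.symm h3)
      have h6 : gS i ≤ g := h5
      have h7 : gS i ≤ gd := gS_inv_gd_mem hi
      have h8 : (1 : HA) < gS i := C8_lt (one_Le.2 (gS_mem hi)) (Ne.symm (C8_ne hi1 hi))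
      exact lt_of_lt_of_le h8 (le_inf h6 h7)
    neg := fun g h1 => by
      obtain ⟨h2, h3⟩ := C8_le h1
      have h4 : g⁻¹ ∈ PP := by
        have h5 : g⁻¹ * 1 ∈ PP := h2
        rwa [mul_one] at h5
      obtain ⟨i, hi1, hi, h5⟩ := exists_last h4 (by
        intro h6
        exact h3 (inv_eq_one.1 h6))
      have h6 : g ≤ (gS i)⁻¹ := h5
      have h7 : gd⁻¹ ≤ (gS i)⁻¹ := by
        show (gd⁻¹)⁻¹ * (gS i)⁻¹ ∈ PP
        rw [inv_inv]
        exact gd_gS_inv_mem hi
      have h8 : (gS i)⁻¹ < (1 : HA) := by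
        refine C8_lt ?_ (fun h9 => C8_ne hi1 hi (inv_eq_one.1 h9))
        show ((gS i)⁻¹)⁻¹ * 1 ∈ PP
        rw [inv_inv, mul_one]
        exact gS_mem hi
      exact lt_of_le_of_lt (sup_le h6 h7) h8 }

/-- Take for `L` the lattice with `≤` equal to `Le`, `⊔` and `⊓` chosen by `exists_join`,
`exists_meet`.  The fields: `mulδ_le`, `mulδi_le` from `conj_mem`, `conj_mem'`; `len_lt` from
`ln_nonneg`, `eq_one_of_ln`; `arch` from `exists_zpow` (take the larger of two exponents; a power
`gd ^ n` is positive); `pos`: `exists_first`; `neg`: if `g < 1` then `g⁻¹` is positive, `≠ 1`,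
`g⁻¹ = g' * gS i` (`exists_last`), and `y = (gS i)⁻¹ < 1` satisfies `g ≤ y`, `gd⁻¹ ≤ y`
(`gd_gS_inv_mem`). -/
theorem exists_frame : ∃ (L : Lattice HA) (H : @H3F HA _ L),
    H.δ = gd ∧ (∀ i, H.S i = gS i) ∧ ∀ g, H.len g = ln g := by
  refine ⟨C8_lat, ?_⟩
  letI := C8_lat
  refine ⟨{ C8_gar with
    S := gS
    S_zero := by simp [gS]
    S_last := rfl
    le_iff := fun i hi j hj => gS_Le_iff hi hj
    cover := fun g h1 h2 => cover_gS h1 h2
    mulS := fun i hi j hj h => mul_gS hi hj h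
    lenS := fun i hi => ln_gS hi }, rfl, fun _ => rfl, fun _ => rfl⟩

end Pool.Agent.HT
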