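import Pool.Agent.HT.Tab

/-!
# Project HT (MP_2ec7a7_al): the finite check (definitions)

`P80` is the list of the 80 pairs `(l, h)` of indices of proper simple elements with `l ≤ h`.
The Boolean functions `chk1` to `chk5` collect the relations between the direction pairs
`B, W, A, V, C, U` of the images of `b_0, [b_4*], a_0, [a_1*], c_0, [c_1*]` which are forced by
the corners of the triangles `b_0 b_2 b_4 = a_0 b_0 b_4 = c_0 a_0 b_4 = a_4 c_0 b_4 = δ`.
-/

namespace Pool.Agent.HT

/-- the 80 pairs -/
def P80 : List (ℕ × ℕ) :=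
  [(1, 1), (1, 21), (1, 25), (1, 27), (2, 2), (2, 21), (2, 22), (2, 28), (3, 3), (3, 22), (3, 23),
  (3, 29), (4, 4), (4, 23), (4, 24), (4, 30), (5, 5), (5, 24), (5, 25), (5, 26), (6, 6), (6, 17),
  (6, 18), (6, 23), (6, 25), (6, 28), (7, 7), (7, 18), (7, 19), (7, 21), (7, 24), (7, 29), (8,
  8), (8, 19), (8, 20), (8, 22), (8, 25), (8, 30), (9, 9), (9, 16), (9, 20), (9, 21), (9, 23),
  (9, 26), (10, 10), (10, 16), (10, 17), (10, 22), (10, 24), (10, 27), (11, 11), (11, 16), (11,
  25), (12, 12), (12, 17), (12, 21), (13, 13), (13, 18), (13, 22), (14, 14), (14, 19), (14, 23),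
  (15, 15), (15, 20), (15, 24), (16, 16), (17, 17), (18, 18), (19, 19), (20, 20), (21, 21), (22,
  22), (23, 23), (24, 24), (25, 25), (26, 26), (27, 27), (28, 28), (29, 29), (30, 30)]

/-- shift of a pair -/
def shp (k : ℕ) (x : ℕ × ℕ) : ℕ × ℕ := (sh k x.1, sh k x.2)

/-- `lo x ≤ hi y` -/
def lh (x y : ℕ × ℕ) : Bool := leT x.1 y.2

/-- the four implications of a corner `(x, w)` of a triangle `x y z = δ`, `w = x y`:
`gx, gz` say that `N` is larger than `nx`, `nz`; `sxy, syz` that it is smaller than `nx + ny`,
`ny + nz` -/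
def imp4 (x w : ℕ × ℕ) (gx gz sxy syz : Bool) : Bool :=
  (gz || leT x.2 w.2) && (sxy || leT w.1 x.1) && (syz || leT w.2 x.2) && (gx || leT x.1 w.1)

/-- the pair is a single atom -/
def sa (x : ℕ × ℕ) : Bool := x.1 == x.2 && Nat.ble x.1 15
/-- the pair is a single coatom -/
def sc (x : ℕ × ℕ) : Bool := x.1 == x.2 && Nat.ble 16 x.1

/-- first stage -/
def chk1 (B W : ℕ × ℕ) : Bool :=
  (lh W B || lh B W) && imp4 B W (lh W B) (lh W B) (lh B W) (lh B W) &&
  (lh W B || (sa B && sc W)) && (lh B W || (sc B && sa W))

/-- second stage -/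
def chk2 (B W A : ℕ × ℕ) : Bool :=
  imp4 A W (lh (shp 2 W) (shp 4 B)) (lh W A) (lh A W) (lh (shp 4 B) (shp 2 W)) &&
  imp4 (shp 4 B) (shp 2 W) (lh W A) (lh W A) (lh A W) (lh A W)

/-- third stage -/
def chk3 (B W A V : ℕ × ℕ) : Bool :=
  (lh V B == lh W A) && (lh B V == lh A W) &&
  imp4 B V (lh W A) (lh (shp 2 W) (shp 4 B)) (lh (shp 4 B) (shp 2 W)) (lh A W) &&
  (lh W (shp 4 A) == lh V (shp 4 B)) && (lh (shp 4 A) W == lh (shp 4 B) V)

/-- fourth stage -/
def chk4 (B W A V C : ℕ × ℕ) : Bool :=
  imp4 C W (lh V (shp 4 B)) (lh (shp 4 V) C) (lh C (shp 4 V)) (lh (shp 4 B) V) &&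
  imp4 C (shp 4 V) (lh V (shp 4 B)) (lh W C) (lh C W) (lh (shp 4 B) V) &&
  imp4 (shp 4 B) V (lh (shp 4 V) C) (lh W C) (lh C W) (lh C (shp 4 V)) &&
  imp4 (shp 4 A) W (lh W C) (lh (shp 4 V) C) (lh C (shp 4 V)) (lh C W)

/-- fifth stage -/
def chk5 (B W A V C U : ℕ × ℕ) : Bool :=
  (lh U A == lh (shp 4 V) C) && (lh A U == lh C (shp 4 V)) &&
  imp4 A U (lh W C) (lh V (shp 4 B)) (lh (shp 4 B) V) (lh C W) &&
  (lh U (shp 4 B) == lh W C) && (lh (shp 4 B) U == lh C W) &&
  imp4 (shp 4 B) U (lh (shp 4 V) C) (lh V (shp 4 B)) (lh (shp 4 B) V) (lh C (shp 4 V))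

/-- the twelve bits of a solution: `N > n_b`, `N < 2 n_b` for the triangle of the `b`'s;
`N > n_a`, `N > n_b`, `N < n_a + n_b`, `N < 2 n_b` for the triangle `a b b`; and
`N > n_a`, `N > n_b`, `N > n_c`, `N < n_a + n_b`, `N < n_b + n_c`, `N < n_a + n_c` for the
triangles `a b c` -/
def bits (B W A V C : ℕ × ℕ) : List Bool :=
  [lh W B, lh B W, lh (shp 2 W) (shp 4 B), lh W A, lh A W, lh (shp 4 B) (shp 2 W),
   lh W C, lh (shp 4 V) C, lh V (shp 4 B), lh (shp 4 B) V, lh C W, lh C (shp 4 V)]

/-- the bits of the identity -/
def patI : List Bool :=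
  [false, true, false, false, true, true, false, false, false, true, true, true]
/-- the bits of the duality -/
def patD : List Bool :=
  [true, false, true, true, false, false, true, true, true, false, false, false]
/-- the bits of the exceptional solutions 1 and 2 -/
def patE : List (List Bool) :=
  [[false, true, false, true, true, false, true, true, false, false, true, true],
   [false, true, false, true, true, false, true, true, false, true, true, true]]
/-- the bits of the exceptional solutions 3 and 4 -/
def patF : List (List Bool) :=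
  [[true, false, false, true, true, false, true, true, false, false, true, true],
   [true, false, false, true, true, false, true, true, true, false, true, true]]
/-- the remaining bits; they contradict the inequalities -/
def patX : List (List Bool) :=
  [[false, true, false, false, true, true, false, true, false, true, true, true],
   [false, true, false, false, true, true, true, false, false, true, true, true],
   [false, true, false, true, true, false, false, true, false, true, true, true],
   [true, false, false, true, true, false, true, true, true, false, false, true],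
   [true, false, true, true, false, false, true, true, true, false, false, true],
   [true, false, true, true, false, false, true, true, true, false, true, false]]

/-- the pairs are shifts of the given single pairs -/
def isSh (b w a v c u : ℕ) (B W A V C U : ℕ × ℕ) : Bool :=
  (List.range 5).any fun k => B == shp k (b, b) && W == shp k (w, w) && A == shp k (a, a) &&
    V == shp k (v, v) && C == shp k (c, c) && U == shp k (u, u)

/-- the first four pairs are shifts of the given single pairs -/
def isSh4 (b w a v : ℕ) (B W A V : ℕ × ℕ) : Bool :=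
  (List.range 5).any fun k => B == shp k (b, b) && W == shp k (w, w) && A == shp k (a, a) &&
    V == shp k (v, v)

/-- conclusion of the finite check -/
def concl (B W A V C U : ℕ × ℕ) : Bool :=
  (bits B W A V C == patI && isSh 6 25 1 17 11 27 B W A V C U) ||
  (bits B W A V C == patD && isSh 25 8 20 5 30 15 B W A V C U) ||
  (patE.contains (bits B W A V C) &&
    (!(sc A && sa V) || isSh4 1 25 25 1 B W A V || isSh4 6 17 17 6 B W A V)) ||
  (patF.contains (bits B W A V C) &&
    (!(sa A && sc V) || isSh4 25 5 5 25 B W A V || isSh4 17 10 10 17 B W A V)) ||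
  patX.contains (bits B W A V C)

/-- the finite check for the first pairs `B` in the list `Bs` -/
def run (Bs : List (ℕ × ℕ)) : Bool :=
  Bs.all fun B => P80.all fun W => !chk1 B W || P80.all fun A => !chk2 B W A ||
    P80.all fun V => !chk3 B W A V || P80.all fun C => !chk4 B W A V C || P80.all fun U =>
      !chk5 B W A V C U || concl B W A V C U

end Pool.Agent.HT
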