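import Pool.Agent.HT.F6

/-!
# Project HT, piece HT-F7: automorphisms which fix `δ` are conjugations by powers of `δ`
-/

namespace Pool.Agent.HT

namespace H3F

variable {G : Type*} [Group G] [Lattice G] (H : H3F G)

private theorem F7_rk1 : ∀ i < 32, rk i = 1 → i ≤ 15 := by decide +kernel

private theorem F7_leI : ∀ k < 5, ∀ i < 32, ∀ j < 32, leT (sh k i) (sh k j) = leT i j := by
  decide +kernel

private theorem F7_leD : ∀ k < 5, ∀ i < 31, ∀ j < 31, 1 ≤ i → 1 ≤ j →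
    leT (sh k (du i)) (sh k (du j)) = leT j i := by
  decide +kernel

private theorem F7_du : ∀ i < 31, du i < 32 := by decide +kernel

private theorem F7_ex {s : G} (h1 : 1 < s) (h2 : s < H.δ) :
    ∃ i, 1 ≤ i ∧ i ≤ 30 ∧ H.S i = s := by
  obtain ⟨i, hi, rfl⟩ := H.cover s h1.le h2.le
  refine ⟨i, ?_, ?_, rfl⟩
  · by_contra h
    have : i = 0 := by omega
    subst this
    rw [H.S_zero] at h1
    exact lt_irrefl _ h1
  · by_contra h
    have : i = 31 := by omega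
    subst this
    rw [H.S_last] at h2
    exact lt_irrefl _ h2

/-- the hypothesis of `lift_nn` for the two types; for `1 < s < δ` we have `s = S i` with
`1 ≤ i ≤ 30`, `hi (φ (S i)) = S (fh φ i)` (`S_ph`), and `leT (sh k i) (sh k j) = leT i j`,
`leT (sh k (du i)) (sh k (du j)) = leT j i` for `1 ≤ i, j ≤ 30`, `k < 5` (`decide +kernel`); if
`len (S i) = 1` then `i ≤ 15`. -/
theorem lift_hyp {φ : G →* G} {k : ℕ} (hφ : H.NH φ) (hk : k < 5) (ht : H.TyI φ k ∨ H.TyD φ k) :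
    ((∀ s, 1 < s → s < H.δ → H.len s = 1 → H.At (φ s)) ∧
        (∀ s t, 1 < s → s < H.δ → 1 < t → t < H.δ → H.hi (φ s) ≤ H.hi (φ t) → s ≤ t)) ∨
      ((∀ s, 1 < s → s < H.δ → H.len s = 1 → H.Co (φ s)) ∧
        (∀ s t, 1 < s → s < H.δ → 1 < t → t < H.δ → H.hi (φ s) ≤ H.hi (φ t) → t ≤ s)) := by
  have key : ∀ i, 1 ≤ i → i ≤ 30 → H.hi (φ (H.S i)) = H.S (H.fh φ i) := fun i h1 h2 =>
    (H.S_ph (H.nonpow hφ h1 h2)).symm
  have rk1 : ∀ i, i ≤ 30 → H.len (H.S i) = 1 → i ≤ 15 := by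
    intro i h1 h2
    rw [H.lenS i (by omega)] at h2
    exact F7_rk1 i (by omega) (by exact_mod_cast h2)
  rcases ht with ht | ht
  · left
    refine ⟨fun s h1 h2 h3 => ?_, fun s t h1 h2 h3 h4 h5 => ?_⟩
    · obtain ⟨i, hi1, hi2, rfl⟩ := H.F7_ex h1 h2
      exact ht.2 i hi1 (rk1 i hi2 h3)
    · obtain ⟨i, hi1, hi2, rfl⟩ := H.F7_ex h1 h2
      obtain ⟨j, hj1, hj2, rfl⟩ := H.F7_ex h3 h4
      rw [key i hi1 hi2, key j hj1 hj2, (ht.1 i hi1 hi2).2, (ht.1 j hj1 hj2).2,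
        H.le_iff _ (sh_lt (by omega)) _ (sh_lt (by omega)),
        F7_leI k hk i (by omega) j (by omega)] at h5
      exact (H.le_iff i (by omega) j (by omega)).2 h5
  · right
    refine ⟨fun s h1 h2 h3 => ?_, fun s t h1 h2 h3 h4 h5 => ?_⟩
    · obtain ⟨i, hi1, hi2, rfl⟩ := H.F7_ex h1 h2
      exact ht.2 i hi1 (rk1 i hi2 h3)
    · obtain ⟨i, hi1, hi2, rfl⟩ := H.F7_ex h1 h2
      obtain ⟨j, hj1, hj2, rfl⟩ := H.F7_ex h3 h4
      rw [key i hi1 hi2, key j hj1 hj2, (ht.1 i hi1 hi2).2, (ht.1 j hj1 hj2).2,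
        H.le_iff _ (sh_lt (F7_du i (by omega))) _ (sh_lt (F7_du j (by omega))),
        F7_leD k hk i (by omega) j (by omega) hi1 hj1] at h5
      exact (H.le_iff j (by omega) i (by omega)).2 h5

/-- Let `h = ψ (S 6)`; it has `At` or `Co` (`types` for `ψ`), and by `lift_nn` for `φ`
`up h - lw h ≤ up (φ h) - lw (φ h) = up (S 6) - lw (S 6) = 1`.  Since `len h = 1` is not a multiple
of `3`, `up h - lw h = 1`.  If `h` has `Co` then `2 up h + lw h = 1` and `3 lw h + 2 = 1`,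
impossible; so `ψ` is of the first type, `2 lw h + up h = 1` gives `lw h = 0`, `up h = 1`, so
`1 ≤ h ≤ δ`, `h = hi h = S (fh ψ 6) = S (sh k 6) = δ^(-k) S 6 δ^k`. -/
theorem inv_S6 {φ ψ : G →* G} (hφ : H.NH φ) (hψ : H.NH ψ) (hi : φ (ψ (H.S 6)) = H.S 6) :
    ∃ k : ℕ, ψ (H.S 6) = H.δ ^ (-(k : ℤ)) * H.S 6 * H.δ ^ (k : ℤ) := by
  obtain ⟨k, hk, ht⟩ := H.types hψ
  obtain ⟨k', hk', ht'⟩ := H.types hφ
  have hac : H.At (ψ (H.S 6)) ∨ H.Co (ψ (H.S 6)) := by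
    rcases ht with ht | ht
    · exact Or.inl (ht.2 6 (by norm_num) (by norm_num))
    · exact Or.inr (ht.2 6 (by norm_num) (by norm_num))
  have h1 := H.toGar.lift_nn φ hφ.mapδ hφ.maplen (H.lift_hyp hφ hk' ht') (ψ (H.S 6)) hac
  have hS1 : 1 < H.S 6 := H.one_lt_S (by norm_num) (by norm_num)
  have hS2 : H.S 6 < H.δ := H.S_lt_δ (by norm_num)
  rw [hi, H.toGar.lw_simple _ hS1 hS2, H.toGar.up_simple _ hS1 hS2] at h1
  have h2 : H.lw (ψ (H.S 6)) < H.up (ψ (H.S 6)) := H.nonpow hψ (by norm_num) (by norm_num)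
  have h3 : H.len (ψ (H.S 6)) = 1 := by
    rw [hψ.maplen, H.lenS 6 (by norm_num)]
    have : rk 6 = 1 := by decide +kernel
    rw [this]
    rfl
  rcases ht with ht | ht
  · have h4 : 2 * H.lw (ψ (H.S 6)) + H.up (ψ (H.S 6)) = H.len (ψ (H.S 6)) :=
      ht.2 6 (by norm_num) (by norm_num)
    have h5 : H.lw (ψ (H.S 6)) = 0 := by omega
    have h6 : H.up (ψ (H.S 6)) = 1 := by omega
    have h7 : ψ (H.S 6) ≤ H.δ := by
      have := H.toGar.le_zpow_up (ψ (H.S 6))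
      rwa [h6, zpow_one] at this
    have h8 : H.hi (ψ (H.S 6)) = ψ (H.S 6) := by
      have : H.hi (ψ (H.S 6)) = ψ (H.S 6) * H.δ ^ (-H.lw (ψ (H.S 6))) ⊓ H.δ := rfl
      rw [this, h5, neg_zero, zpow_zero, mul_one]
      exact inf_eq_left.2 h7
    refine ⟨k, ?_⟩
    rw [← H.S_sh (show 6 < 32 by norm_num), ← (ht.1 6 (by norm_num) (by norm_num)).2, ← h8]
    have h9 : H.S (H.fh ψ 6) = H.hi (ψ (H.S 6)) := H.S_ph h2
    rw [h9, h8]
  · exfalso
    have h4 : 2 * H.up (ψ (H.S 6)) + H.lw (ψ (H.S 6)) = H.len (ψ (H.S 6)) :=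
      ht.2 6 (by norm_num) (by norm_num)
    omega

end H3F

end Pool.Agent.HT
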