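import Pool.Agent.HT.F1

/-!
# Project HT, piece HT-F8: the centralizer of `δ` and roots of `δ ^ 5`
-/

namespace Pool.Agent.HT

namespace H3F

variable {G : Type*} [Group G] [Lattice G] (H : H3F G)

private theorem F8_tau : ∀ i < 31, 1 ≤ i → tau i ≠ i := by
  decide +kernel

private theorem F8_sh5 : ∀ i < 32, sh 5 i = i := by
  decide +kernel

private theorem F8_sh6 : ∀ r < 5, sh r 6 = 6 → r = 0 := by
  decide +kernel

/-- If `g` is not a power of `δ` (`eq_zpow_of_up_le`), then `g = δ⁻¹ g δ` gives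
`hi g = δ⁻¹ (hi g) δ` (`hi_zpow_mul`, `hi_mul_zpow`), so the index `i = ph g`, `1 ≤ i ≤ 30`,
satisfies `tau i = i` (`S_tau`, `S_inj`), but `tau` has no fixed index in `1..30`
(`decide +kernel`). -/
theorem centralizer_δ {g : G} (hg : g * H.δ = H.δ * g) : ∃ k : ℤ, g = H.δ ^ k := by
  by_cases h : H.up g ≤ H.lw g
  · exact ⟨_, H.toGar.eq_zpow_of_up_le g h⟩
  · exfalso
    have h1 : H.lw g < H.up g := not_le.mp h
    have e1 : H.δ ^ (-1 : ℤ) * (g * H.δ ^ (1 : ℤ)) = g := by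
      rw [zpow_one, zpow_neg_one, hg, inv_mul_cancel_left]
    have e2 : H.hi g = H.δ ^ (-1 : ℤ) * H.hi g * H.δ ^ (1 : ℤ) := by
      have e3 := H.toGar.hi_zpow_mul (g * H.δ ^ (1 : ℤ)) (-1)
      rw [e1, H.toGar.hi_mul_zpow, neg_neg] at e3
      exact e3
    obtain ⟨-, -, h4, h5, -⟩ := H.pr_pl_ph h1
    have h6 : H.S (tau (H.ph g)) = H.S (H.ph g) := by
      rw [H.S_tau (by omega), H.S_ph h1]
      rw [zpow_one, zpow_neg_one] at e2
      exact e2.symm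
    have h7 : tau (H.ph g) < 32 := sh_lt (k := 1) (i := H.ph g) (by omega)
    exact F8_tau _ (by omega) h4 (H.S_inj h7 (by omega) h6)

/-- `δ ^ 5` commutes with every `S i` (`S_tau` five times, `sh 5 i = i`). -/
theorem S_comm_δ5 {i : ℕ} (hi : i < 32) : H.S i * H.δ ^ 5 = H.δ ^ 5 * H.S i := by
  have h1 := H.S_sh (k := 5) hi
  rw [F8_sh5 i hi, zpow_neg, Nat.cast_ofNat] at h1
  have h2 : H.δ ^ 5 * H.S i = H.δ ^ 5 * ((H.δ ^ (5 : ℤ))⁻¹ * H.S i * H.δ ^ (5 : ℤ)) := by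
    rw [← h1]
  have h3 : H.δ ^ (5 : ℤ) = H.δ ^ 5 := by
    exact zpow_natCast H.δ 5
  rw [h2, h3, mul_assoc, mul_inv_cancel_left]

/-- `δ ^ k` commutes with `S 6` only if `5 ∣ k`: write `k = 5 m + r` with `0 ≤ r < 5`; `δ ^ 5`
commutes with `S 6`, so `δ ^ r` does, `S (sh r 6) = S 6`, `sh r 6 = 6`, `r = 0`. -/
theorem dvd_of_comm {k : ℤ} (hk : H.S 6 * H.δ ^ k = H.δ ^ k * H.S 6) : (5 : ℤ) ∣ k := by
  have h5 : Commute (H.S 6) (H.δ ^ 5) := H.S_comm_δ5 (by norm_num)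
  have h6 : Commute (H.S 6) (H.δ ^ k) := hk
  obtain ⟨r, hr⟩ : ∃ r : ℕ, (r : ℤ) = k % 5 :=
    ⟨(k % 5).toNat, Int.toNat_of_nonneg (Int.emod_nonneg k (by norm_num))⟩
  have hr5 : r < 5 := by
    have := Int.emod_lt_of_pos k (by norm_num : (0 : ℤ) < 5)
    omega
  have h7 : Commute (H.S 6) (H.δ ^ (r : ℤ)) := by
    have e : H.δ ^ (r : ℤ) = H.δ ^ k * ((H.δ ^ 5) ^ (k / 5))⁻¹ := by
      have e1 : (H.δ ^ 5) ^ (k / 5) = H.δ ^ (5 * (k / 5)) := by
        rw [zpow_mul]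
        congr 1
        exact (zpow_natCast H.δ 5).symm
      rw [e1, ← zpow_neg, ← zpow_add, hr]
      congr 1
      have := Int.emod_add_mul_ediv k 5
      omega
    rw [e]
    exact h6.mul_right (h5.zpow_right (k / 5)).inv_right
  have h8 : H.S (sh r 6) = H.S 6 := by
    rw [H.S_sh (by norm_num), mul_assoc, h7.eq, ← mul_assoc, ← zpow_add, neg_add_cancel, zpow_zero,
      one_mul]
  have h9 : sh r 6 = 6 := H.S_inj (sh_lt (by norm_num)) (by norm_num) h8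
  have h10 := F8_sh6 r hr5 h9
  rw [h10] at hr
  exact Int.dvd_of_emod_eq_zero hr.symm

/-- Let `m = 1 ⊔ y δ⁻¹ ⊔ y² δ⁻² ⊔ y³ δ⁻³ ⊔ y⁴ δ⁻⁴`.  Left multiplication by `y` and right
multiplication by `δ⁻¹` preserve joins (`mul_sup`, `sup_mul_zpow`), and `y⁵ δ⁻⁵ = 1`, so
`y m δ⁻¹ = m`. -/
theorem root_conj {y : G} (hy : y ^ 5 = H.δ ^ 5) : ∃ m : G, y * m = m * H.δ := by
  obtain ⟨t, ht⟩ : ∃ t : ℕ → G, ∀ k, t k = y ^ k * H.δ ^ (-(k : ℤ)) := ⟨_, fun _ => rfl⟩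
  have h0 : ∀ k, y * t k * H.δ ^ (-1 : ℤ) = t (k + 1) := by
    intro k
    rw [ht, ht, pow_succ', Nat.cast_add, Nat.cast_one, neg_add, zpow_add]
    simp only [mul_assoc]
  have h5 : t 5 = t 0 := by
    rw [ht, ht, hy, pow_zero, Nat.cast_zero, neg_zero, zpow_zero, mul_one, ← zpow_natCast,
      ← zpow_add, add_neg_cancel, zpow_zero]
  have h1 : y * (t 0 ⊔ t 1 ⊔ t 2 ⊔ t 3 ⊔ t 4) * H.δ ^ (-1 : ℤ) =
      t 0 ⊔ t 1 ⊔ t 2 ⊔ t 3 ⊔ t 4 := by
    simp only [H.toGar.mul_sup, H.toGar.sup_mul_zpow, h0]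
    rw [h5]
    apply le_antisymm
    · refine sup_le (sup_le (sup_le (sup_le ?_ ?_) ?_) ?_) ?_
      · exact (le_sup_right.trans le_sup_left).trans (le_sup_left.trans le_sup_left)
      · exact (le_sup_right.trans le_sup_left).trans le_sup_left
      · exact le_sup_right.trans le_sup_left
      · exact le_sup_right
      · exact ((le_sup_left.trans le_sup_left).trans le_sup_left).trans le_sup_left
    · refine sup_le (sup_le (sup_le (sup_le ?_ ?_) ?_) ?_) ?_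
      · exact le_sup_right
      · exact ((le_sup_left.trans le_sup_left).trans le_sup_left).trans le_sup_left
      · exact ((le_sup_right.trans le_sup_left).trans le_sup_left).trans le_sup_left
      · exact (le_sup_right.trans le_sup_left).trans le_sup_left
      · exact le_sup_right.trans le_sup_left
  refine ⟨t 0 ⊔ t 1 ⊔ t 2 ⊔ t 3 ⊔ t 4, ?_⟩
  conv_rhs => rw [← h1]
  rw [zpow_neg_one, inv_mul_cancel_right]

end H3F

end Pool.Agent.HT
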