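import Pool.Agent.HT.C8
import Pool.Agent.HT.F7
import Pool.Agent.HT.F8

/-!
# Project HT, piece HT-D1: the center and the automorphisms which fix `δ`
-/

namespace Pool.Agent.HT

/-- `exists_lift` for `ga⁻¹, gb⁻¹, gc⁻¹`, composed with itself the identity (`hom_ext3`) -/
theorem exists_eps : ∃ ε : MulAut HA, ε ga = ga⁻¹ ∧ ε gb = gb⁻¹ ∧ ε gc = gc⁻¹ ∧ ε * ε = 1 := by
  have h1 : ga⁻¹ * gc⁻¹ = gc⁻¹ * ga⁻¹ := by
    rw [← mul_inv_rev, ← mul_inv_rev, ga_gc]
  have h2 : gb⁻¹ * gc⁻¹ * gb⁻¹ = gc⁻¹ * gb⁻¹ * gc⁻¹ := by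
    have h := congrArg (fun g : HA => g⁻¹) gb_gc
    simpa [mul_assoc] using h
  have h3 : ga⁻¹ * gb⁻¹ * ga⁻¹ * gb⁻¹ * ga⁻¹ = gb⁻¹ * ga⁻¹ * gb⁻¹ * ga⁻¹ * gb⁻¹ := by
    have h := congrArg (fun g : HA => g⁻¹) ga_gb
    simpa [mul_assoc] using h
  obtain ⟨f, fa, fb, fc⟩ := exists_lift (K := HA) ga⁻¹ gb⁻¹ gc⁻¹ h1 h2 h3
  have hff : f.comp f = MonoidHom.id HA := by
    apply hom_ext3
    · simp [fa]
    · simp [fb]
    · simp [fc]
  refine ⟨MonoidHom.toMulEquiv f f hff hff, fa, fb, fc, ?_⟩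
  ext g
  exact DFunLike.congr_fun hff g

/-- `ε gd = (gc gb ga)⁻¹` and `gc gb ga = w gd w⁻¹` with `w = ga⁻¹ gc` (`ga_gc`), and `gd ^ 5` is
central -/
theorem eps_gd5 {ε : MulAut HA} (ha : ε ga = ga⁻¹) (hb : ε gb = gb⁻¹) (hc : ε gc = gc⁻¹) :
    ε (gd ^ 5) = (gd ^ 5)⁻¹ := by
  have h1 : ε gd = ((ga⁻¹ * gc) * gd * (ga⁻¹ * gc)⁻¹)⁻¹ := by
    have h2 : (ga⁻¹ * gc) * gd * (ga⁻¹ * gc)⁻¹ = gc * gb * ga := by
      have h3 : ga⁻¹ * gc = gc * ga⁻¹ := by
        rw [inv_mul_eq_iff_eq_mul, ← mul_assoc, ga_gc, mul_inv_cancel_right]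
      have h5 : gc * ga * gc⁻¹ = ga := by rw [← ga_gc, mul_inv_cancel_right]
      rw [h3]
      unfold gd
      calc gc * ga⁻¹ * (ga * gb * gc) * (gc * ga⁻¹)⁻¹ = gc * gb * (gc * ga * gc⁻¹) := by
            simp only [mul_assoc, mul_inv_rev, inv_inv, inv_mul_cancel_left]
        _ = gc * gb * ga := by rw [h5]
    rw [h2]
    unfold gd
    rw [map_mul, map_mul, ha, hb, hc]
    group
  have h4 : ∀ w : HA, w * gd ^ 5 * w⁻¹ = gd ^ 5 := fun w => by
    rw [gd5_central, mul_inv_cancel_right]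
  rw [map_pow, h1, inv_pow, conj_pow, h4]

/-- `exists_frame`; an element of the center commutes with `gd`, so it is `gd ^ k`
(`centralizer_δ`), and `5 ∣ k` (`dvd_of_comm`); conversely `gd5_central`. -/
theorem center_eq : Subgroup.center HA = Subgroup.zpowers (gd ^ 5) := by
  obtain ⟨L, H, hδ, hS, -⟩ := exists_frame
  let _ := L
  apply le_antisymm
  · intro g hg
    rw [Subgroup.mem_center_iff] at hg
    obtain ⟨k, hk⟩ := H.centralizer_δ (hg H.δ).symm
    have h1 : H.S 6 * H.δ ^ k = H.δ ^ k * H.S 6 := by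
      rw [← hk]
      exact hg _
    obtain ⟨m, hm⟩ := H.dvd_of_comm h1
    refine Subgroup.mem_zpowers_iff.2 ⟨m, ?_⟩
    rw [hk, hm, zpow_mul, hδ]
    rfl
  · rw [Subgroup.zpowers_le, Subgroup.mem_center_iff]
    intro g
    exact gd5_central g

/-- `gd` has infinite order by `ln`; `φ` and its inverse map the center onto itself. -/
theorem aut_gd5 (φ : MulAut HA) : φ (gd ^ 5) = gd ^ 5 ∨ φ (gd ^ 5) = (gd ^ 5)⁻¹ := by
  have key : ∀ ψ : MulAut HA, ∃ m : ℤ, ψ (gd ^ 5) = (gd ^ 5) ^ m := by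
    intro ψ
    have h1 : ψ (gd ^ 5) ∈ Subgroup.center HA := by
      rw [Subgroup.mem_center_iff]
      intro g
      have h2 := gd5_central (ψ.symm g)
      have h3 := congrArg ψ h2
      rw [map_mul, map_mul, MulEquiv.apply_symm_apply] at h3
      exact h3
    rw [center_eq, Subgroup.mem_zpowers_iff] at h1
    obtain ⟨m, hm⟩ := h1
    exact ⟨m, hm.symm⟩
  have hln : ∀ n : ℤ, ln ((gd ^ 5) ^ n) = 15 * n := by
    have e1 : ∀ (x : HA) (n : ℕ), ln (x ^ n) = n * ln x := by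
      intro x n
      induction n with
      | zero => simp [ln]
      | succ n ih =>
        rw [pow_succ, ln_mul, ih]
        push_cast
        ring
    have e2 : ∀ x : HA, ln x⁻¹ = - ln x := by
      intro x
      simp [ln]
    have e3 : ln (gd ^ 5) = 15 := by
      rw [e1, ln_gd]
      norm_num
    intro n
    rcases n with n | n
    · rw [Int.ofNat_eq_natCast, zpow_natCast, e1, e3]
      ring
    · rw [zpow_negSucc, e2, e1, e3, Int.negSucc_eq]
      push_cast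
      ring
  obtain ⟨m, hm⟩ := key φ
  obtain ⟨n, hn⟩ := key φ.symm
  have h1 : gd ^ 5 = (gd ^ 5) ^ (m * n) := by
    have h2 : φ (φ.symm (gd ^ 5)) = gd ^ 5 := MulEquiv.apply_symm_apply _ _
    rw [hn, map_zpow, hm, ← zpow_mul] at h2
    exact h2.symm
  have h3 : (15 : ℤ) * 1 = 15 * (m * n) := by
    rw [← hln 1, ← hln (m * n), zpow_one, ← h1]
  have h4 : m * n = 1 := by linarith
  rcases Int.eq_one_or_neg_one_of_mul_eq_one h4 with h5 | h5
  · left
    rw [hm, h5, zpow_one]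
  · right
    rw [hm, h5, zpow_neg_one]

/-- `exists_frame` and `root_conj` -/
theorem root_conj_HA {y : HA} (hy : y ^ 5 = gd ^ 5) : ∃ m : HA, y * m = m * gd := by
  obtain ⟨L, H, hδ, -, -⟩ := exists_frame
  let _ := L
  have h1 : y ^ 5 = H.δ ^ 5 := by rw [hδ, hy]
  obtain ⟨m, hm⟩ := H.root_conj h1
  exact ⟨m, by rw [hm, hδ]⟩

/-- `a` and `b` are conjugate (`(a b a b) a = b (a b a b)`), `c = gd b gd⁻¹`; so
`ln (φ ga) = ln (φ gb) = ln (φ gc) = t` and `3 t = ln (φ gd) = 3`; then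
`Subgroup.closure_induction` with `closure_gen`. -/
theorem ln_aut (φ : HA →* HA) (h : φ gd = gd) (g : HA) : ln (φ g) = ln g := by
  have e0 : ∀ x y : HA, ln (φ (x * y)) = ln (φ x) + ln (φ y) := by
    intro x y
    rw [map_mul, ln_mul]
  have h1 : ln (φ ga) = ln (φ gb) := by
    have h2 := congrArg (fun x : HA => ln (φ x)) ga_gb
    simp only [e0] at h2
    linarith
  have h2 : ln (φ gb) = ln (φ gc) := by
    have h3 := congrArg (fun x : HA => ln (φ x)) gb_gc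
    simp only [e0] at h3
    linarith
  have h3 : ln (φ ga) + ln (φ gb) + ln (φ gc) = 3 := by
    rw [← e0, ← e0]
    change ln (φ gd) = 3
    rw [h, ln_gd]
  have ha : ln ga = 1 := by
    simp only [ln, exists_len.choose_spec.1, toAdd_ofAdd]
  have hb : ln gb = 1 := by
    simp only [ln, exists_len.choose_spec.2.1, toAdd_ofAdd]
  have hc : ln gc = 1 := by
    simp only [ln, exists_len.choose_spec.2.2, toAdd_ofAdd]
  have key : (exists_len.choose).comp φ = exists_len.choose := by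
    apply hom_ext3
    · apply Multiplicative.toAdd.injective
      change ln (φ ga) = ln ga
      rw [ha]
      linarith
    · apply Multiplicative.toAdd.injective
      change ln (φ gb) = ln gb
      rw [hb]
      linarith
    · apply Multiplicative.toAdd.injective
      change ln (φ gc) = ln gc
      rw [hc]
      linarith
  exact congrArg Multiplicative.toAdd (DFunLike.congr_fun key g)

/-- `exists_frame` and `inv_S6` for `φ` and its inverse: `φ gb = gd^k gb gd^(-k)`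
(`gb = gS 6`); the elements `gb`, `gd` generate: `gc = gd gb gd⁻¹`, `ga = gd gc⁻¹ gb⁻¹`. -/
theorem aut_fix_gd (φ : MulAut HA) (h : φ gd = gd) : ∃ x : HA, φ = MulAut.conj x := by
  obtain ⟨L, H, hδ, hS, hl⟩ := exists_frame
  let _ := L
  have h' : φ.symm gd = gd := by
    rw [MulEquiv.symm_apply_eq, h]
  have hφ : H.NH φ.toMonoidHom := by
    refine ⟨?_, ?_⟩
    · rw [hδ]; exact h
    · intro g
      rw [hl, hl]
      exact ln_aut φ.toMonoidHom h g
  have hψ : H.NH φ.symm.toMonoidHom := by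
    refine ⟨?_, ?_⟩
    · rw [hδ]; exact h'
    · intro g
      rw [hl, hl]
      exact ln_aut φ.symm.toMonoidHom h' g
  have h6 : H.S 6 = gb := by
    rw [hS]
    simp [gS, base, off]
  obtain ⟨k, hk⟩ := H.inv_S6 hφ hψ (MulEquiv.apply_symm_apply φ (H.S 6))
  rw [h6, hδ] at hk
  have hk' : φ gb = gd ^ (k : ℤ) * gb * gd ^ (-(k : ℤ)) := by
    have h1 : φ (φ.symm gb) = gb := MulEquiv.apply_symm_apply φ gb
    change φ.symm gb = _ at hk
    rw [hk, map_mul, map_mul, map_zpow, map_zpow, h] at h1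
    rw [zpow_neg] at h1 ⊢
    rw [eq_mul_inv_iff_mul_eq]
    rw [mul_assoc, inv_mul_eq_iff_eq_mul] at h1
    exact h1
  refine ⟨gd ^ (k : ℤ), ?_⟩
  have hc : gc = gd * gb * gd⁻¹ := by rw [gd_gb, mul_inv_cancel_right]
  have ha : ga = gd * gc⁻¹ * gb⁻¹ := by
    unfold gd
    group
  have key : φ.toMonoidHom = (MulAut.conj (gd ^ (k : ℤ))).toMonoidHom := by
    have e1 : φ gb = MulAut.conj (gd ^ (k : ℤ)) gb := by
      rw [hk', MulAut.conj_apply, zpow_neg]
    have e2 : φ gd = MulAut.conj (gd ^ (k : ℤ)) gd := by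
      rw [h, MulAut.conj_apply]
      group
    have e3 : φ gc = MulAut.conj (gd ^ (k : ℤ)) gc := by
      rw [hc, map_mul, map_mul, map_inv, map_mul, map_mul, map_inv, e1, e2]
    have e4 : φ ga = MulAut.conj (gd ^ (k : ℤ)) ga := by
      rw [ha, map_mul, map_mul, map_inv, map_inv, map_mul, map_mul, map_inv, map_inv, e1, e2, e3]
    exact hom_ext3 e4 e1 e3
  ext g
  exact DFunLike.congr_fun key g

/-- If `φ (gd ^ 5) = gd ^ 5` then `y = φ gd` satisfies `y ^ 5 = gd ^ 5`, so with `m` of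
`root_conj_HA` the automorphism `conj m⁻¹ * φ` fixes `gd`; `aut_fix_gd`.  Otherwise
`φ * ε` maps `gd ^ 5` to itself (`eps_gd5`). -/
theorem aut_form {ε : MulAut HA} (ha : ε ga = ga⁻¹) (hb : ε gb = gb⁻¹) (hc : ε gc = gc⁻¹)
    (he : ε * ε = 1) (φ : MulAut HA) :
    (∃ x : HA, φ = MulAut.conj x) ∨ ∃ x : HA, φ = MulAut.conj x * ε := by
  have key : ∀ ψ : MulAut HA, ψ (gd ^ 5) = gd ^ 5 → ∃ x : HA, ψ = MulAut.conj x := by
    intro ψ hψ
    have h1 : (ψ gd) ^ 5 = gd ^ 5 := by rw [← map_pow, hψ]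
    obtain ⟨m, hm⟩ := root_conj_HA h1
    have h2 : (MulAut.conj m⁻¹ * ψ) gd = gd := by
      rw [MulAut.mul_apply, MulAut.conj_apply, inv_inv, mul_assoc, hm, inv_mul_cancel_left]
    obtain ⟨x, hx⟩ := aut_fix_gd _ h2
    refine ⟨m * x, ?_⟩
    rw [map_mul, ← hx, ← mul_assoc, ← map_mul, mul_inv_cancel, map_one, one_mul]
  rcases aut_gd5 φ with h | h
  · exact Or.inl (key φ h)
  · right
    have h3 : (φ * ε) (gd ^ 5) = gd ^ 5 := by
      rw [MulAut.mul_apply, eps_gd5 ha hb hc, map_inv, h, inv_inv]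
    obtain ⟨x, hx⟩ := key (φ * ε) h3
    refine ⟨x, ?_⟩
    rw [← hx, mul_assoc, he, mul_one]

/-- `ln (ε g) = -ln g` for `g = ga` but conjugation preserves `ln` -/
theorem eps_not_inner {ε : MulAut HA} (ha : ε ga = ga⁻¹) (x : HA) : ε ≠ MulAut.conj x := by
  intro h
  have h1 : ga⁻¹ = x * ga * x⁻¹ := by
    rw [← ha, h, MulAut.conj_apply]
  have h2 := congrArg ln h1
  have e1 : ln ga⁻¹ = -ln ga := by simp [ln]
  have e2 : ln x⁻¹ = -ln x := by simp [ln]
  have e3 : ln ga = 1 := by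
    simp only [ln, exists_len.choose_spec.1, toAdd_ofAdd]
  rw [e1, ln_mul, ln_mul, e2, e3] at h2
  linarith

end Pool.Agent.HT
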