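import Pool.Agent.HT.Stmt

/-!
# Project HT, piece HT-D2: the form of the statement (general group theory)
-/

namespace Pool.Agent.HT

variable {G : Type*} [Group G]

private lemma conj_eq_conj_iff (x y : G) :
    (MulAut.conj x : MulAut G) = MulAut.conj y ↔ x⁻¹ * y ∈ Subgroup.center G := by
  rw [Subgroup.mem_center_iff]
  constructor
  · intro h g
    have h1 := congrArg (fun φ : MulAut G => φ g) h
    simp only [MulAut.conj_apply] at h1
    have h2 : g = x⁻¹ * (y * g * y⁻¹) * x := by
      rw [← h1]; group
    calc g * (x⁻¹ * y) = (x⁻¹ * (y * g * y⁻¹) * x) * (x⁻¹ * y) := by rw [← h2]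
      _ = x⁻¹ * y * g := by group
  · intro h
    ext g
    simp only [MulAut.conj_apply]
    have h1 := h g
    calc x * g * x⁻¹ = x * (g * (x⁻¹ * y)) * y⁻¹ := by group
      _ = x * (x⁻¹ * y * g) * y⁻¹ := by rw [h1]
      _ = y * g * y⁻¹ := by group

/-- `conj x = conj y` iff `x⁻¹ y` is central; `conj x = conj y * ε` would make `ε` inner -/
theorem formMod_of {ε : MulAut G} {z : G}
    (h1 : ∀ φ : MulAut G, (∃ x : G, φ = MulAut.conj x) ∨ ∃ x : G, φ = MulAut.conj x * ε)
    (h2 : ∀ x : G, ε ≠ MulAut.conj x) (hz : Subgroup.center G = Subgroup.zpowers z) :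
    FormMod G ε z := by
  constructor
  · intro φ
    rcases h1 φ with ⟨x, hx⟩ | ⟨x, hx⟩
    · exact ⟨x, false, by rw [hx]; simp [tw]⟩
    · exact ⟨x, true, by rw [hx]; simp [tw]⟩
  · intro x y u v
    rw [← hz, ← conj_eq_conj_iff]
    rcases u with _ | _ <;> rcases v with _ | _
    · simp [tw]
    · constructor
      · intro h
        exfalso
        simp only [tw, Bool.false_eq_true, if_false, if_true, mul_one] at h
        refine h2 (y⁻¹ * x) ?_
        rw [map_mul, map_inv, h]
        group
      · rintro ⟨h, _⟩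
        exact absurd h (by decide)
    · constructor
      · intro h
        exfalso
        simp only [tw, Bool.false_eq_true, if_false, if_true, mul_one] at h
        refine h2 (x⁻¹ * y) ?_
        rw [map_mul, map_inv, ← h]
        group
      · rintro ⟨h, _⟩
        exact absurd h (by decide)
    · simp [tw]

/-- The sign `MulAut G → ℤˣ`, `1` on the inner automorphisms and `-1` on `conj x * ε`, is a
homomorphism (`Inn G` is normal of index two), surjective, with kernel `Inn G`;
`QuotientGroup.quotientKerEquivOfSurjective`. -/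
theorem outGenBy_of {ε : MulAut G} (he : ε * ε = 1)
    (h1 : ∀ φ : MulAut G, (∃ x : G, φ = MulAut.conj x) ∨ ∃ x : G, φ = MulAut.conj x * ε)
    (h2 : ∀ x : G, ε ≠ MulAut.conj x) : OutGenBy G ε := by
  classical
  have hεn : ε ∉ Inn G := by
    rintro ⟨x, hx⟩
    exact h2 x hx.symm
  have hind : (Inn G).index = 2 := by
    rw [Subgroup.index_eq_two_iff]
    refine ⟨ε, fun b => ?_⟩
    rcases h1 b with ⟨x, hx⟩ | ⟨x, hx⟩
    · right
      refine ⟨⟨x, hx.symm⟩, ?_⟩
      intro h
      apply hεn
      have hb : b ∈ Inn G := ⟨x, hx.symm⟩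
      exact ((Inn G).mul_mem_cancel_left hb).mp h
    · left
      refine ⟨?_, ?_⟩
      · rw [hx, mul_assoc, he, mul_one]
        exact ⟨x, rfl⟩
      · intro h
        apply hεn
        rw [hx] at h
        exact ((Inn G).mul_mem_cancel_left (⟨x, rfl⟩ : MulAut.conj x ∈ Inn G)).mp h
  let sgn : MulAut G →* ℤˣ :=
    { toFun := fun φ => if φ ∈ Inn G then 1 else -1
      map_one' := by rw [if_pos (Inn G).one_mem]
      map_mul' := by
        intro a b
        have h := Subgroup.mul_mem_iff_of_index_two hind (a := a) (b := b)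
        by_cases ha : a ∈ Inn G <;> by_cases hb : b ∈ Inn G <;> simp [h, ha, hb] }
  have hsgn : ∀ φ, sgn φ = if φ ∈ Inn G then 1 else -1 := fun φ => rfl
  have hker : sgn.ker = Inn G := by
    ext φ
    rw [MonoidHom.mem_ker, hsgn]
    by_cases h : φ ∈ Inn G
    · simp [h]
    · simp only [h, if_false, iff_false]
      decide
  have hε : sgn ε = -1 := by rw [hsgn, if_neg hεn]
  have hsurj : Function.Surjective sgn := by
    intro u
    rcases Int.units_eq_one_or u with rfl | rfl
    · exact ⟨1, map_one _⟩
    · exact ⟨ε, hε⟩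
  refine ⟨(QuotientGroup.quotientMulEquivOfEq hker.symm).trans
    (QuotientGroup.quotientKerEquivOfSurjective sgn hsurj), ?_⟩
  exact hε

/-- `ℤˣ → MulAut G`, `-1 ↦ ε`, composed with the isomorphism of `outGenBy_of` -/
theorem splits_of {ε : MulAut G} (he : ε * ε = 1) (h : OutGenBy G ε) : Splits G := by
  obtain ⟨e, he'⟩ := h
  let th : ℤˣ →* MulAut G :=
    { toFun := fun u => if u = 1 then 1 else ε
      map_one' := by simp
      map_mul' := by
        intro u v
        rcases Int.units_eq_one_or u with rfl | rfl <;>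
          rcases Int.units_eq_one_or v with rfl | rfl <;> simp [he] }
  refine ⟨th.comp e.toMonoidHom, fun o => ?_⟩
  apply e.injective
  rcases Int.units_eq_one_or (e o) with h | h
  · have : (th.comp e.toMonoidHom) o = 1 := by
      change (if e o = 1 then (1 : MulAut G) else ε) = 1
      rw [if_pos h]
    rw [this, h]
    exact map_one e
  · have : (th.comp e.toMonoidHom) o = ε := by
      change (if e o = 1 then (1 : MulAut G) else ε) = ε
      rw [if_neg]
      rw [h]; decide
    rw [this, he', h]

end Pool.Agent.HT
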