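import Pool.Agent.HT.H3F

/-!
# Project HT, piece HT-F1: indices of simple elements
-/

namespace Pool.Agent.HT

namespace H3F

variable {G : Type*} [Group G] [Lattice G] (H : H3F G)

private theorem F1_antisymm : ∀ i < 32, ∀ j < 32, leT i j = true → leT j i = true → i = j := by
  decide +kernel

private theorem F1_leT_zero : ∀ i < 32, leT 0 i = true := by
  decide +kernel

private theorem F1_leT_last : ∀ i < 32, leT i 31 = true := by
  decide +kernel

private theorem F1_tm_kt : ∀ i < 32, kt i < 32 ∧ tm i (kt i) = 31 := by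
  decide +kernel

private theorem F1_tm_tau : ∀ i < 32, tau i < 32 ∧ tm (kt i) (tau i) = 31 := by
  decide +kernel

/-- `S i ≤ S j ≤ S i`, and the table order is antisymmetric (`decide +kernel`). -/
theorem S_inj {i j : ℕ} (hi : i < 32) (hj : j < 32) (h : H.S i = H.S j) : i = j := by
  have h1 := (H.le_iff i hi j hj).1 h.le
  have h2 := (H.le_iff j hj i hi).1 h.ge
  exact F1_antisymm i hi j hj h1 h2

theorem idx_S {i : ℕ} (hi : i < 32) : H.idx (H.S i) = i := by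
  have h : ∃ k < 32, H.S k = H.S i := ⟨i, hi, rfl⟩
  have h1 : H.idx (H.S i) = h.choose := by
    unfold idx
    rw [dif_pos h]
  rw [h1]
  exact H.S_inj h.choose_spec.1 hi h.choose_spec.2

theorem S_idx {g : G} (h1 : 1 ≤ g) (h2 : g ≤ H.δ) : H.idx g < 32 ∧ H.S (H.idx g) = g := by
  have h := H.cover g h1 h2
  have h3 : H.idx g = h.choose := by
    unfold idx
    rw [dif_pos h]
  rw [h3]
  exact h.choose_spec

theorem idx_proper {g : G} (h1 : 1 < g) (h2 : g < H.δ) : 1 ≤ H.idx g ∧ H.idx g ≤ 30 := by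
  obtain ⟨h3, h4⟩ := H.S_idx h1.le h2.le
  have h5 : H.idx g ≠ 0 := fun h => by
    rw [h, H.S_zero] at h4
    exact absurd h4 h1.ne
  have h6 : H.idx g ≠ 31 := fun h => by
    rw [h, H.S_last] at h4
    exact absurd h4 h2.ne'
  omega

/-- `1 < S i < δ` for `1 ≤ i ≤ 30` -/
theorem one_lt_S {i : ℕ} (h1 : 1 ≤ i) (h2 : i ≤ 30) : 1 < H.S i := by
  have h3 := (H.le_iff 0 (by norm_num) i (by omega)).2 (F1_leT_zero i (by omega))
  have h4 : H.S 0 ≠ H.S i := fun h => by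
    have := H.S_inj (by norm_num) (by omega) h
    omega
  rw [← H.S_zero]
  exact lt_of_le_of_ne h3 h4

theorem S_lt_δ {i : ℕ} (h2 : i ≤ 30) : H.S i < H.δ := by
  have h3 := (H.le_iff i (by omega) 31 (by norm_num)).2 (F1_leT_last i (by omega))
  have h4 : H.S i ≠ H.S 31 := fun h => by
    have := H.S_inj (by omega) (by norm_num) h
    omega
  rw [← H.S_last]
  exact lt_of_le_of_ne h3 h4

theorem mul_kt {i : ℕ} (hi : i < 32) : H.S i * H.S (kt i) = H.δ := by
  obtain ⟨h1, h2⟩ := F1_tm_kt i hi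
  rw [H.mulS i hi _ h1 (by rw [h2]; norm_num), h2, H.S_last]

/-- `S i * S (kt i) = δ = S (kt i) * S (tau i)` (the table: `tm (kt i) (tau i) = 31`), so
`S i * δ = S i * S (kt i) * S (tau i) = δ * S (tau i)`. -/
theorem S_tau {i : ℕ} (hi : i < 32) : H.S (tau i) = H.δ⁻¹ * H.S i * H.δ := by
  have h0 := H.mul_kt hi
  obtain ⟨h1, -⟩ := F1_tm_kt i hi
  obtain ⟨h3, h4⟩ := F1_tm_tau i hi
  have h5 : H.S (kt i) * H.S (tau i) = H.δ := by
    rw [H.mulS _ h1 _ h3 (by rw [h4]; norm_num), h4, H.S_last]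
  have h6 : H.S (kt i) = (H.S i)⁻¹ * H.δ := by rw [← h0, inv_mul_cancel_left]
  rw [h6] at h5
  calc H.S (tau i) = H.δ⁻¹ * H.S i * ((H.S i)⁻¹ * H.δ * H.S (tau i)) := by group
    _ = H.δ⁻¹ * H.S i * H.δ := by rw [h5]

theorem sh_lt {k i : ℕ} (hi : i < 32) : sh k i < 32 := by
  induction k with
  | zero => exact hi
  | succ k ih => exact (F1_tm_tau _ ih).1

theorem S_sh {k i : ℕ} (hi : i < 32) :
    H.S (sh k i) = H.δ ^ (-(k : ℤ)) * H.S i * H.δ ^ (k : ℤ) := by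
  induction k with
  | zero => simp [sh]
  | succ k ih =>
    have h1 : H.S (sh (k + 1) i) = H.δ⁻¹ * H.S (sh k i) * H.δ := H.S_tau (sh_lt hi)
    rw [h1, ih, Nat.cast_add, Nat.cast_one, neg_add_rev, zpow_add, zpow_add, zpow_neg_one, zpow_one]
    simp only [mul_assoc]

/-- the pair of directions of an element which is not a power of `δ` -/
theorem S_pl {g : G} (hg : H.lw g < H.up g) : H.S (H.pl g) = H.lo g := by
  exact (H.S_idx (H.toGar.one_lt_lo g).le (H.toGar.lo_lt_δ g hg).le).2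

theorem S_ph {g : G} (hg : H.lw g < H.up g) : H.S (H.ph g) = H.hi g := by
  exact (H.S_idx (H.toGar.one_lt_hi g hg).le (H.toGar.hi_lt_δ g).le).2

theorem pr_pl_ph {g : G} (hg : H.lw g < H.up g) : Pr (H.pl g) (H.ph g) := by
  obtain ⟨h1, h2⟩ := H.idx_proper (H.toGar.one_lt_lo g) (H.toGar.lo_lt_δ g hg)
  obtain ⟨h3, h4⟩ := H.idx_proper (H.toGar.one_lt_hi g hg) (H.toGar.hi_lt_δ g)
  refine ⟨h1, h2, h3, h4, ?_⟩
  have h5 : H.pl g < 32 := by
    have : H.pl g ≤ 30 := h2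
    omega
  have h6 : H.ph g < 32 := by
    have : H.ph g ≤ 30 := h4
    omega
  refine (H.le_iff _ h5 _ h6).1 ?_
  rw [H.S_pl hg, H.S_ph hg]
  exact H.toGar.lo_le_hi g hg

theorem pl_S {i : ℕ} (h1 : 1 ≤ i) (h2 : i ≤ 30) : H.pl (H.S i) = i := by
  unfold pl
  rw [H.toGar.lo_simple _ (H.one_lt_S h1 h2) (H.S_lt_δ h2)]
  exact H.idx_S (by omega)

theorem ph_S {i : ℕ} (h1 : 1 ≤ i) (h2 : i ≤ 30) : H.ph (H.S i) = i := by
  unfold ph
  rw [H.toGar.hi_simple _ (H.one_lt_S h1 h2) (H.S_lt_δ h2)]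
  exact H.idx_S (by omega)

end H3F

end Pool.Agent.HT
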