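import Pool.Agent.HT.F1

/-!
# Project HT, piece HT-F2: the criteria in terms of the table
-/

namespace Pool.Agent.HT

namespace H3F

variable {G : Type*} [Group G] [Lattice G] (H : H3F G)

theorem pl_mul_zpow (g : G) (k : ℤ) : H.pl (g * H.δ ^ k) = H.pl g := by
  unfold pl
  rw [H.lo_mul_zpow]

theorem ph_mul_zpow (g : G) (k : ℤ) : H.ph (g * H.δ ^ k) = H.ph g := by
  unfold ph
  rw [H.hi_mul_zpow]

private theorem F2_pl_lt {g : G} (hg : H.lw g < H.up g) : H.pl g < 32 := by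
  have h := (H.pr_pl_ph hg).2.1
  omega

private theorem F2_ph_lt {g : G} (hg : H.lw g < H.up g) : H.ph g < 32 := by
  have h := (H.pr_pl_ph hg).2.2.2.1
  omega

private theorem F2_inv {g : G} (hg : H.lw g < H.up g) : H.lw g⁻¹ < H.up g⁻¹ := by
  rw [H.lw_inv, H.up_inv]
  omega

/-- `lo (δ^(-k) g) = δ^(-k) lo g δ^k = S (sh k (pl g))`. -/
theorem pl_zpow_mul {g : G} (hg : H.lw g < H.up g) (k : ℕ) :
    H.pl (H.δ ^ (-(k : ℤ)) * g) = sh k (H.pl g) := by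
  have h1 := H.S_sh (k := k) (F2_pl_lt H hg)
  rw [H.S_pl hg] at h1
  have h2 : H.lo (H.δ ^ (-(k : ℤ)) * g) = H.S (sh k (H.pl g)) := by
    rw [H.lo_zpow_mul, h1, neg_neg]
  have h3 : H.pl (H.δ ^ (-(k : ℤ)) * g) = H.idx (H.S (sh k (H.pl g))) := by
    rw [← h2]
    rfl
  rw [h3, H.idx_S (sh_lt (F2_pl_lt H hg))]

theorem ph_zpow_mul {g : G} (hg : H.lw g < H.up g) (k : ℕ) :
    H.ph (H.δ ^ (-(k : ℤ)) * g) = sh k (H.ph g) := by
  have h1 := H.S_sh (k := k) (F2_ph_lt H hg)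
  rw [H.S_ph hg] at h1
  have h2 : H.hi (H.δ ^ (-(k : ℤ)) * g) = H.S (sh k (H.ph g)) := by
    rw [H.hi_zpow_mul, h1, neg_neg]
  have h3 : H.ph (H.δ ^ (-(k : ℤ)) * g) = H.idx (H.S (sh k (H.ph g))) := by
    rw [← h2]
    rfl
  rw [h3, H.idx_S (sh_lt (F2_ph_lt H hg))]

/-- `crit_lw` in the table; `g⁻¹` is not a power of `δ` by `lw_inv`, `up_inv`. -/
theorem critT_lw {g h : G} (hg : H.lw g < H.up g) (hh : H.lw h < H.up h) :
    leT (H.pl g⁻¹) (H.ph h) = true ↔ H.lw g + H.lw h < H.lw (g * h) := by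
  rw [← H.le_iff _ (F2_pl_lt H (F2_inv H hg)) _ (F2_ph_lt H hh), H.S_pl (F2_inv H hg), H.S_ph hh]
  exact (H.crit_lw g h).symm

theorem critT_up {g h : G} (hg : H.lw g < H.up g) (hh : H.lw h < H.up h) :
    leT (H.pl h) (H.ph g⁻¹) = true ↔ H.up (g * h) < H.up g + H.up h := by
  rw [← H.le_iff _ (F2_pl_lt H hh) _ (F2_ph_lt H (F2_inv H hg)), H.S_ph (F2_inv H hg), H.S_pl hh]
  exact (H.crit_up g h).symm

theorem monoT_hi {g h : G} (hg : H.lw g < H.up g) (hgh : H.lw (g * h) < H.up (g * h))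
    (e : H.lw (g * h) = H.lw g + H.lw h) : leT (H.ph g) (H.ph (g * h)) = true := by
  rw [← H.le_iff _ (F2_ph_lt H hg) _ (F2_ph_lt H hgh), H.S_ph hg, H.S_ph hgh]
  exact H.hi_le_of_lw g h e

theorem monoT_lo {g h : G} (hg : H.lw g < H.up g) (hgh : H.lw (g * h) < H.up (g * h))
    (e : H.up (g * h) = H.up g + H.up h) : leT (H.pl (g * h)) (H.pl g) = true := by
  rw [← H.le_iff _ (F2_pl_lt H hgh) _ (F2_pl_lt H hg), H.S_pl hg, H.S_pl hgh]
  exact H.lo_le_of_up g h e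

private theorem F2_rk1 : ∀ i < 32, rk i = 1 → i ≤ 15 := by decide +kernel

private theorem F2_rk2 : ∀ i < 32, rk i = 2 → 16 ≤ i := by decide +kernel

/-- `at_lo_eq_hi`, `at_len` and `lenS`, `rk i = 1` iff `1 ≤ i ≤ 15`. -/
theorem atT {g : G} (hg : H.lw g < H.up g) (ha : H.At g) : H.pl g = H.ph g ∧ H.pl g ≤ 15 := by
  refine ⟨?_, ?_⟩
  · unfold pl ph
    rw [H.at_lo_eq_hi g hg ha]
  · have h1 := H.at_len g (H.lo g) hg ha le_rfl (H.lo_le_hi g hg)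
    rw [← H.S_pl hg, H.lenS _ (F2_pl_lt H hg)] at h1
    exact F2_rk1 _ (F2_pl_lt H hg) (by exact_mod_cast h1)

theorem coT {g : G} (hg : H.lw g < H.up g) (ha : H.Co g) : H.pl g = H.ph g ∧ 16 ≤ H.pl g := by
  refine ⟨?_, ?_⟩
  · unfold pl ph
    rw [H.co_lo_eq_hi g hg ha]
  · have h1 := H.co_len g (H.lo g) hg ha le_rfl (H.lo_le_hi g hg)
    rw [← H.S_pl hg, H.lenS _ (F2_pl_lt H hg)] at h1
    exact F2_rk2 _ (F2_pl_lt H hg) (by exact_mod_cast h1)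

end H3F

end Pool.Agent.HT
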