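import Pool.Agent.HT.F2

/-!
# Project HT, piece HT-F3: the directions of the images of the simple elements
-/

namespace Pool.Agent.HT

namespace H3F

variable {G : Type*} [Group G] [Lattice G] (H : H3F G)

/-- the length of `φ (S i)` is `rk i ∈ {1, 2}`, which is not a multiple of `3`
(`eq_zpow_of_up_le`, `len_zpow`). -/
theorem nonpow {φ : G →* G} (hφ : H.NH φ) {i : ℕ} (h1 : 1 ≤ i) (h2 : i ≤ 30) :
    H.lw (φ (H.S i)) < H.up (φ (H.S i)) := by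
  have hrk : ∀ j ≤ 30, 1 ≤ j → (rk j = 1 ∨ rk j = 2) := by decide +kernel
  by_contra hc
  have h3 := H.toGar.eq_zpow_of_up_le (φ (H.S i)) (not_lt.1 hc)
  have h4 : H.len (φ (H.S i)) = 3 * H.lw (φ (H.S i)) := by
    conv_lhs => rw [h3]
    rw [H.toGar.len_zpow]
  rw [hφ.maplen, H.lenS i (by omega)] at h4
  rcases hrk i h2 h1 with h5 | h5 <;> rw [h5] at h4 <;> push_cast at h4 <;> omega

private theorem F3_map_sh {φ : G →* G} (hφ : H.NH φ) {i : ℕ} (hi : i < 32) (k : ℕ) :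
    φ (H.S (sh k i)) = H.δ ^ (-(k : ℤ)) * φ (H.S i) * H.δ ^ (k : ℤ) := by
  rw [H.S_sh hi, map_mul, map_mul, map_zpow, map_zpow, hφ.mapδ]

private theorem F3_map_inv {φ : G →* G} (hφ : H.NH φ) {i : ℕ} (hi : i < 32) :
    (φ (H.S i))⁻¹ = φ (H.S (kt i)) * H.δ ^ (-1 : ℤ) := by
  have h1 := H.mul_kt hi
  have h2 : φ (H.S i) * φ (H.S (kt i)) = H.δ := by
    rw [← map_mul, h1, hφ.mapδ]
  rw [zpow_neg, zpow_one, eq_mul_inv_iff_mul_eq, ← h2, inv_mul_cancel_left]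

theorem pr_fl_fh {φ : G →* G} (hφ : H.NH φ) {i : ℕ} (h1 : 1 ≤ i) (h2 : i ≤ 30) :
    Pr (H.fl φ i) (H.fh φ i) :=
  H.pr_pl_ph (H.nonpow hφ h1 h2)

/-- `φ (S (sh k i)) = δ^(-k) φ (S i) δ^k`. -/
theorem fl_sh {φ : G →* G} (hφ : H.NH φ) {i : ℕ} (h1 : 1 ≤ i) (h2 : i ≤ 30) (k : ℕ) :
    H.fl φ (sh k i) = sh k (H.fl φ i) := by
  unfold fl
  rw [H.F3_map_sh hφ (by omega) k, H.pl_mul_zpow, H.pl_zpow_mul (H.nonpow hφ h1 h2)]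

theorem fh_sh {φ : G →* G} (hφ : H.NH φ) {i : ℕ} (h1 : 1 ≤ i) (h2 : i ≤ 30) (k : ℕ) :
    H.fh φ (sh k i) = sh k (H.fh φ i) := by
  unfold fh
  rw [H.F3_map_sh hφ (by omega) k, H.ph_mul_zpow, H.ph_zpow_mul (H.nonpow hφ h1 h2)]

theorem lw_sh {φ : G →* G} (hφ : H.NH φ) {i : ℕ} (hi : i < 32) (k : ℕ) :
    H.lw (φ (H.S (sh k i))) = H.lw (φ (H.S i)) := by
  rw [H.F3_map_sh hφ hi k, H.toGar.lw_mul_zpow, H.toGar.lw_zpow_mul]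
  omega

theorem up_sh {φ : G →* G} (hφ : H.NH φ) {i : ℕ} (hi : i < 32) (k : ℕ) :
    H.up (φ (H.S (sh k i))) = H.up (φ (H.S i)) := by
  rw [H.F3_map_sh hφ hi k, H.toGar.up_mul_zpow, H.toGar.up_zpow_mul]
  omega

/-- `(S i)⁻¹ = S (kt i) δ⁻¹`. -/
theorem pl_inv {φ : G →* G} (hφ : H.NH φ) {i : ℕ} (h1 : 1 ≤ i) (h2 : i ≤ 30) :
    H.pl (φ (H.S i))⁻¹ = H.fl φ (kt i) := by
  rw [H.F3_map_inv hφ (by omega), H.pl_mul_zpow]
  rfl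

theorem ph_inv {φ : G →* G} (hφ : H.NH φ) {i : ℕ} (h1 : 1 ≤ i) (h2 : i ≤ 30) :
    H.ph (φ (H.S i))⁻¹ = H.fh φ (kt i) := by
  rw [H.F3_map_inv hφ (by omega), H.ph_mul_zpow]
  rfl

private theorem F3_tri {φ : G →* G} (hφ : H.NH φ) {x y z w : ℕ} (hx : 1 ≤ x ∧ x ≤ 15)
    (hy : 1 ≤ y ∧ y ≤ 15) (hz : 1 ≤ z ∧ z ≤ 15) (hw : tm x y = w) (hwz : tm w z = 31)
    (hw' : 16 ≤ w ∧ w ≤ 30) :
    φ (H.S x) * φ (H.S y) = φ (H.S w) ∧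
      H.lw (φ (H.S w)) = 1 - H.up (φ (H.S z)) ∧ H.up (φ (H.S w)) = 1 - H.lw (φ (H.S z)) := by
  have h1 : H.S x * H.S y = H.S w := by
    rw [H.mulS x (by omega) y (by omega) (by rw [hw]; omega), hw]
  have h2 : H.S w * H.S z = H.δ := by
    rw [H.mulS w (by omega) z (by omega) (by rw [hwz]; norm_num), hwz, H.S_last]
  have h3 : φ (H.S w) = H.δ ^ (1 : ℤ) * (φ (H.S z))⁻¹ := by
    rw [zpow_one, eq_mul_inv_iff_mul_eq, ← map_mul, h2, hφ.mapδ]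
  refine ⟨by rw [← map_mul, h1], ?_, ?_⟩
  · rw [h3, H.toGar.lw_zpow_mul, H.toGar.lw_inv]
    omega
  · rw [h3, H.toGar.up_zpow_mul, H.toGar.up_inv]
    omega

/-- Let `X = φ (S x)`, `Y = φ (S y)`, `Z = φ (S z)`, `W = φ (S w) = X Y`, `W Z = δ`, so
`lw W = 1 - up Z`, `up W = 1 - lw Z`; put `nx = up X - lw X` and so on.
`Cor`: (1) `lo W ≤ hi X` iff `lw W⁻¹ + lw X < lw (W⁻¹ X) = lw Y⁻¹` iff `ny < N` (`critT_lw` with
`g = W⁻¹`, `h = X`); (2) `lo X ≤ hi W` iff `up Y⁻¹ < up W⁻¹ + up X` iff `N < nx + nz` (`critT_up`);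
(3) if `N ≤ nz` then `lw (X Y) = lw X + lw Y` (by `lw_mul_le` `≥`), so `hi X ≤ hi W`;
(4) if `nx + ny ≤ N` then `up (X Y) = up X + up Y`, so `lo W ≤ lo X`;
(5) if `ny + nz ≤ N` then `lw (W Y⁻¹) = lw W + lw Y⁻¹`, so `hi W ≤ hi X`;
(6) if `N ≤ nx` then `up (W Y⁻¹) = up W + up Y⁻¹`, so `lo X ≤ lo W`. -/
theorem corner {φ : G →* G} (hφ : H.NH φ) {x y z w : ℕ} (hx : 1 ≤ x ∧ x ≤ 15)
    (hy : 1 ≤ y ∧ y ≤ 15) (hz : 1 ≤ z ∧ z ≤ 15) (hw : tm x y = w) (hwz : tm w z = 31)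
    (hw' : 16 ≤ w ∧ w ≤ 30) :
    Cor (H.fl φ x) (H.fh φ x) (H.fl φ w) (H.fh φ w)
      (1 - H.lw (φ (H.S x)) - H.lw (φ (H.S y)) - H.lw (φ (H.S z)))
      (H.up (φ (H.S x)) - H.lw (φ (H.S x))) (H.up (φ (H.S y)) - H.lw (φ (H.S y)))
      (H.up (φ (H.S z)) - H.lw (φ (H.S z))) := by
  obtain ⟨hXY, hlw, hup⟩ := H.F3_tri hφ hx hy hz hw hwz hw'
  have nX := H.nonpow hφ (i := x) (by omega) (by omega)
  have nW := H.nonpow hφ (i := w) (by omega) (by omega)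
  unfold fl fh
  generalize φ (H.S x) = X at *
  generalize φ (H.S y) = Y at *
  generalize φ (H.S z) = Z at *
  generalize φ (H.S w) = W at *
  have nWi : H.lw W⁻¹ < H.up W⁻¹ := by
    rw [H.toGar.lw_inv, H.toGar.up_inv]
    omega
  have e1 : W⁻¹ * X = Y⁻¹ := by
    rw [← hXY, mul_inv_rev, inv_mul_cancel_right]
  have e2 : W * Y⁻¹ = X := by
    rw [← hXY, mul_inv_cancel_right]
  have b1 := H.toGar.lw_mul_le X Y
  have b2 := H.toGar.up_mul_le X Y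
  rw [hXY] at b1 b2
  have b3 := H.toGar.lw_mul_le W Y⁻¹
  have b4 := H.toGar.up_mul_le W Y⁻¹
  rw [e2, H.toGar.lw_inv] at b3
  rw [e2, H.toGar.up_inv] at b4
  have c1 := H.critT_lw nWi nX
  have c2 := H.critT_up nWi nX
  rw [inv_inv, e1, H.toGar.lw_inv, H.toGar.lw_inv] at c1
  rw [inv_inv, e1, H.toGar.up_inv, H.toGar.up_inv] at c2
  refine ⟨?_, ?_, fun h => ?_, fun h => ?_, fun h => ?_, fun h => ?_⟩
  · rw [c1]
    constructor <;> intro h <;> omega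
  · rw [c2]
    constructor <;> intro h <;> omega
  · have := H.monoT_hi (g := X) (h := Y) nX (by rw [hXY]; exact nW) (by rw [hXY]; omega)
    rwa [hXY] at this
  · have := H.monoT_lo (g := X) (h := Y) nX (by rw [hXY]; exact nW) (by rw [hXY]; omega)
    rwa [hXY] at this
  · have := H.monoT_hi (g := W) (h := Y⁻¹) nW (by rw [e2]; exact nX)
      (by rw [e2, H.toGar.lw_inv]; omega)
    rwa [e2] at this
  · have := H.monoT_lo (g := W) (h := Y⁻¹) nW (by rw [e2]; exact nX)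
      (by rw [e2, H.toGar.up_inv]; omega)
    rwa [e2] at this

/-- With the letters of `corner`: `lw W ≥ lw X + lw Y` gives `nz ≤ N` and `up W ≤ up X + up Y`
gives `N ≤ nx + ny`. -/
theorem tri_bounds {φ : G →* G} (hφ : H.NH φ) {x y z w : ℕ} (hx : 1 ≤ x ∧ x ≤ 15)
    (hy : 1 ≤ y ∧ y ≤ 15) (hz : 1 ≤ z ∧ z ≤ 15) (hw : tm x y = w) (hwz : tm w z = 31)
    (hw' : 16 ≤ w ∧ w ≤ 30) :
    H.up (φ (H.S z)) - H.lw (φ (H.S z)) ≤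
        1 - H.lw (φ (H.S x)) - H.lw (φ (H.S y)) - H.lw (φ (H.S z)) ∧
      1 - H.lw (φ (H.S x)) - H.lw (φ (H.S y)) - H.lw (φ (H.S z)) ≤
        H.up (φ (H.S x)) - H.lw (φ (H.S x)) + (H.up (φ (H.S y)) - H.lw (φ (H.S y))) := by
  obtain ⟨hXY, hlw, hup⟩ := H.F3_tri hφ hx hy hz hw hwz hw'
  have b1 := H.toGar.lw_mul_le (φ (H.S x)) (φ (H.S y))
  have b2 := H.toGar.up_mul_le (φ (H.S x)) (φ (H.S y))
  rw [hXY] at b1 b2
  constructor <;> omega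

/-- if `φ (S i)` has `At` then the directions of `φ (S i)` and of its inverse, which has `Co`,
are given by `atT`, `coT` -/
theorem at_dirs {φ : G →* G} (hφ : H.NH φ) {i : ℕ} (h1 : 1 ≤ i) (h2 : i ≤ 30)
    (ha : H.At (φ (H.S i))) :
    H.fl φ i = H.fh φ i ∧ H.fl φ i ≤ 15 ∧ H.fl φ (kt i) = H.fh φ (kt i) ∧
      16 ≤ H.fl φ (kt i) := by
  have h3 := H.nonpow hφ h1 h2
  obtain ⟨h4, h5⟩ := H.atT h3 ha
  have h6 : H.lw (φ (H.S i))⁻¹ < H.up (φ (H.S i))⁻¹ := by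
    rw [H.toGar.lw_inv, H.toGar.up_inv]
    omega
  obtain ⟨h7, h8⟩ := H.coT h6 ((H.toGar.co_inv _).2 ha)
  rw [H.pl_inv hφ h1 h2, H.ph_inv hφ h1 h2] at h7
  rw [H.pl_inv hφ h1 h2] at h8
  exact ⟨h4, h5, h7, h8⟩

theorem co_dirs {φ : G →* G} (hφ : H.NH φ) {i : ℕ} (h1 : 1 ≤ i) (h2 : i ≤ 30)
    (ha : H.Co (φ (H.S i))) :
    H.fl φ i = H.fh φ i ∧ 16 ≤ H.fl φ i ∧ H.fl φ (kt i) = H.fh φ (kt i) ∧
      H.fl φ (kt i) ≤ 15 := by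
  have h3 := H.nonpow hφ h1 h2
  obtain ⟨h4, h5⟩ := H.coT h3 ha
  have h6 : H.lw (φ (H.S i))⁻¹ < H.up (φ (H.S i))⁻¹ := by
    rw [H.toGar.lw_inv, H.toGar.up_inv]
    omega
  obtain ⟨h7, h8⟩ := H.atT h6 ((H.toGar.at_inv _).2 ha)
  rw [H.pl_inv hφ h1 h2, H.ph_inv hφ h1 h2] at h7
  rw [H.pl_inv hφ h1 h2] at h8
  exact ⟨h4, h5, h7, h8⟩

end H3F

end Pool.Agent.HT
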