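import Pool.Agent.HT.F4a
import Pool.Agent.HT.H3F

/-!
# Project HT, piece HT-F4: the finite check with the inequalities
-/

namespace Pool.Agent.HT

/-- `imp4` is the conjunction of the last four relations of `Cor`. -/
theorem imp4_of {xl xh wl wh : ℕ} {N nx ny nz : ℤ} (h : Cor xl xh wl wh N nx ny nz)
    {gx gz sxy syz : Bool} (h1 : gx = true ↔ nx < N) (h2 : gz = true ↔ nz < N)
    (h3 : sxy = true ↔ N < nx + ny) (h4 : syz = true ↔ N < ny + nz) :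
    imp4 (xl, xh) (wl, wh) gx gz sxy syz = true := by
  obtain ⟨_, _, c3, c4, c5, c6⟩ := h
  simp only [imp4, Bool.and_eq_true, Bool.or_eq_true]
  refine ⟨⟨⟨?_, ?_⟩, ?_⟩, ?_⟩
  · by_cases h : nz < N
    · exact Or.inl (h2.2 h)
    · exact Or.inr (c3 (not_lt.1 h))
  · by_cases h : N < nx + ny
    · exact Or.inl (h3.2 h)
    · exact Or.inr (c4 (not_lt.1 h))
  · by_cases h : N < ny + nz
    · exact Or.inl (h4.2 h)
    · exact Or.inr (c5 (not_lt.1 h))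
  · by_cases h : nx < N
    · exact Or.inl (h1.2 h)
    · exact Or.inr (c6 (not_lt.1 h))

private theorem F4_beq {a b : Bool} {p q : Prop} (ha : a = true ↔ p) (hb : b = true ↔ q)
    (h : p ↔ q) : (a == b) = true := by
  rw [beq_iff_eq, Bool.eq_iff_iff, ha, hb, h]

private theorem F4_isSh {b w a v c u : ℕ} {bl bh wl wh al ah vl vh cl ch ul uh : ℕ}
    (h : isSh b w a v c u (bl, bh) (wl, wh) (al, ah) (vl, vh) (cl, ch) (ul, uh) = true) :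
    ∃ k < 5, bl = sh k b ∧ bh = sh k b ∧ wl = sh k w ∧ wh = sh k w ∧ al = sh k a ∧ ah = sh k a ∧
      vl = sh k v ∧ vh = sh k v ∧ cl = sh k c ∧ ch = sh k c ∧ ul = sh k u ∧ uh = sh k u := by
  simp only [isSh, List.any_eq_true, List.mem_range, Bool.and_eq_true, beq_iff_eq, shp,
    Prod.mk.injEq] at h
  obtain ⟨k, hk, h⟩ := h
  exact ⟨k, hk, by tauto⟩

private theorem F4_isSh4 {b w a v : ℕ} {bl bh wl wh al ah vl vh : ℕ}
    (h : isSh4 b w a v (bl, bh) (wl, wh) (al, ah) (vl, vh) = true) :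
    ∃ k < 5, bl = sh k b ∧ bh = sh k b ∧ wl = sh k w ∧ wh = sh k w ∧ al = sh k a ∧ ah = sh k a ∧
      vl = sh k v ∧ vh = sh k v := by
  simp only [isSh4, List.any_eq_true, List.mem_range, Bool.and_eq_true, beq_iff_eq, shp,
    Prod.mk.injEq] at h
  obtain ⟨k, hk, h⟩ := h
  exact ⟨k, hk, by tauto⟩

/-- The pairs `B = (bl, bh)`, ..., `U = (ul, uh)` are the direction pairs of the images of
`b_0, [b_4*], a_0, [a_1*], c_0, [c_1*]`; `ia, ib, ic` are `lw` and `na, nb, nc` are `up - lw` of the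
images of `a_0, b_0, c_0`.  The first two relations of the `Cor` hypotheses say for the bits of
`Chk.lean`: `lh W B` iff `nb < NS`, `lh B W` iff `NS < nb + nb` (`S1`);
`lh W A` iff `nb < N1` iff `lh V B`; `lh A W` iff `N1 < na + nb` iff `lh B V`;
`lh (shp 2 W) (shp 4 B)` iff `na < N1`; `lh (shp 4 B) (shp 2 W)` iff `N1 < nb + nb`;
`lh W C` iff `na < N2` iff `lh U (shp 4 B)`; `lh C W` iff `N2 < nc + nb` iff `lh (shp 4 B) U`;
`lh U A` iff `nb < N2` iff `lh (shp 4 V) C`; `lh A U` iff `N2 < na + nc` iff `lh C (shp 4 V)`;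
`lh V (shp 4 B)` iff `nc < N2` iff `lh W (shp 4 A)`; `lh (shp 4 B) V` iff `N2 < nb + na` iff
`lh (shp 4 A) W`.  So `chk1`, ..., `chk5` hold (`imp4_of`; the single pairs in `chk1` come from
`atb`, `cob` with the bounds on `1 - 3 ib`), and `concl_of` applies.  Each of the 12 bit patterns
gives 12 inequalities or opposite inequalities; together with the bounds, `omega` shows:
`patI` gives `1 - 3 ia = na` and so on, `patD` gives `1 - 3 ia = 2 na` and so on, `patE` gives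
`1 - 3 ia = 2 na` (so `sc A`, `sa V` by `coa`), `patF` gives `1 - 3 ia = na` (so `sa A`, `sc V` by
`ata`), `patX` is contradictory. -/
theorem fincheck {bl bh wl wh al ah vl vh cl ch ul uh : ℕ} {ia ib ic na nb nc : ℤ}
    (pb : Pr bl bh) (pw : Pr wl wh) (pa : Pr al ah) (pv : Pr vl vh) (pc : Pr cl ch)
    (pu : Pr ul uh)
    (ma : na ≤ 1 - 3 * ia ∧ 1 - 3 * ia ≤ 2 * na) (mb : nb ≤ 1 - 3 * ib ∧ 1 - 3 * ib ≤ 2 * nb)
    (mc : nc ≤ 1 - 3 * ic ∧ 1 - 3 * ic ≤ 2 * nc)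
    (S1 : Cor bl bh wl wh (1 - ib - ib - ib) nb nb nb)
    (T1a : Cor al ah wl wh (1 - ia - ib - ib) na nb nb)
    (T1b : Cor bl bh vl vh (1 - ib - ib - ia) nb nb na)
    (T1c : Cor (sh 4 bl) (sh 4 bh) (sh 2 wl) (sh 2 wh) (1 - ib - ia - ib) nb na nb)
    (T2a : Cor cl ch wl wh (1 - ic - ia - ib) nc na nb)
    (T2b : Cor al ah ul uh (1 - ia - ib - ic) na nb nc)
    (T2c : Cor (sh 4 bl) (sh 4 bh) vl vh (1 - ib - ic - ia) nb nc na)
    (T3a : Cor (sh 4 al) (sh 4 ah) wl wh (1 - ia - ic - ib) na nc nb)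
    (T3b : Cor cl ch (sh 4 vl) (sh 4 vh) (1 - ic - ib - ia) nc nb na)
    (T3c : Cor (sh 4 bl) (sh 4 bh) ul uh (1 - ib - ia - ic) nb na nc)
    (N1a : na ≤ 1 - ia - ib - ib) (N1b : nb ≤ 1 - ia - ib - ib)
    (N1c : 1 - ia - ib - ib ≤ na + nb) (N1d : 1 - ia - ib - ib ≤ nb + nb)
    (N2a : na ≤ 1 - ia - ib - ic) (N2b : nb ≤ 1 - ia - ib - ic) (N2c : nc ≤ 1 - ia - ib - ic)
    (N2d : 1 - ia - ib - ic ≤ na + nb) (N2e : 1 - ia - ib - ic ≤ nb + nc)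
    (N2f : 1 - ia - ib - ic ≤ na + nc)
    (atb : 1 - 3 * ib = nb → bl = bh ∧ bl ≤ 15 ∧ wl = wh ∧ 16 ≤ wl)
    (cob : 1 - 3 * ib = 2 * nb → bl = bh ∧ 16 ≤ bl ∧ wl = wh ∧ wl ≤ 15)
    (ata : 1 - 3 * ia = na → al = ah ∧ al ≤ 15 ∧ vl = vh ∧ 16 ≤ vl)
    (coa : 1 - 3 * ia = 2 * na → al = ah ∧ 16 ≤ al ∧ vl = vh ∧ vl ≤ 15) :
    ∃ k < 5,
      (1 - 3 * ia = na ∧ 1 - 3 * ib = nb ∧ 1 - 3 * ic = nc ∧
        bl = sh k 6 ∧ bh = sh k 6 ∧ wl = sh k 25 ∧ wh = sh k 25 ∧ al = sh k 1 ∧ ah = sh k 1 ∧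
        vl = sh k 17 ∧ vh = sh k 17 ∧ cl = sh k 11 ∧ ch = sh k 11 ∧ ul = sh k 27 ∧
        uh = sh k 27) ∨
      (1 - 3 * ia = 2 * na ∧ 1 - 3 * ib = 2 * nb ∧ 1 - 3 * ic = 2 * nc ∧
        bl = sh k 25 ∧ bh = sh k 25 ∧ wl = sh k 8 ∧ wh = sh k 8 ∧ al = sh k 20 ∧
        ah = sh k 20 ∧ vl = sh k 5 ∧ vh = sh k 5 ∧ cl = sh k 30 ∧ ch = sh k 30 ∧
        ul = sh k 15 ∧ uh = sh k 15) ∨
      (bl = sh k 1 ∧ bh = sh k 1 ∧ wl = sh k 25 ∧ wh = sh k 25 ∧ al = sh k 25 ∧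
        ah = sh k 25 ∧ vl = sh k 1 ∧ vh = sh k 1) ∨
      (bl = sh k 6 ∧ bh = sh k 6 ∧ wl = sh k 17 ∧ wh = sh k 17 ∧ al = sh k 17 ∧
        ah = sh k 17 ∧ vl = sh k 6 ∧ vh = sh k 6) ∨
      (bl = sh k 25 ∧ bh = sh k 25 ∧ wl = sh k 5 ∧ wh = sh k 5 ∧ al = sh k 5 ∧
        ah = sh k 5 ∧ vl = sh k 25 ∧ vh = sh k 25) ∨
      (bl = sh k 17 ∧ bh = sh k 17 ∧ wl = sh k 10 ∧ wh = sh k 10 ∧ al = sh k 10 ∧
        ah = sh k 10 ∧ vl = sh k 17 ∧ vh = sh k 17) := by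
  have e1 : (lh (wl, wh) (bl, bh) = true ↔ nb < 1 - ib - ib - ib) := S1.1
  have e2 : (lh (bl, bh) (wl, wh) = true ↔ 1 - ib - ib - ib < nb + nb) := S1.2.1
  have e3 : (lh (shp 2 (wl, wh)) (shp 4 (bl, bh)) = true ↔ na < 1 - ib - ia - ib) := T1c.1
  have e4 : (lh (wl, wh) (al, ah) = true ↔ nb < 1 - ia - ib - ib) := T1a.1
  have e5 : (lh (al, ah) (wl, wh) = true ↔ 1 - ia - ib - ib < na + nb) := T1a.2.1
  have e6 : (lh (shp 4 (bl, bh)) (shp 2 (wl, wh)) = true ↔ 1 - ib - ia - ib < nb + nb) := T1c.2.1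
  have e7 : (lh (wl, wh) (cl, ch) = true ↔ na < 1 - ic - ia - ib) := T2a.1
  have e8 : (lh (shp 4 (vl, vh)) (cl, ch) = true ↔ nb < 1 - ic - ib - ia) := T3b.1
  have e9 : (lh (vl, vh) (shp 4 (bl, bh)) = true ↔ nc < 1 - ib - ic - ia) := T2c.1
  have e10 : (lh (shp 4 (bl, bh)) (vl, vh) = true ↔ 1 - ib - ic - ia < nb + na) := T2c.2.1
  have e11 : (lh (cl, ch) (wl, wh) = true ↔ 1 - ic - ia - ib < nc + nb) := T2a.2.1
  have e12 : (lh (cl, ch) (shp 4 (vl, vh)) = true ↔ 1 - ic - ib - ia < nc + na) := T3b.2.1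
  have f1 : (lh (vl, vh) (bl, bh) = true ↔ nb < 1 - ib - ib - ia) := T1b.1
  have f2 : (lh (bl, bh) (vl, vh) = true ↔ 1 - ib - ib - ia < nb + na) := T1b.2.1
  have f3 : (lh (wl, wh) (shp 4 (al, ah)) = true ↔ nc < 1 - ia - ic - ib) := T3a.1
  have f4 : (lh (shp 4 (al, ah)) (wl, wh) = true ↔ 1 - ia - ic - ib < na + nb) := T3a.2.1
  have f5 : (lh (ul, uh) (al, ah) = true ↔ nb < 1 - ia - ib - ic) := T2b.1
  have f6 : (lh (al, ah) (ul, uh) = true ↔ 1 - ia - ib - ic < na + nc) := T2b.2.1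
  have f7 : (lh (ul, uh) (shp 4 (bl, bh)) = true ↔ na < 1 - ib - ia - ic) := T3c.1
  have f8 : (lh (shp 4 (bl, bh)) (ul, uh) = true ↔ 1 - ib - ia - ic < nb + nc) := T3c.2.1
  have g1 : chk1 (bl, bh) (wl, wh) = true := by
    simp only [chk1, Bool.and_eq_true]
    refine ⟨⟨⟨?_, imp4_of S1 e1 e1 e2 e2⟩, ?_⟩, ?_⟩
    · rw [Bool.or_eq_true, e1, e2]
      omega
    · rw [Bool.or_eq_true, e1]
      by_cases h : nb < 1 - ib - ib - ib
      · exact Or.inl h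
      · obtain ⟨q1, q2, q3, q4⟩ := atb (by omega)
        right
        simp [sa, sc, q1.symm, q2, q3.symm, q4, Nat.ble_eq]
    · rw [Bool.or_eq_true, e2]
      by_cases h : 1 - ib - ib - ib < nb + nb
      · exact Or.inl h
      · obtain ⟨q1, q2, q3, q4⟩ := cob (by omega)
        right
        simp [sa, sc, q1.symm, q2, q3.symm, q4, Nat.ble_eq]
  have g2 : chk2 (bl, bh) (wl, wh) (al, ah) = true := by
    simp only [chk2, Bool.and_eq_true]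
    refine ⟨imp4_of T1a (by rw [e3]; omega) (by rw [e4]) (by rw [e5]) (by rw [e6]; omega),
      imp4_of T1c (by rw [e4]; omega) (by rw [e4]; omega) (by rw [e5]; omega) (by rw [e5]; omega)⟩
  have g3 : chk3 (bl, bh) (wl, wh) (al, ah) (vl, vh) = true := by
    simp only [chk3, Bool.and_eq_true]
    refine ⟨⟨⟨⟨F4_beq f1 e4 (by omega), F4_beq f2 e5 (by omega)⟩,
      imp4_of T1b (by rw [e4]; omega) (by rw [e3]; omega) (by rw [e6]; omega)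
        (by rw [e5]; omega)⟩, F4_beq f3 e9 (by omega)⟩, F4_beq f4 e10 (by omega)⟩
  have g4 : chk4 (bl, bh) (wl, wh) (al, ah) (vl, vh) (cl, ch) = true := by
    simp only [chk4, Bool.and_eq_true]
    refine ⟨⟨⟨imp4_of T2a (by rw [e9]; omega) (by rw [e8]; omega) (by rw [e12]; omega)
        (by rw [e10]; omega),
      imp4_of T3b (by rw [e9]; omega) (by rw [e7]; omega) (by rw [e11]; omega)
        (by rw [e10]; omega)⟩,
      imp4_of T2c (by rw [e8]; omega) (by rw [e7]; omega) (by rw [e11]; omega)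
        (by rw [e12]; omega)⟩,
      imp4_of T3a (by rw [e7]; omega) (by rw [e8]; omega) (by rw [e12]; omega)
        (by rw [e11]; omega)⟩
  have g5 : chk5 (bl, bh) (wl, wh) (al, ah) (vl, vh) (cl, ch) (ul, uh) = true := by
    simp only [chk5, Bool.and_eq_true]
    refine ⟨⟨⟨⟨⟨F4_beq f5 e8 (by omega), F4_beq f6 e12 (by omega)⟩,
      imp4_of T2b (by rw [e7]; omega) (by rw [e9]; omega) (by rw [e10]; omega)
        (by rw [e11]; omega)⟩, F4_beq f7 e7 (by omega)⟩, F4_beq f8 e11 (by omega)⟩,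
      imp4_of T3c (by rw [e8]; omega) (by rw [e9]; omega) (by rw [e10]; omega)
        (by rw [e12]; omega)⟩
  have hc := concl_of (bl, bh) (wl, wh) (al, ah) (vl, vh) (cl, ch) (ul, uh)
    (mem_P80 _ _ pb.1 pb.2.1 pb.2.2.1 pb.2.2.2.1 pb.2.2.2.2)
    (mem_P80 _ _ pw.1 pw.2.1 pw.2.2.1 pw.2.2.2.1 pw.2.2.2.2)
    (mem_P80 _ _ pa.1 pa.2.1 pa.2.2.1 pa.2.2.2.1 pa.2.2.2.2)
    (mem_P80 _ _ pv.1 pv.2.1 pv.2.2.1 pv.2.2.2.1 pv.2.2.2.2)
    (mem_P80 _ _ pc.1 pc.2.1 pc.2.2.1 pc.2.2.2.1 pc.2.2.2.2)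
    (mem_P80 _ _ pu.1 pu.2.1 pu.2.2.1 pu.2.2.2.1 pu.2.2.2.2) g1 g2 g3 g4 g5
  clear S1 T1a T1b T1c T2a T2b T2c T3a T3b T3c f1 f2 f3 f4 f5 f6 f7 f8 g1 g2 g3 g4 g5
  simp only [concl, bits] at hc
  generalize lh (wl, wh) (bl, bh) = z1 at *
  generalize lh (bl, bh) (wl, wh) = z2 at *
  generalize lh (shp 2 (wl, wh)) (shp 4 (bl, bh)) = z3 at *
  generalize lh (wl, wh) (al, ah) = z4 at *
  generalize lh (al, ah) (wl, wh) = z5 at *
  generalize lh (shp 4 (bl, bh)) (shp 2 (wl, wh)) = z6 at *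
  generalize lh (wl, wh) (cl, ch) = z7 at *
  generalize lh (shp 4 (vl, vh)) (cl, ch) = z8 at *
  generalize lh (vl, vh) (shp 4 (bl, bh)) = z9 at *
  generalize lh (shp 4 (bl, bh)) (vl, vh) = z10 at *
  generalize lh (cl, ch) (wl, wh) = z11 at *
  generalize lh (cl, ch) (shp 4 (vl, vh)) = z12 at *
  simp only [Bool.or_eq_true, Bool.and_eq_true, beq_iff_eq, patI, patD, patE, patF, patX,
    List.contains_cons, List.contains_nil, Bool.or_false, List.cons.injEq, and_true] at hc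
  have hfin : ∀ p : Prop, (false = true ↔ p) ↔ ¬ p := fun p => by simp
  have htru : ∀ p : Prop, (true = true ↔ p) ↔ p := fun p => by simp
  rcases hc with (((⟨hb, hs⟩ | ⟨hb, hs⟩) | ⟨hb, hs⟩) | ⟨hb, hs⟩) | hx
  · obtain ⟨rfl, rfl, rfl, rfl, rfl, rfl, rfl, rfl, rfl, rfl, rfl, rfl⟩ := hb
    rw [hfin] at e1 e3 e4 e7 e8 e9
    rw [htru] at e2 e5 e6 e10 e11 e12
    obtain ⟨k, hk, hs⟩ := F4_isSh hs
    exact ⟨k, hk, Or.inl ⟨by omega, by omega, by omega, hs⟩⟩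
  · obtain ⟨rfl, rfl, rfl, rfl, rfl, rfl, rfl, rfl, rfl, rfl, rfl, rfl⟩ := hb
    rw [hfin] at e2 e5 e6 e10 e11 e12
    rw [htru] at e1 e3 e4 e7 e8 e9
    obtain ⟨k, hk, hs⟩ := F4_isSh hs
    exact ⟨k, hk, Or.inr (Or.inl ⟨by omega, by omega, by omega, hs⟩)⟩
  · have ha : 1 - 3 * ia = 2 * na := by
      rcases hb with hb | hb
      · obtain ⟨rfl, rfl, rfl, rfl, rfl, rfl, rfl, rfl, rfl, rfl, rfl, rfl⟩ := hb
        rw [hfin] at e1 e3 e6 e9 e10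
        rw [htru] at e2 e4 e5 e7 e8 e11 e12
        omega
      · obtain ⟨rfl, rfl, rfl, rfl, rfl, rfl, rfl, rfl, rfl, rfl, rfl, rfl⟩ := hb
        rw [hfin] at e1 e3 e6 e9
        rw [htru] at e2 e4 e5 e7 e8 e10 e11 e12
        omega
    obtain ⟨q1, q2, q3, q4⟩ := coa ha
    have hsc : (sc (al, ah) && sa (vl, vh)) = true := by
      simp [sa, sc, q1.symm, q2, q3.symm, q4, Nat.ble_eq]
    rcases hs with (hs | hs) | hs
    · rw [hsc] at hs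
      exact absurd hs (by decide)
    · obtain ⟨k, hk, hs⟩ := F4_isSh4 hs
      exact ⟨k, hk, Or.inr (Or.inr (Or.inl hs))⟩
    · obtain ⟨k, hk, hs⟩ := F4_isSh4 hs
      exact ⟨k, hk, Or.inr (Or.inr (Or.inr (Or.inl hs)))⟩
  · have ha : 1 - 3 * ia = na := by
      rcases hb with hb | hb
      · obtain ⟨rfl, rfl, rfl, rfl, rfl, rfl, rfl, rfl, rfl, rfl, rfl, rfl⟩ := hb
        rw [hfin] at e2 e3 e6 e9 e10
        rw [htru] at e1 e4 e5 e7 e8 e11 e12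
        omega
      · obtain ⟨rfl, rfl, rfl, rfl, rfl, rfl, rfl, rfl, rfl, rfl, rfl, rfl⟩ := hb
        rw [hfin] at e2 e3 e6 e10
        rw [htru] at e1 e4 e5 e7 e8 e9 e11 e12
        omega
    obtain ⟨q1, q2, q3, q4⟩ := ata ha
    have hsc : (sa (al, ah) && sc (vl, vh)) = true := by
      simp [sa, sc, q1.symm, q2, q3.symm, q4, Nat.ble_eq]
    rcases hs with (hs | hs) | hs
    · rw [hsc] at hs
      exact absurd hs (by decide)
    · obtain ⟨k, hk, hs⟩ := F4_isSh4 hs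
      exact ⟨k, hk, Or.inr (Or.inr (Or.inr (Or.inr (Or.inl hs))))⟩
    · obtain ⟨k, hk, hs⟩ := F4_isSh4 hs
      exact ⟨k, hk, Or.inr (Or.inr (Or.inr (Or.inr (Or.inr hs))))⟩
  · exfalso
    rcases hx with hx | hx | hx | hx | hx | hx
    · obtain ⟨rfl, rfl, rfl, rfl, rfl, rfl, rfl, rfl, rfl, rfl, rfl, rfl⟩ := hx
      rw [hfin] at e1 e3 e4 e7 e9
      rw [htru] at e2 e5 e6 e8 e10 e11 e12
      omega
    · obtain ⟨rfl, rfl, rfl, rfl, rfl, rfl, rfl, rfl, rfl, rfl, rfl, rfl⟩ := hx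
      rw [hfin] at e1 e3 e4 e8 e9
      rw [htru] at e2 e5 e6 e7 e10 e11 e12
      omega
    · obtain ⟨rfl, rfl, rfl, rfl, rfl, rfl, rfl, rfl, rfl, rfl, rfl, rfl⟩ := hx
      rw [hfin] at e1 e3 e6 e7 e9
      rw [htru] at e2 e4 e5 e8 e10 e11 e12
      omega
    · obtain ⟨rfl, rfl, rfl, rfl, rfl, rfl, rfl, rfl, rfl, rfl, rfl, rfl⟩ := hx
      rw [hfin] at e2 e3 e6 e10 e11
      rw [htru] at e1 e4 e5 e7 e8 e9 e12
      omega
    · obtain ⟨rfl, rfl, rfl, rfl, rfl, rfl, rfl, rfl, rfl, rfl, rfl, rfl⟩ := hx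
      rw [hfin] at e2 e5 e6 e10 e11
      rw [htru] at e1 e3 e4 e7 e8 e9 e12
      omega
    · obtain ⟨rfl, rfl, rfl, rfl, rfl, rfl, rfl, rfl, rfl, rfl, rfl, rfl⟩ := hx
      rw [hfin] at e2 e5 e6 e10 e12
      rw [htru] at e1 e3 e4 e7 e8 e9 e11
      omega

end Pool.Agent.HT
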