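import Pool.Agent.HT.Chk

/-!
# Project HT, piece HT-F4a: the finite check, computation
-/

namespace Pool.Agent.HT

set_option maxRecDepth 100000

/-- Kernel computation (`decide +kernel`, about one or two minutes; if necessary split the list
`P80` into parts). -/
theorem run_P80 : run P80 = true := by
  decide +kernel

private theorem mem_P80_aux : ((List.range 31).all fun l => (List.range 31).all fun h =>
    l == 0 || h == 0 || !leT l h || P80.contains (l, h)) = true := by
  decide +kernel

/-- the 80 pairs: `decide +kernel` over `l, h < 31` -/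
theorem mem_P80 (l h : ℕ) (h1 : 1 ≤ l) (h2 : l ≤ 30) (h3 : 1 ≤ h) (h4 : h ≤ 30)
    (h5 : leT l h = true) : (l, h) ∈ P80 := by
  have a1 := List.all_eq_true.1 (List.all_eq_true.1 mem_P80_aux l
    (List.mem_range.2 (by omega))) h (List.mem_range.2 (by omega))
  have e1 : (l == 0) = false := by simp; omega
  have e2 : (h == 0) = false := by simp; omega
  rw [e1, e2, h5, Bool.not_true, Bool.false_or, Bool.false_or, Bool.false_or] at a1
  simpa using a1

/-- from `run_P80` and `List.all_eq_true` -/
theorem concl_of (B W A V C U : ℕ × ℕ) (hB : B ∈ P80) (hW : W ∈ P80) (hA : A ∈ P80)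
    (hV : V ∈ P80) (hC : C ∈ P80) (hU : U ∈ P80) (h1 : chk1 B W = true) (h2 : chk2 B W A = true)
    (h3 : chk3 B W A V = true) (h4 : chk4 B W A V C = true) (h5 : chk5 B W A V C U = true) :
    concl B W A V C U = true := by
  have h := run_P80
  unfold run at h
  have a1 := List.all_eq_true.1 (List.all_eq_true.1 h B hB) W hW
  rw [h1, Bool.not_true, Bool.false_or] at a1
  have a2 := List.all_eq_true.1 a1 A hA
  rw [h2, Bool.not_true, Bool.false_or] at a2
  have a3 := List.all_eq_true.1 a2 V hV
  rw [h3, Bool.not_true, Bool.false_or] at a3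
  have a4 := List.all_eq_true.1 a3 C hC
  rw [h4, Bool.not_true, Bool.false_or] at a4
  have a5 := List.all_eq_true.1 a4 U hU
  rw [h5, Bool.not_true, Bool.false_or] at a5
  exact a5

end Pool.Agent.HT
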