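import Pool.Agent.HT.F3

/-!
# Project HT, piece HT-F5: the four exceptional solutions do not occur

Notation in the proofs, for `k = 0` (the general case is the same with all indices shifted by
`sh k`; all table facts needed are decidable, one may first do `interval_cases k`).  Indices:
`a_j = 1 + j`, `b_j = 6 + j`, `c_j = 11 + j`, `[a_j*] = 16 + j`, `[b_j*] = 21 + j`,
`[c_j*] = 26 + j`.
`x = φ (S 6)` (`b_0`), `y = φ (S 10)` (`b_4`), `v = φ (S 25)` (`[b_4*]`), `A = φ (S 1)` (`a_0`),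
`u = φ (S 17)` (`[a_1*]`), `t = φ (S 22)` (`[b_1*]`), `A1 = φ (S 2)` (`a_1`).
By `fl_sh`, `pl_inv` and so on all the directions of `x, y, v, A, u, t, A1` and of their inverses
are known: `10 = sh 4 6`, `22 = sh 2 25`, `2 = sh 1 1`, `kt 6 = 22`, `kt 10 = 21 = sh 1 25`,
`kt 25 = 10`, `kt 1 = 17`, `kt 17 = 2`, `kt 22 = 7 = sh 1 6`.
Products (from `mulS` and the table): `u = x y`, `z := y u = u x` (since `S 17 = S 10 * S 12` and
`S 17 = S 12 * S 6`), `q := y x`, `z = x q = q y`, `E := y v = A q` (since `S 25 = S 1 * S 6` and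
`S 10 * S 1 = S 27 = S 1 * S 10`), `g := t x = q A1` (since `S 22 = S 10 * S 2` and
`S 2 * S 6 = S 28 = S 6 * S 2`).
We use `lw_mul_of`: `¬ lo g⁻¹ ≤ hi h → lw (g h) = lw g + lw h`, then `hi_le_of_lw`,
`lo_inv_le_of_lw`, and `up_mul_of`: `¬ lo h ≤ hi g⁻¹ → up (g h) = up g + up h`, then `lo_le_of_up`,
`hi_inv_le_of_up`; always `1 < lo g`, `hi g < δ`, and `lo g ≤ hi g` if `g` is not a power of `δ`.
(`E` and `g` are not powers of `δ` because `lw` and `up` are additive for the products `y v` and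
`t x`; `q` has length 2.)
-/

namespace Pool.Agent.HT

namespace H3F

variable {G : Type*} [Group G] [Lattice G] (H : H3F G)

private theorem F5a_lt {φ : G →* G} (hφ : H.NH φ) {i : ℕ} (h1 : 1 ≤ i) (h2 : i ≤ 30) :
    H.lw (φ (H.S i))⁻¹ < H.up (φ (H.S i))⁻¹ := by
  have h3 := H.nonpow hφ h1 h2
  rw [H.toGar.lw_inv, H.toGar.up_inv]
  omega

private theorem F5a_lo {φ : G →* G} (hφ : H.NH φ) {i m : ℕ} (h1 : 1 ≤ i) (h2 : i ≤ 30)
    (h : H.fl φ i = m) : H.lo (φ (H.S i)) = H.S m := by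
  rw [← h]
  exact (H.S_pl (H.nonpow hφ h1 h2)).symm

private theorem F5a_hi {φ : G →* G} (hφ : H.NH φ) {i m : ℕ} (h1 : 1 ≤ i) (h2 : i ≤ 30)
    (h : H.fh φ i = m) : H.hi (φ (H.S i)) = H.S m := by
  rw [← h]
  exact (H.S_ph (H.nonpow hφ h1 h2)).symm

private theorem F5a_loi {φ : G →* G} (hφ : H.NH φ) {i m : ℕ} (h1 : 1 ≤ i) (h2 : i ≤ 30)
    (h : H.fl φ (kt i) = m) : H.lo (φ (H.S i))⁻¹ = H.S m := by
  rw [← h, ← H.pl_inv hφ h1 h2]
  exact (H.S_pl (F5a_lt H hφ h1 h2)).symm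

private theorem F5a_hii {φ : G →* G} (hφ : H.NH φ) {i m : ℕ} (h1 : 1 ≤ i) (h2 : i ≤ 30)
    (h : H.fh φ (kt i) = m) : H.hi (φ (H.S i))⁻¹ = H.S m := by
  rw [← h, ← H.ph_inv hφ h1 h2]
  exact (H.S_ph (F5a_lt H hφ h1 h2)).symm

private theorem F5a_nle {i j : ℕ} (hi : i < 32) (hj : j < 32) (h : leT i j = false) :
    ¬ H.S i ≤ H.S j := fun hc => by
  have h1 := (H.le_iff i hi j hj).1 hc
  rw [h] at h1
  exact Bool.false_ne_true h1

private theorem F5a_idx {g : G} (h1 : 1 < g) (h2 : g ≤ H.δ) : ∃ i < 32, i ≠ 0 ∧ H.S i = g := by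
  obtain ⟨i, hi, hi'⟩ := H.cover g h1.le h2
  refine ⟨i, hi, ?_, hi'⟩
  rintro rfl
  rw [H.S_zero] at hi'
  exact h1.ne hi'

private theorem F5a_idx' {g : G} (h1 : 1 ≤ g) (h2 : g < H.δ) : ∃ i < 31, H.S i = g := by
  obtain ⟨i, hi, hi'⟩ := H.cover g h1 h2.le
  refine ⟨i, ?_, hi'⟩
  have h3 : i ≠ 31 := by
    rintro rfl
    rw [H.S_last] at hi'
    exact h2.ne hi'.symm
  omega

/-- Here `D(x) = a_0`, `D(x⁻¹) = [b_1*]`, `D(y) = a_4`, `D(y⁻¹) = [b_0*]`, `D(v) = [b_4*]`,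
`D(v⁻¹) = a_4`, `D(u) = a_0`, `D(u⁻¹) = [b_0*]`, `D(A) = [b_4*]`.
1. `E = y v`: `[b_0*] ≤ [b_4*]` is false, so `lo E⁻¹ ≤ lo v⁻¹ = a_4`, `lo E⁻¹ = a_4`; and
   `lo v = [b_4*] ≤ hi y⁻¹ = [b_0*]` is false, so `lo E ≤ lo y = a_4`.
2. `z = y u`: `[b_0*] ≤ a_0` is false, so `lo z⁻¹ ≤ lo u⁻¹ = [b_0*]`; `z = u x`: `[b_0*] ≤ a_0` is
   false, so `lo z⁻¹ ≤ lo x⁻¹ = [b_1*]`; hence `lo z⁻¹ = a_1` (the only element `> 1` below both).
3. `q = y x`: `[b_0*] ≤ a_0` false, so `a_4 = hi y ≤ hi q`.  `z = x q`: `[b_1*] = lo x⁻¹ ≤ hi q`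
   would give `hi q = [b_1*]` (`hi q < δ`) but `a_4 ≤ [b_1*]` is false; so
   `a_1 = lo z⁻¹ ≤ lo q⁻¹`.
4. `A = E q⁻¹`: if `lo q⁻¹ ≤ hi E⁻¹` then `a_1 ≤ hi E⁻¹` and `a_4 = lo E⁻¹ ≤ hi E⁻¹ < δ`, which is
   impossible; so `[b_4*] = lo A ≤ lo E ≤ a_4`, false. -/
theorem excl1 {φ : G →* G} (hφ : H.NH φ) (k : ℕ) (hk : k < 5)
    (hb : H.fl φ 6 = sh k 1) (hb' : H.fh φ 6 = sh k 1)
    (hw : H.fl φ 25 = sh k 25) (hw' : H.fh φ 25 = sh k 25)
    (ha : H.fl φ 1 = sh k 25) (ha' : H.fh φ 1 = sh k 25)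
    (hv : H.fl φ 17 = sh k 1) (hv' : H.fh φ 17 = sh k 1) : False := by
  have m1 : H.S 6 * H.S 10 = H.S 17 := H.mulS 6 (by decide) 10 (by decide) (by decide +kernel)
  have m2 : H.S 10 * H.S 12 = H.S 17 := H.mulS 10 (by decide) 12 (by decide) (by decide +kernel)
  have m3 : H.S 12 * H.S 6 = H.S 17 := H.mulS 12 (by decide) 6 (by decide) (by decide +kernel)
  have m4 : H.S 1 * H.S 6 = H.S 25 := H.mulS 1 (by decide) 6 (by decide) (by decide +kernel)
  have m5 : H.S 10 * H.S 1 = H.S 27 := H.mulS 10 (by decide) 1 (by decide) (by decide +kernel)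
  have m6 : H.S 1 * H.S 10 = H.S 27 := H.mulS 1 (by decide) 10 (by decide) (by decide +kernel)
  have s10 : sh 4 6 = 10 := by decide +kernel
  have s22 : sh 2 25 = 22 := by decide +kernel
  have s21 : sh 1 25 = 21 := by decide +kernel
  have s2 : sh 1 1 = 2 := by decide +kernel
  -- the directions of the images
  have f10 := H.fl_sh hφ (i := 6) (by decide) (by decide) 4
  have g10 := H.fh_sh hφ (i := 6) (by decide) (by decide) 4
  have f22 := H.fl_sh hφ (i := 25) (by decide) (by decide) 2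
  have f21 := H.fl_sh hφ (i := 25) (by decide) (by decide) 1
  have g21 := H.fh_sh hφ (i := 25) (by decide) (by decide) 1
  have f2 := H.fl_sh hφ (i := 1) (by decide) (by decide) 1
  rw [s10, hb] at f10
  rw [s10, hb'] at g10
  rw [s22, hw] at f22
  rw [s21, hw] at f21
  rw [s21, hw'] at g21
  rw [s2, ha] at f2
  have k6 : kt 6 = 22 := by decide +kernel
  have k10 : kt 10 = 21 := by decide +kernel
  have k25 : kt 25 = 10 := by decide +kernel
  have k17 : kt 17 = 2 := by decide +kernel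
  have xhi : H.hi (φ (H.S 6)) = H.S (sh k 1) := F5a_hi H hφ (by decide) (by decide) hb'
  have xloi : H.lo (φ (H.S 6))⁻¹ = H.S (sh 2 (sh k 25)) :=
    F5a_loi H hφ (by decide) (by decide) (by rw [k6, f22])
  have ylo : H.lo (φ (H.S 10)) = H.S (sh 4 (sh k 1)) :=
    F5a_lo H hφ (by decide) (by decide) f10
  have yhi : H.hi (φ (H.S 10)) = H.S (sh 4 (sh k 1)) :=
    F5a_hi H hφ (by decide) (by decide) g10
  have yloi : H.lo (φ (H.S 10))⁻¹ = H.S (sh 1 (sh k 25)) :=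
    F5a_loi H hφ (by decide) (by decide) (by rw [k10, f21])
  have yhii : H.hi (φ (H.S 10))⁻¹ = H.S (sh 1 (sh k 25)) :=
    F5a_hii H hφ (by decide) (by decide) (by rw [k10, g21])
  have vlo : H.lo (φ (H.S 25)) = H.S (sh k 25) := F5a_lo H hφ (by decide) (by decide) hw
  have vhi : H.hi (φ (H.S 25)) = H.S (sh k 25) := F5a_hi H hφ (by decide) (by decide) hw'
  have vloi : H.lo (φ (H.S 25))⁻¹ = H.S (sh 4 (sh k 1)) :=
    F5a_loi H hφ (by decide) (by decide) (by rw [k25, f10])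
  have uhi : H.hi (φ (H.S 17)) = H.S (sh k 1) := F5a_hi H hφ (by decide) (by decide) hv'
  have uloi : H.lo (φ (H.S 17))⁻¹ = H.S (sh 1 (sh k 25)) :=
    F5a_loi H hφ (by decide) (by decide) (by rw [k17, f2])
  have Alo : H.lo (φ (H.S 1)) = H.S (sh k 25) := F5a_lo H hφ (by decide) (by decide) ha
  have yn := H.nonpow hφ (i := 10) (by decide) (by decide)
  have vn := H.nonpow hφ (i := 25) (by decide) (by decide)
  -- the products
  have e1 : φ (H.S 6) * φ (H.S 10) = φ (H.S 17) := by rw [← map_mul, m1]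
  have e2 : φ (H.S 10) * φ (H.S 17) = φ (H.S 17) * φ (H.S 6) := by
    rw [← map_mul, ← map_mul]
    congr 1
    calc H.S 10 * H.S 17 = H.S 10 * (H.S 12 * H.S 6) := by rw [m3]
      _ = (H.S 10 * H.S 12) * H.S 6 := (mul_assoc _ _ _).symm
      _ = H.S 17 * H.S 6 := by rw [m2]
  have e3 : φ (H.S 10) * φ (H.S 25) = φ (H.S 1) * (φ (H.S 10) * φ (H.S 6)) := by
    rw [← map_mul, ← map_mul, ← map_mul]
    congr 1
    calc H.S 10 * H.S 25 = H.S 10 * (H.S 1 * H.S 6) := by rw [m4]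
      _ = (H.S 10 * H.S 1) * H.S 6 := (mul_assoc _ _ _).symm
      _ = (H.S 1 * H.S 10) * H.S 6 := by rw [m5, m6]
      _ = H.S 1 * (H.S 10 * H.S 6) := mul_assoc _ _ _
  generalize φ (H.S 6) = x at *
  generalize φ (H.S 10) = y at *
  generalize φ (H.S 25) = v at *
  generalize φ (H.S 17) = u at *
  generalize φ (H.S 1) = A at *
  -- bounds for the indices and facts of the table
  have b25 : sh k 25 < 32 := sh_lt (by decide)
  have b1 : sh k 1 < 32 := sh_lt (by decide)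
  have c25 : sh 1 (sh k 25) < 32 := sh_lt b25
  have d25 : sh 2 (sh k 25) < 32 := sh_lt b25
  have d1 : sh 4 (sh k 1) < 32 := sh_lt b1
  have t1 : ∀ k < 5, leT (sh 1 (sh k 25)) (sh k 25) = false := by decide +kernel
  have t2 : ∀ k < 5, leT (sh k 25) (sh 1 (sh k 25)) = false := by decide +kernel
  have t3 : ∀ k < 5, leT (sh 1 (sh k 25)) (sh k 1) = false := by decide +kernel
  have t4 : ∀ k < 5, ∀ i < 32, i ≠ 0 → leT i (sh 4 (sh k 1)) = true → i = sh 4 (sh k 1) := by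
    decide +kernel
  have t5 : ∀ k < 5, ∀ i < 32, i ≠ 0 → leT i (sh 1 (sh k 25)) = true →
      leT i (sh 2 (sh k 25)) = true → i = sh k 2 := by decide +kernel
  have t6 : ∀ k < 5, ∀ i < 31, leT (sh 2 (sh k 25)) i = true →
      leT (sh 4 (sh k 1)) i = false := by decide +kernel
  have t7 : ∀ k < 5, ∀ i < 31, leT (sh k 2) i = true →
      leT (sh 4 (sh k 1)) i = false := by decide +kernel
  have t8 : ∀ k < 5, leT (sh k 25) (sh 4 (sh k 1)) = false := by decide +kernel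
  -- step 1
  have p1 : H.lw (y * v) = H.lw y + H.lw v := by
    apply H.toGar.lw_mul_of
    rw [yloi, vhi]
    exact F5a_nle H c25 b25 (t1 k hk)
  have p2 : H.up (y * v) = H.up y + H.up v := by
    apply H.toGar.up_mul_of
    rw [vlo, yhii]
    exact F5a_nle H b25 c25 (t2 k hk)
  have En : H.lw (y * v) < H.up (y * v) := by rw [p1, p2]; omega
  have Eni : H.lw (y * v)⁻¹ < H.up (y * v)⁻¹ := by
    rw [H.toGar.lw_inv, H.toGar.up_inv]
    omega
  have q1 := H.toGar.lo_inv_le_of_lw y v p1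
  have q2 := H.toGar.lo_le_of_up y v p2
  rw [vloi] at q1
  rw [ylo] at q2
  have r1 : H.lo (y * v)⁻¹ = H.S (sh 4 (sh k 1)) := by
    obtain ⟨i, hi, h0, hi'⟩ := F5a_idx H (H.toGar.one_lt_lo (y * v)⁻¹)
      (H.toGar.lo_lt_δ _ Eni).le
    rw [← hi'] at q1 ⊢
    rw [t4 k hk i hi h0 ((H.le_iff i hi _ d1).1 q1)]
  -- step 2
  have p3 : H.lw (y * u) = H.lw y + H.lw u := by
    apply H.toGar.lw_mul_of
    rw [yloi, uhi]
    exact F5a_nle H c25 b1 (t3 k hk)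
  have p4 : H.lw (u * x) = H.lw u + H.lw x := by
    apply H.toGar.lw_mul_of
    rw [uloi, xhi]
    exact F5a_nle H c25 b1 (t3 k hk)
  have q3 := H.toGar.lo_inv_le_of_lw y u p3
  have q4 := H.toGar.lo_inv_le_of_lw u x p4
  rw [e2, uloi] at q3
  rw [xloi] at q4
  have r2 : H.lo (u * x)⁻¹ = H.S (sh k 2) := by
    have h1 : H.S (sh 1 (sh k 25)) ≤ H.δ := by
      rw [← yhii]
      exact H.toGar.hi_le_δ _
    obtain ⟨i, hi, h0, hi'⟩ := F5a_idx H (H.toGar.one_lt_lo (u * x)⁻¹) (q3.trans h1)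
    rw [← hi'] at q3 q4 ⊢
    rw [t5 k hk i hi h0 ((H.le_iff i hi _ c25).1 q3) ((H.le_iff i hi _ d25).1 q4)]
  -- step 3
  have p5 : H.lw (y * x) = H.lw y + H.lw x := by
    apply H.toGar.lw_mul_of
    rw [yloi, xhi]
    exact F5a_nle H c25 b1 (t3 k hk)
  have q5 := H.toGar.hi_le_of_lw y x p5
  rw [yhi] at q5
  have r3 : ¬ H.lo x⁻¹ ≤ H.hi (y * x) := by
    intro hc
    rw [xloi] at hc
    have h1 : (1 : G) ≤ H.hi (y * x) := by
      refine le_trans ?_ hc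
      rw [← xloi]
      exact H.toGar.one_le_lo _
    obtain ⟨i, hi, hi'⟩ := F5a_idx' H h1 (H.toGar.hi_lt_δ (y * x))
    rw [← hi'] at q5 hc
    have h2 := t6 k hk i hi ((H.le_iff _ d25 i (by omega)).1 hc)
    rw [(H.le_iff _ d1 i (by omega)).1 q5] at h2
    exact Bool.noConfusion h2
  have p6 := H.toGar.lw_mul_of x (y * x) r3
  have q6 := H.toGar.lo_inv_le_of_lw x (y * x) p6
  rw [← mul_assoc, e1, r2] at q6
  -- step 4
  have r4 : ¬ H.lo (y * x)⁻¹ ≤ H.hi (y * v)⁻¹ := by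
    intro hc
    have h1 := q6.trans hc
    have h2 := H.toGar.lo_le_hi _ Eni
    rw [r1] at h2
    have h3 : (1 : G) ≤ H.hi (y * v)⁻¹ := (H.toGar.one_lt_hi _ Eni).le
    obtain ⟨i, hi, hi'⟩ := F5a_idx' H h3 (H.toGar.hi_lt_δ (y * v)⁻¹)
    rw [← hi'] at h1 h2
    have h4 := t7 k hk i hi ((H.le_iff _ (sh_lt (by decide)) i (by omega)).1 h1)
    rw [(H.le_iff _ d1 i (by omega)).1 h2] at h4
    exact Bool.noConfusion h4
  have p7 := H.toGar.up_mul_of (y * v) (y * x)⁻¹ r4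
  have q7 := H.toGar.lo_le_of_up (y * v) (y * x)⁻¹ p7
  have e4 : (y * v) * (y * x)⁻¹ = A := by rw [e3, mul_inv_cancel_right]
  rw [e4, Alo] at q7
  exact F5a_nle H b25 d1 (t8 k hk) (q7.trans q2)

/-- (piece HT-F5b) the directions of the image of a simple element -/
private theorem F5b_dir {φ : G →* G} (hφ : H.NH φ) {i n j n' m k : ℕ} (h1 : 1 ≤ i) (h2 : i ≤ 30)
    (hf : H.fl φ i = sh k n) (hf' : H.fh φ i = sh k n) (e : sh m i = j)
    (e' : sh m (sh k n) = sh k n') : H.fl φ j = sh k n' ∧ H.fh φ j = sh k n' := by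
  rw [← e, H.fl_sh hφ h1 h2, H.fh_sh hφ h1 h2, hf, hf', e']
  exact ⟨rfl, rfl⟩

private theorem F5b_lo {φ : G →* G} (hφ : H.NH φ) {i n k : ℕ} (h1 : 1 ≤ i) (h2 : i ≤ 30)
    (hf : H.fl φ i = sh k n) : H.lo (φ (H.S i)) = H.S (sh k n) := by
  rw [← H.S_pl (H.nonpow hφ h1 h2), ← hf]
  rfl

private theorem F5b_hi {φ : G →* G} (hφ : H.NH φ) {i n k : ℕ} (h1 : 1 ≤ i) (h2 : i ≤ 30)
    (hf : H.fh φ i = sh k n) : H.hi (φ (H.S i)) = H.S (sh k n) := by
  rw [← H.S_ph (H.nonpow hφ h1 h2), ← hf]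
  rfl

private theorem F5b_nonpow_inv {g : G} (hg : H.lw g < H.up g) : H.lw g⁻¹ < H.up g⁻¹ := by
  rw [H.lw_inv, H.up_inv]
  omega

private theorem F5b_lo_inv {φ : G →* G} (hφ : H.NH φ) {i j n k : ℕ} (h1 : 1 ≤ i) (h2 : i ≤ 30)
    (e : kt i = j) (hf : H.fl φ j = sh k n) : H.lo (φ (H.S i))⁻¹ = H.S (sh k n) := by
  rw [← H.S_pl (H.F5b_nonpow_inv (H.nonpow hφ h1 h2)), ← hf, H.pl_inv hφ h1 h2, e]

private theorem F5b_hi_inv {φ : G →* G} (hφ : H.NH φ) {i j n k : ℕ} (h1 : 1 ≤ i) (h2 : i ≤ 30)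
    (e : kt i = j) (hf : H.fh φ j = sh k n) : H.hi (φ (H.S i))⁻¹ = H.S (sh k n) := by
  rw [← H.S_ph (H.F5b_nonpow_inv (H.nonpow hφ h1 h2)), ← hf, H.ph_inv hφ h1 h2, e]

private theorem F5b_nle {k i j : ℕ} (hi : sh k i < 32) (hj : sh k j < 32)
    (h : leT (sh k i) (sh k j) = false) : ¬ H.S (sh k i) ≤ H.S (sh k j) := by
  rw [H.le_iff _ hi _ hj, h]
  decide

private theorem F5b_S_le_δ {i : ℕ} (hi : i ≤ 31) : H.S i ≤ H.δ := by
  rcases Nat.lt_or_ge i 31 with h | h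
  · exact (H.S_lt_δ (by omega)).le
  · have : i = 31 := by omega
    rw [this, H.S_last]

/-- no element `> 1` is below both `S a` and `S b` if the meet in the table is `0` -/
private theorem F5b_low {g : G} {a b : ℕ} (ha : a < 32) (hb : b < 32) (h1 : 1 < g)
    (h2 : g ≤ H.S a) (h3 : g ≤ H.S b)
    (hd : ∀ i < 32, leT i a = true → leT i b = true → i = 0) : False := by
  obtain ⟨i, hi, rfl⟩ := H.cover g h1.le (h2.trans (H.F5b_S_le_δ (by omega)))
  have h4 := hd i hi ((H.le_iff i hi a ha).1 h2) ((H.le_iff i hi b hb).1 h3)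
  rw [h4, H.S_zero] at h1
  exact lt_irrefl _ h1

/-- an element `< δ` above `S a` and `S b` is `S c` -/
private theorem F5b_top {g : G} {a b c : ℕ} (ha : a < 32) (hb : b < 32) (h0 : 1 ≤ g)
    (h1 : g < H.δ) (h2 : H.S a ≤ g) (h3 : H.S b ≤ g)
    (hd : ∀ i < 31, leT a i = true → leT b i = true → i = c) : g = H.S c := by
  obtain ⟨i, hi, rfl⟩ := H.cover g h0 h1.le
  have h5 : i ≠ 31 := by
    intro h
    rw [h, H.S_last] at h1
    exact lt_irrefl _ h1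
  rw [hd i (by omega) ((H.le_iff a ha i hi).1 h2) ((H.le_iff b hb i hi).1 h3)]

/-- Here `D(x) = b_0`, `D(x⁻¹) = [a_3*]`, `D(y) = b_4`, `D(y⁻¹) = [a_2*]`, `D(u) = b_0`,
`D(u⁻¹) = [a_2*]`, `D(t) = [a_3*]`, `D(t⁻¹) = b_1`, `D(A1) = [a_2*]`.
1. `g = t x`: `b_1 ≤ b_0` is false, so `[a_3*] = hi t ≤ hi g`, `hi g = [a_3*]`; also
   `lo x = b_0 ≤ hi t⁻¹ = b_1` is false, so `up` is additive as well and `g` is not a power.
2. `q = y x`: `[a_2*] ≤ b_0` is false, so `lo q⁻¹ ≤ lo x⁻¹ = [a_3*]`.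
3. `z = y u`: `[a_2*] ≤ b_0` is false: `b_4 = hi y ≤ hi z`; `z = u x`: `[a_2*] ≤ b_0` is false:
   `b_0 = hi u ≤ hi z`; so `hi z = [a_1*]`.
4. `z = q y`: `lo q⁻¹ ≤ hi y = b_4` would give `lo q⁻¹ = b_4`, but `b_4 ≤ [a_3*]` is false; so
   `hi q ≤ hi z = [a_1*]`.
5. `A1 = q⁻¹ g`: if `lo g ≤ hi q` then `lo g ≤ [a_1*]` and `lo g ≤ hi g = [a_3*]`, so `lo g = 1`,
   impossible.  So `up` is additive for `q⁻¹ g` and `[a_2*] = lo A1 ≤ lo q⁻¹ ≤ [a_3*]`, false. -/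
theorem excl2 {φ : G →* G} (hφ : H.NH φ) (k : ℕ) (hk : k < 5)
    (hb : H.fl φ 6 = sh k 6) (hb' : H.fh φ 6 = sh k 6)
    (hw : H.fl φ 25 = sh k 17) (hw' : H.fh φ 25 = sh k 17)
    (ha : H.fl φ 1 = sh k 17) (ha' : H.fh φ 1 = sh k 17)
    (hv : H.fl φ 17 = sh k 6) (hv' : H.fh φ 17 = sh k 6) : False := by
  have hlt : ∀ i < 32, sh k i < 32 := fun i hi => sh_lt hi
  -- directions
  obtain ⟨hy, hy'⟩ := H.F5b_dir hφ (j := 10) (n' := 10) (m := 4) (by norm_num) (by norm_num)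
    hb hb' (by decide +kernel)
    ((by decide +kernel : ∀ k < 5, sh 4 (sh k 6) = sh k 10) k hk)
  obtain ⟨ht, ht'⟩ := H.F5b_dir hφ (j := 22) (n' := 19) (m := 2) (by norm_num) (by norm_num)
    hw hw' (by decide +kernel)
    ((by decide +kernel : ∀ k < 5, sh 2 (sh k 17) = sh k 19) k hk)
  obtain ⟨hy1, hy1'⟩ := H.F5b_dir hφ (j := 21) (n' := 18) (m := 1) (by norm_num) (by norm_num)
    hw hw' (by decide +kernel)
    ((by decide +kernel : ∀ k < 5, sh 1 (sh k 17) = sh k 18) k hk)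
  obtain ⟨hA, hA'⟩ := H.F5b_dir hφ (j := 2) (n' := 18) (m := 1) (by norm_num) (by norm_num)
    ha ha' (by decide +kernel)
    ((by decide +kernel : ∀ k < 5, sh 1 (sh k 17) = sh k 18) k hk)
  obtain ⟨ht1, ht1'⟩ := H.F5b_dir hφ (j := 7) (n' := 7) (m := 1) (by norm_num) (by norm_num)
    hb hb' (by decide +kernel)
    ((by decide +kernel : ∀ k < 5, sh 1 (sh k 6) = sh k 7) k hk)
  set x := φ (H.S 6) with hx
  set y := φ (H.S 10) with hyd
  set u := φ (H.S 17) with hu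
  set t := φ (H.S 22) with htd
  set A1 := φ (H.S 2) with hA1
  have lox : H.lo x = H.S (sh k 6) := H.F5b_lo hφ (by norm_num) (by norm_num) hb
  have hix : H.hi x = H.S (sh k 6) := H.F5b_hi hφ (by norm_num) (by norm_num) hb'
  have loxi : H.lo x⁻¹ = H.S (sh k 19) :=
    H.F5b_lo_inv hφ (by norm_num) (by norm_num) (by decide +kernel) ht
  have hiy : H.hi y = H.S (sh k 10) := H.F5b_hi hφ (by norm_num) (by norm_num) hy'
  have loyi : H.lo y⁻¹ = H.S (sh k 18) :=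
    H.F5b_lo_inv hφ (by norm_num) (by norm_num) (by decide +kernel) hy1
  have hiu : H.hi u = H.S (sh k 6) := H.F5b_hi hφ (by norm_num) (by norm_num) hv'
  have loui : H.lo u⁻¹ = H.S (sh k 18) :=
    H.F5b_lo_inv hφ (by norm_num) (by norm_num) (by decide +kernel) hA
  have hit : H.hi t = H.S (sh k 19) := H.F5b_hi hφ (by norm_num) (by norm_num) ht'
  have loti : H.lo t⁻¹ = H.S (sh k 7) :=
    H.F5b_lo_inv hφ (by norm_num) (by norm_num) (by decide +kernel) ht1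
  have hiti : H.hi t⁻¹ = H.S (sh k 7) :=
    H.F5b_hi_inv hφ (by norm_num) (by norm_num) (by decide +kernel) ht1'
  have loA : H.lo A1 = H.S (sh k 18) := H.F5b_lo hφ (by norm_num) (by norm_num) hA
  have nx : H.lw x < H.up x := H.nonpow hφ (by norm_num) (by norm_num)
  have ny : H.lw y < H.up y := H.nonpow hφ (by norm_num) (by norm_num)
  have nt : H.lw t < H.up t := H.nonpow hφ (by norm_num) (by norm_num)
  have nu : H.lw u < H.up u := H.nonpow hφ (by norm_num) (by norm_num)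
  -- products
  have m1 : H.S 6 * H.S 10 = H.S 17 := H.mulS 6 (by norm_num) 10 (by norm_num) (by decide +kernel)
  have m4 : H.S 22 = H.S 10 * H.S 2 :=
    (H.mulS 10 (by norm_num) 2 (by norm_num) (by decide +kernel)).symm
  have m5 : H.S 2 * H.S 6 = H.S 28 := H.mulS 2 (by norm_num) 6 (by norm_num) (by decide +kernel)
  have m6 : H.S 6 * H.S 2 = H.S 28 := H.mulS 6 (by norm_num) 2 (by norm_num) (by decide +kernel)
  have eu : u = x * y := by rw [hu, hx, hyd, ← map_mul, m1]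
  have ez : y * u = u * x := by
    have m2 : H.S 10 * H.S 12 = H.S 17 :=
      H.mulS 10 (by norm_num) 12 (by norm_num) (by decide +kernel)
    have m3 : H.S 12 * H.S 6 = H.S 17 :=
      H.mulS 12 (by norm_num) 6 (by norm_num) (by decide +kernel)
    rw [hu, hx, hyd, ← map_mul, ← map_mul]
    congr 1
    rw [← m3, ← mul_assoc, m2, m3]
  have eq1 : y * u = y * x * y := by rw [eu, mul_assoc]
  have eA : A1 = (y * x)⁻¹ * (t * x) := by
    rw [eq_inv_mul_iff_mul_eq, hA1, hx, hyd, htd, m4, ← map_mul, ← map_mul, ← map_mul]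
    congr 1
    rw [mul_assoc, mul_assoc, m6, m5]
  -- 1
  have g1 : H.lw (t * x) = H.lw t + H.lw x := by
    apply H.lw_mul_of
    rw [loti, hix]
    exact H.F5b_nle (hlt _ (by norm_num)) (hlt _ (by norm_num))
      ((by decide +kernel : ∀ k < 5, leT (sh k 7) (sh k 6) = false) k hk)
  have g2 : H.up (t * x) = H.up t + H.up x := by
    apply H.up_mul_of
    rw [hiti, lox]
    exact H.F5b_nle (hlt _ (by norm_num)) (hlt _ (by norm_num))
      ((by decide +kernel : ∀ k < 5, leT (sh k 6) (sh k 7) = false) k hk)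
  have ng : H.lw (t * x) < H.up (t * x) := by omega
  have g3 : H.hi (t * x) = H.S (sh k 19) := by
    have h := H.hi_le_of_lw t x g1
    rw [hit] at h
    exact H.F5b_top (hlt _ (by norm_num)) (hlt _ (by norm_num)) (H.one_lt_hi _ ng).le
      (H.hi_lt_δ _) h h
      ((by decide +kernel : ∀ k < 5, ∀ i < 31, leT (sh k 19) i = true → leT (sh k 19) i = true →
        i = sh k 19) k hk)
  -- 2
  have q1 : H.lo (y * x)⁻¹ ≤ H.S (sh k 19) := by
    rw [← loxi]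
    apply H.lo_inv_le_of_lw
    apply H.lw_mul_of
    rw [loyi, hix]
    exact H.F5b_nle (hlt _ (by norm_num)) (hlt _ (by norm_num))
      ((by decide +kernel : ∀ k < 5, leT (sh k 18) (sh k 6) = false) k hk)
  -- 3
  have z0 : ∀ a b : ℕ, a = 18 → b = 6 → ¬ H.S (sh k a) ≤ H.S (sh k b) := by
    rintro a b rfl rfl
    exact H.F5b_nle (hlt _ (by norm_num)) (hlt _ (by norm_num))
      ((by decide +kernel : ∀ k < 5, leT (sh k 18) (sh k 6) = false) k hk)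
  have z1 : H.lw (y * u) = H.lw y + H.lw u := by
    apply H.lw_mul_of
    rw [loyi, hiu]
    exact z0 _ _ rfl rfl
  have z2 : H.S (sh k 10) ≤ H.hi (y * u) := by
    rw [← hiy]
    exact H.hi_le_of_lw _ _ z1
  have z3 : H.S (sh k 6) ≤ H.hi (y * u) := by
    rw [← hiu, ez]
    apply H.hi_le_of_lw
    apply H.lw_mul_of
    rw [loui, hix]
    exact z0 _ _ rfl rfl
  have z5 : 1 ≤ H.hi (y * u) :=
    (H.one_lt_S ((by decide +kernel : ∀ k < 5, 1 ≤ sh k 10) k hk)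
      ((by decide +kernel : ∀ k < 5, sh k 10 ≤ 30) k hk)).le.trans z2
  have z4 : H.hi (y * u) = H.S (sh k 17) :=
    H.F5b_top (hlt _ (by norm_num)) (hlt _ (by norm_num)) z5 (H.hi_lt_δ _) z2 z3
      ((by decide +kernel : ∀ k < 5, ∀ i < 31, leT (sh k 10) i = true → leT (sh k 6) i = true →
        i = sh k 17) k hk)
  -- 4
  have q2 : H.lw (y * x * y) = H.lw (y * x) + H.lw y := by
    apply H.lw_mul_of
    intro h
    rw [hiy] at h
    exact H.F5b_low (hlt _ (by norm_num)) (hlt _ (by norm_num)) (H.one_lt_lo _) h q1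
      ((by decide +kernel : ∀ k < 5, ∀ i < 32, leT i (sh k 10) = true → leT i (sh k 19) = true →
        i = 0) k hk)
  have q3 : H.hi (y * x) ≤ H.S (sh k 17) := by
    rw [← z4, eq1]
    exact H.hi_le_of_lw _ _ q2
  -- 5
  have f1 : H.up ((y * x)⁻¹ * (t * x)) = H.up (y * x)⁻¹ + H.up (t * x) := by
    apply H.up_mul_of
    rw [inv_inv]
    intro h
    have h1 := H.lo_le_hi _ ng
    rw [g3] at h1
    exact H.F5b_low (hlt _ (by norm_num)) (hlt _ (by norm_num)) (H.one_lt_lo _) (h.trans q3) h1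
      ((by decide +kernel : ∀ k < 5, ∀ i < 32, leT i (sh k 17) = true → leT i (sh k 19) = true →
        i = 0) k hk)
  have f2 := H.lo_le_of_up _ _ f1
  rw [← eA, loA] at f2
  exact H.F5b_nle (hlt _ (by norm_num)) (hlt _ (by norm_num))
    ((by decide +kernel : ∀ k < 5, leT (sh k 18) (sh k 19) = false) k hk) (f2.trans q1)

private theorem F5c_dir {φ : G →* G} (hφ : H.NH φ) {i d : ℕ} (h1 : 1 ≤ i) (h2 : i ≤ 30)
    (hl : H.fl φ i = d) (hh : H.fh φ i = d) :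
    H.toGar.lo (φ (H.S i)) = H.S d ∧ H.toGar.hi (φ (H.S i)) = H.S d := by
  have hn := H.nonpow hφ h1 h2
  constructor
  · rw [← hl, fl, H.S_pl hn]
  · rw [← hh, fh, H.S_ph hn]

private theorem F5c_inv {φ : G →* G} (hφ : H.NH φ) {i d : ℕ} (h1 : 1 ≤ i) (h2 : i ≤ 30)
    (hl : H.fl φ (kt i) = d) (hh : H.fh φ (kt i) = d) :
    H.toGar.lo (φ (H.S i))⁻¹ = H.S d ∧ H.toGar.hi (φ (H.S i))⁻¹ = H.S d := by
  have hn := H.nonpow hφ h1 h2
  have hn' : H.lw (φ (H.S i))⁻¹ < H.up (φ (H.S i))⁻¹ := by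
    rw [H.lw_inv, H.up_inv]; omega
  constructor
  · rw [← hl, ← H.pl_inv hφ h1 h2, H.S_pl hn']
  · rw [← hh, ← H.ph_inv hφ h1 h2, H.S_ph hn']

/-- an element strictly below `δ` which is at least `1` has an index below `31` -/
private theorem F5c_idx {g : G} (h1 : 1 < g) (h2 : g < H.δ) :
    ∃ i, 1 ≤ i ∧ i ≤ 30 ∧ H.S i = g :=
  ⟨H.idx g, (H.idx_proper h1 h2).1, (H.idx_proper h1 h2).2, (H.S_idx h1.le h2.le).2⟩

/-- Here `D(x) = [b_4*]`, `D(x⁻¹) = a_1`, `D(y) = [b_3*]`, `D(y⁻¹) = a_0`, `D(u) = [b_4*]`,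
`D(u⁻¹) = a_0`, `D(t) = a_1`, `D(t⁻¹) = [b_0*]`, `D(A1) = a_0`.
1. `g = t x`: `lo x = [b_4*] ≤ hi t⁻¹ = [b_0*]` is false, so `lo g ≤ lo t = a_1`, `lo g = a_1`;
   `lo t⁻¹ = [b_0*] ≤ hi x = [b_4*]` is false, so `lw` is additive as well and `g` is not a power.
2. `q = y x`: `lo x = [b_4*] ≤ hi y⁻¹ = a_0` is false, so `a_1 = hi x⁻¹ ≤ hi q⁻¹`.
3. `z = y u`: `[b_4*] ≤ a_0` is false: `lo z ≤ lo y = [b_3*]`; `z = u x`: `[b_4*] ≤ a_0` is false:
   `lo z ≤ lo u = [b_4*]`; so `lo z = a_4`.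
4. `z = q y`: `lo y = [b_3*] ≤ hi q⁻¹` would give `hi q⁻¹ = [b_3*]`, but `a_1 ≤ [b_3*]` is false;
   so `a_4 = lo z ≤ lo q ≤ hi q`.
5. `A1 = q⁻¹ g`: if `lo q ≤ hi g` then `a_4 ≤ hi g` and `a_1 = lo g ≤ hi g < δ`, impossible.  So
   `lw` is additive for `q⁻¹ g` and `a_1 ≤ hi q⁻¹ ≤ hi A1 = a_0`, false. -/
theorem excl3 {φ : G →* G} (hφ : H.NH φ) (k : ℕ) (hk : k < 5)
    (hb : H.fl φ 6 = sh k 25) (hb' : H.fh φ 6 = sh k 25)
    (hw : H.fl φ 25 = sh k 5) (hw' : H.fh φ 25 = sh k 5)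
    (ha : H.fl φ 1 = sh k 5) (ha' : H.fh φ 1 = sh k 5)
    (hv : H.fl φ 17 = sh k 25) (hv' : H.fh φ 17 = sh k 25) : False := by
  -- the tables
  have T : ∀ i < 5, (leT (sh i 25) (sh 1 (sh i 25)) = false ∧
      leT (sh 1 (sh i 25)) (sh i 25) = false ∧
      leT (sh i 25) (sh 1 (sh i 5)) = false ∧
      leT (sh 2 (sh i 5)) (sh 4 (sh i 25)) = false ∧
      leT (sh 2 (sh i 5)) (sh 1 (sh i 5)) = false) ∧
      (sh 2 (sh i 5) ≤ 15 ∧ sh 1 (sh i 5) ≤ 15 ∧ sh i 5 ≤ 15 ∧ 16 ≤ sh 4 (sh i 25) ∧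
        sh 4 (sh i 25) ≤ 30 ∧ 16 ≤ sh i 25 ∧ sh i 25 ≤ 30 ∧ 1 ≤ sh 2 (sh i 5) ∧ 1 ≤ sh i 5) := by
    decide +kernel
  have T4 : ∀ i < 5, ∀ j < 31, (1 ≤ j ∧ leT j (sh 2 (sh i 5)) = true) →
      j = sh 2 (sh i 5) := by
    decide +kernel
  have T4' : ∀ i < 5, ∀ j < 31, (1 ≤ j ∧ leT j (sh 4 (sh i 25)) = true ∧
      leT j (sh i 25) = true) → j = sh i 5 := by
    decide +kernel
  have T5 : ∀ i < 5, ∀ j < 31, leT (sh 4 (sh i 25)) j = true → j = sh 4 (sh i 25) := by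
    decide +kernel
  have T6 : ∀ i < 5, ∀ j < 31, ¬ (leT (sh 2 (sh i 5)) j = true ∧
      leT (sh i 5) j = true) := by
    decide +kernel
  obtain ⟨⟨n1, n2, n3, n4, n5⟩, b1, b2, b3, b4, b5, b6, b7, b8, b9⟩ := T k hk
  -- the directions
  have e10 : (10 : ℕ) = sh 4 6 := by decide +kernel
  have e22 : (22 : ℕ) = sh 2 25 := by decide +kernel
  have e21 : (21 : ℕ) = sh 1 25 := by decide +kernel
  have e2 : (2 : ℕ) = sh 1 1 := by decide +kernel
  have e7 : (7 : ℕ) = sh 1 6 := by decide +kernel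
  have k6 : kt 6 = 22 := by decide +kernel
  have k10 : kt 10 = 21 := by decide +kernel
  have k17 : kt 17 = 2 := by decide +kernel
  have k22 : kt 22 = 7 := by decide +kernel
  have f10 : H.fl φ 10 = sh 4 (sh k 25) := by
    rw [e10, H.fl_sh hφ (by norm_num) (by norm_num) 4, hb]
  have f10' : H.fh φ 10 = sh 4 (sh k 25) := by
    rw [e10, H.fh_sh hφ (by norm_num) (by norm_num) 4, hb']
  have f22 : H.fl φ 22 = sh 2 (sh k 5) := by
    rw [e22, H.fl_sh hφ (by norm_num) (by norm_num) 2, hw]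
  have f22' : H.fh φ 22 = sh 2 (sh k 5) := by
    rw [e22, H.fh_sh hφ (by norm_num) (by norm_num) 2, hw']
  have f21 : H.fl φ 21 = sh 1 (sh k 5) := by
    rw [e21, H.fl_sh hφ (by norm_num) (by norm_num) 1, hw]
  have f21' : H.fh φ 21 = sh 1 (sh k 5) := by
    rw [e21, H.fh_sh hφ (by norm_num) (by norm_num) 1, hw']
  have f2 : H.fl φ 2 = sh 1 (sh k 5) := by
    rw [e2, H.fl_sh hφ (by norm_num) (by norm_num) 1, ha]
  have f2' : H.fh φ 2 = sh 1 (sh k 5) := by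
    rw [e2, H.fh_sh hφ (by norm_num) (by norm_num) 1, ha']
  have f7 : H.fl φ 7 = sh 1 (sh k 25) := by
    rw [e7, H.fl_sh hφ (by norm_num) (by norm_num) 1, hb]
  have f7' : H.fh φ 7 = sh 1 (sh k 25) := by
    rw [e7, H.fh_sh hφ (by norm_num) (by norm_num) 1, hb']
  have dx := H.F5c_dir hφ (i := 6) (by norm_num) (by norm_num) hb hb'
  have dxi := H.F5c_inv hφ (i := 6) (d := sh 2 (sh k 5)) (by norm_num) (by norm_num)
    (by rw [k6]; exact f22) (by rw [k6]; exact f22')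
  have dy := H.F5c_dir hφ (i := 10) (by norm_num) (by norm_num) f10 f10'
  have dyi := H.F5c_inv hφ (i := 10) (d := sh 1 (sh k 5)) (by norm_num) (by norm_num)
    (by rw [k10]; exact f21) (by rw [k10]; exact f21')
  have du := H.F5c_dir hφ (i := 17) (by norm_num) (by norm_num) hv hv'
  have dui := H.F5c_inv hφ (i := 17) (d := sh 1 (sh k 5)) (by norm_num) (by norm_num)
    (by rw [k17]; exact f2) (by rw [k17]; exact f2')
  have dt := H.F5c_dir hφ (i := 22) (by norm_num) (by norm_num) f22 f22'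
  have dti := H.F5c_inv hφ (i := 22) (d := sh 1 (sh k 25)) (by norm_num) (by norm_num)
    (by rw [k22]; exact f7) (by rw [k22]; exact f7')
  have dA := H.F5c_dir hφ (i := 2) (by norm_num) (by norm_num) f2 f2'
  -- the products
  have tm1 : H.S 6 * H.S 10 = H.S 17 := by
    have := H.mulS 6 (by norm_num) 10 (by norm_num) (by decide +kernel)
    rwa [show tm 6 10 = 17 by decide +kernel] at this
  have tm2 : H.S 22 = H.S 10 * H.S 2 := by
    have := H.mulS 10 (by norm_num) 2 (by norm_num) (by decide +kernel)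
    rw [show tm 10 2 = 22 by decide +kernel] at this
    exact this.symm
  have tm3 : H.S 2 * H.S 6 = H.S 6 * H.S 2 := by
    have h1 := H.mulS 2 (by norm_num) 6 (by norm_num) (by decide +kernel)
    have h2 := H.mulS 6 (by norm_num) 2 (by norm_num) (by decide +kernel)
    rw [h1, h2]
    exact congrArg H.S (by decide +kernel)
  have tm4 : H.S 10 * H.S 17 = H.S 17 * H.S 6 := by
    have h1 := H.mulS 10 (by norm_num) 12 (by norm_num) (by decide +kernel)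
    have h2 := H.mulS 12 (by norm_num) 6 (by norm_num) (by decide +kernel)
    rw [show tm 10 12 = 17 by decide +kernel] at h1
    rw [show tm 12 6 = 17 by decide +kernel] at h2
    calc H.S 10 * H.S 17 = H.S 10 * (H.S 12 * H.S 6) := by rw [h2]
      _ = (H.S 10 * H.S 12) * H.S 6 := by rw [mul_assoc]
      _ = H.S 17 * H.S 6 := by rw [h1]
  have r1 : φ (H.S 6) * φ (H.S 10) = φ (H.S 17) := by rw [← map_mul, tm1]
  have r2 : φ (H.S 22) = φ (H.S 10) * φ (H.S 2) := by rw [← map_mul, ← tm2]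
  have r3 : φ (H.S 2) * φ (H.S 6) = φ (H.S 6) * φ (H.S 2) := by
    rw [← map_mul, tm3, map_mul]
  have r4 : φ (H.S 10) * φ (H.S 17) = φ (H.S 17) * φ (H.S 6) := by
    rw [← map_mul, tm4, map_mul]
  have nx := H.nonpow hφ (i := 6) (by norm_num) (by norm_num)
  have nt := H.nonpow hφ (i := 22) (by norm_num) (by norm_num)
  generalize φ (H.S 6) = x at *
  generalize φ (H.S 10) = y at *
  generalize φ (H.S 17) = u at *
  generalize φ (H.S 22) = t at *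
  generalize φ (H.S 2) = A at *
  obtain ⟨dx1, dx2⟩ := dx
  obtain ⟨dxi1, dxi2⟩ := dxi
  obtain ⟨dy1, dy2⟩ := dy
  obtain ⟨dyi1, dyi2⟩ := dyi
  obtain ⟨du1, du2⟩ := du
  obtain ⟨dui1, dui2⟩ := dui
  obtain ⟨dt1, dt2⟩ := dt
  obtain ⟨dti1, dti2⟩ := dti
  obtain ⟨dA1, dA2⟩ := dA
  have ble : ∀ i j, i < 32 → j < 32 → leT i j = false → ¬ H.S i ≤ H.S j := by
    intro i j hi hj h h'
    rw [H.le_iff i hi j hj] at h'
    rw [h] at h'
    exact absurd h' (by decide)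
  have tle : ∀ i j, i < 32 → j < 32 → H.S i ≤ H.S j → leT i j = true := by
    intro i j hi hj h'
    rwa [H.le_iff i hi j hj] at h'
  have l0 : sh k 25 < 32 := sh_lt (by norm_num)
  have l0' : sh k 5 < 32 := sh_lt (by norm_num)
  have l1 : sh 1 (sh k 25) < 32 := sh_lt l0
  have l4 : sh 4 (sh k 25) < 32 := sh_lt l0
  have l1' : sh 1 (sh k 5) < 32 := sh_lt l0'
  have l2' : sh 2 (sh k 5) < 32 := sh_lt l0'
  -- step 1
  have g1 : H.up (t * x) = H.up t + H.up x := H.up_mul_of t x (by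
    rw [dx1, dti2]; exact ble _ _ l0 l1 n1)
  have g2 : H.lw (t * x) = H.lw t + H.lw x := H.lw_mul_of t x (by
    rw [dti1, dx2]; exact ble _ _ l1 l0 n2)
  have gn : H.lw (t * x) < H.up (t * x) := by rw [g1, g2]; omega
  have g3 : H.toGar.lo (t * x) = H.S (sh 2 (sh k 5)) := by
    have h1 : H.toGar.lo (t * x) ≤ H.S (sh 2 (sh k 5)) := by
      rw [← dt1]; exact H.toGar.lo_le_of_up t x g1
    obtain ⟨j, j1, j2, j3⟩ := H.F5c_idx (H.toGar.one_lt_lo (t * x)) (H.toGar.lo_lt_δ _ gn)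
    rw [← j3] at h1 ⊢
    rw [T4 k hk j (by omega) ⟨j1, tle _ _ (by omega) l2' h1⟩]
  have g4 := H.toGar.lo_le_hi _ gn
  -- step 2
  have q1 : H.up (y * x) = H.up y + H.up x := H.up_mul_of y x (by
    rw [dx1, dyi2]; exact ble _ _ l0 l1' n3)
  have q2 : H.S (sh 2 (sh k 5)) ≤ H.toGar.hi (y * x)⁻¹ := by
    rw [← dxi2]; exact H.toGar.hi_inv_le_of_up y x q1
  -- step 3
  have z1 : H.toGar.lo (y * u) ≤ H.S (sh 4 (sh k 25)) := by
    rw [← dy1]
    refine H.toGar.lo_le_of_up y u (H.up_mul_of y u ?_)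
    rw [du1, dyi2]; exact ble _ _ l0 l1' n3
  have z2 : H.toGar.lo (y * u) ≤ H.S (sh k 25) := by
    rw [← du1, r4]
    refine H.toGar.lo_le_of_up u x (H.up_mul_of u x ?_)
    rw [dx1, dui2]; exact ble _ _ l0 l1' n3
  have z3 : H.toGar.lo (y * u) = H.S (sh k 5) := by
    obtain ⟨j, j1, j2, j3⟩ := H.F5c_idx (H.toGar.one_lt_lo (y * u))
      (lt_of_le_of_lt z2 (H.S_lt_δ b7))
    rw [← j3] at z1 z2 ⊢
    rw [T4' k hk j (by omega) ⟨j1, tle _ _ (by omega) l4 z1, tle _ _ (by omega) l0 z2⟩]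
  -- step 4
  have q3 : ¬ H.toGar.lo y ≤ H.toGar.hi (y * x)⁻¹ := by
    rw [dy1]
    intro h
    obtain ⟨j, j1, j2, j3⟩ := H.F5c_idx
      (lt_of_lt_of_le (H.one_lt_S b8 (by omega)) q2) (H.toGar.hi_lt_δ (y * x)⁻¹)
    rw [← j3] at h q2
    have h5 := T5 k hk j (by omega) (tle _ _ l4 (by omega) h)
    rw [h5] at q2
    exact ble _ _ l2' l4 n4 q2
  have zq : y * u = (y * x) * y := by rw [← r1, mul_assoc]
  have q4 : H.S (sh k 5) ≤ H.toGar.lo (y * x) := by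
    rw [← z3, zq]
    exact H.toGar.lo_le_of_up _ _ (H.up_mul_of _ _ q3)
  -- step 5
  have q5 : ¬ H.toGar.lo (y * x) ≤ H.toGar.hi (t * x) := by
    intro h
    have h1 := le_trans q4 h
    rw [g3] at g4
    obtain ⟨j, j1, j2, j3⟩ := H.F5c_idx
      (lt_of_lt_of_le (H.one_lt_S b9 (by omega)) h1) (H.toGar.hi_lt_δ (t * x))
    rw [← j3] at h1 g4
    exact T6 k hk j (by omega) ⟨tle _ _ l2' (by omega) g4, tle _ _ l0' (by omega) h1⟩
  have q6 : H.lw ((y * x)⁻¹ * (t * x)) = H.lw (y * x)⁻¹ + H.lw (t * x) :=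
    H.lw_mul_of _ _ (by rw [inv_inv]; exact q5)
  have q7 := H.toGar.hi_le_of_lw _ _ q6
  have q8 : (y * x)⁻¹ * (t * x) = A := by
    rw [r2, mul_assoc y A x, r3]
    group
  rw [q8, dA2] at q7
  exact ble _ _ l2' l1' n5 (le_trans q2 q7)

private theorem E4_lo {φ : G →* G} (hφ : H.NH φ) {i m : ℕ} (h1 : 1 ≤ i) (h2 : i ≤ 30)
    (e : H.fl φ i = m) : H.lo (φ (H.S i)) = H.S m := by
  rw [← e]
  exact (H.S_pl (H.nonpow hφ h1 h2)).symm

private theorem E4_hi {φ : G →* G} (hφ : H.NH φ) {i m : ℕ} (h1 : 1 ≤ i) (h2 : i ≤ 30)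
    (e : H.fh φ i = m) : H.hi (φ (H.S i)) = H.S m := by
  rw [← e]
  exact (H.S_ph (H.nonpow hφ h1 h2)).symm

private theorem E4_loi {φ : G →* G} (hφ : H.NH φ) {i m : ℕ} (h1 : 1 ≤ i) (h2 : i ≤ 30)
    (e : H.fl φ (kt i) = m) : H.lo (φ (H.S i))⁻¹ = H.S m := by
  have h3 := H.nonpow hφ h1 h2
  have h4 : H.lw (φ (H.S i))⁻¹ < H.up (φ (H.S i))⁻¹ := by
    rw [H.toGar.lw_inv, H.toGar.up_inv]
    omega
  rw [← H.S_pl h4, H.pl_inv hφ h1 h2, e]

private theorem E4_hii {φ : G →* G} (hφ : H.NH φ) {i m : ℕ} (h1 : 1 ≤ i) (h2 : i ≤ 30)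
    (e : H.fh φ (kt i) = m) : H.hi (φ (H.S i))⁻¹ = H.S m := by
  have h3 := H.nonpow hφ h1 h2
  have h4 : H.lw (φ (H.S i))⁻¹ < H.up (φ (H.S i))⁻¹ := by
    rw [H.toGar.lw_inv, H.toGar.up_inv]
    omega
  rw [← H.S_ph h4, H.ph_inv hφ h1 h2, e]

/-- the group relations of the header for any homomorphism -/
private theorem E4_rel (φ : G →* G) :
    φ (H.S 17) = φ (H.S 6) * φ (H.S 10) ∧
      φ (H.S 10) * φ (H.S 17) = φ (H.S 17) * φ (H.S 6) ∧
      φ (H.S 10) * φ (H.S 25) = φ (H.S 1) * (φ (H.S 10) * φ (H.S 6)) := by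
  have e1 : H.S 6 * H.S 10 = H.S 17 := H.mulS 6 (by norm_num) 10 (by norm_num) (by decide +kernel)
  have e2 : H.S 10 * H.S 12 = H.S 17 :=
    H.mulS 10 (by norm_num) 12 (by norm_num) (by decide +kernel)
  have e3 : H.S 12 * H.S 6 = H.S 17 :=
    H.mulS 12 (by norm_num) 6 (by norm_num) (by decide +kernel)
  have e4 : H.S 1 * H.S 6 = H.S 25 :=
    H.mulS 1 (by norm_num) 6 (by norm_num) (by decide +kernel)
  have e5 : H.S 10 * H.S 1 = H.S 27 :=
    H.mulS 10 (by norm_num) 1 (by norm_num) (by decide +kernel)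
  have e6 : H.S 1 * H.S 10 = H.S 27 :=
    H.mulS 1 (by norm_num) 10 (by norm_num) (by decide +kernel)
  refine ⟨by rw [← map_mul, e1], ?_, ?_⟩
  · rw [← map_mul, ← map_mul]
    have : H.S 10 * H.S 17 = H.S 17 * H.S 6 := by
      rw [← e3, ← mul_assoc, e2, e3]
    rw [this]
  · rw [← map_mul, ← map_mul, ← map_mul]
    have : H.S 10 * H.S 25 = H.S 1 * (H.S 10 * H.S 6) := by
      rw [← e4, ← mul_assoc, e5, ← mul_assoc, e6]
    rw [this]

private theorem E4_tab : ∀ k < 5, leT (sh k 10) (sh 1 (sh k 10)) = false ∧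
    leT (sh 1 (sh k 10)) (sh k 10) = false ∧ leT (sh k 17) (sh 1 (sh k 10)) = false ∧
    leT (sh 2 (sh k 10)) (sh 4 (sh k 17)) = false ∧ leT (sh 4 (sh k 17)) (sh k 10) = false ∧
    sh k 10 < 32 ∧ sh 1 (sh k 10) < 32 ∧ sh 2 (sh k 10) < 32 ∧ sh k 17 < 32 ∧
    sh 4 (sh k 17) < 32 := by
  decide +kernel

private theorem E4_tab1 : ∀ k < 5, ∀ i < 32, leT (sh 4 (sh k 17)) i = true →
    i = sh 4 (sh k 17) ∨ i = 31 := by
  decide +kernel

private theorem E4_tab2 : ∀ k < 5, ∀ i < 32, leT i (sh 2 (sh k 10)) = true →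
    i = sh 2 (sh k 10) ∨ i = 0 := by
  decide +kernel

private theorem E4_tab3 : ∀ k < 5, ∀ j < 32, ∀ i < 32, (leT (sh 1 (sh k 10)) j &&
    leT (sh 2 (sh k 10)) j && leT i j && leT i (sh 4 (sh k 17))) = true → j = 31 ∨ i = 0 := by
  decide +kernel

/-- Here `D(x) = [a_1*]`, `D(x⁻¹) = b_1`, `D(y) = [a_0*]`, `D(y⁻¹) = b_0`, `D(v) = b_4`,
`D(v⁻¹) = [a_0*]`, `D(u) = [a_1*]`, `D(u⁻¹) = b_0`, `D(A) = b_4`.
1. `E = y v`: `lo v = b_4 ≤ hi y⁻¹ = b_0` is false, so `[a_0*] = hi v⁻¹ ≤ hi E⁻¹`,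
   `hi E⁻¹ = [a_0*]`; `lo y⁻¹ = b_0 ≤ hi v = b_4` is false, so `[a_0*] = hi y ≤ hi E`.
2. `z = y u`: `[a_1*] ≤ b_0` is false: `b_0 = hi u⁻¹ ≤ hi z⁻¹`; `z = u x`: `[a_1*] ≤ b_0` is false:
   `b_1 = hi x⁻¹ ≤ hi z⁻¹`; so `hi z⁻¹ = [a_2*]`.
3. `q = y x`: `[a_1*] ≤ b_0` is false, so `lo q ≤ lo y = [a_0*]`.  `z = x q`:
   `lo q ≤ hi x⁻¹ = b_1` would give `lo q = b_1`, but `b_1 ≤ [a_0*]` is false; so
   `hi q⁻¹ ≤ hi z⁻¹ = [a_2*]`.
4. `A = E q⁻¹`: if `lo E⁻¹ ≤ hi q⁻¹` then `lo E⁻¹ ≤ [a_2*]` and `lo E⁻¹ ≤ hi E⁻¹ = [a_0*]`, so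
   `lo E⁻¹ = 1`, impossible; so `lw` is additive for `E q⁻¹` and
   `[a_0*] ≤ hi E ≤ hi A = b_4`, false. -/
theorem excl4 {φ : G →* G} (hφ : H.NH φ) (k : ℕ) (hk : k < 5)
    (hb : H.fl φ 6 = sh k 17) (hb' : H.fh φ 6 = sh k 17)
    (hw : H.fl φ 25 = sh k 10) (hw' : H.fh φ 25 = sh k 10)
    (ha : H.fl φ 1 = sh k 10) (ha' : H.fh φ 1 = sh k 10)
    (hv : H.fl φ 17 = sh k 17) (hv' : H.fh φ 17 = sh k 17) : False := by
  obtain ⟨t1, t2, t3, t4, t5, b1, b2, b3, b4, b5⟩ := E4_tab k hk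
  obtain ⟨r1, r2, r3⟩ := H.E4_rel φ
  -- the directions
  have dx : H.lo (φ (H.S 6)) = H.S (sh k 17) := H.E4_lo hφ (by norm_num) (by norm_num) hb
  have dxi : H.hi (φ (H.S 6))⁻¹ = H.S (sh 2 (sh k 10)) :=
    H.E4_hii hφ (by norm_num) (by norm_num)
      ((H.fh_sh hφ (i := 25) (by norm_num) (by norm_num) 2).trans (by rw [hw']))
  have dyl : H.lo (φ (H.S 10)) = H.S (sh 4 (sh k 17)) :=
    H.E4_lo hφ (by norm_num) (by norm_num)
      ((H.fl_sh hφ (i := 6) (by norm_num) (by norm_num) 4).trans (by rw [hb]))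
  have dyh : H.hi (φ (H.S 10)) = H.S (sh 4 (sh k 17)) :=
    H.E4_hi hφ (by norm_num) (by norm_num)
      ((H.fh_sh hφ (i := 6) (by norm_num) (by norm_num) 4).trans (by rw [hb']))
  have dyil : H.lo (φ (H.S 10))⁻¹ = H.S (sh 1 (sh k 10)) :=
    H.E4_loi hφ (by norm_num) (by norm_num)
      ((H.fl_sh hφ (i := 25) (by norm_num) (by norm_num) 1).trans (by rw [hw]))
  have dyih : H.hi (φ (H.S 10))⁻¹ = H.S (sh 1 (sh k 10)) :=
    H.E4_hii hφ (by norm_num) (by norm_num)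
      ((H.fh_sh hφ (i := 25) (by norm_num) (by norm_num) 1).trans (by rw [hw']))
  have dvl : H.lo (φ (H.S 25)) = H.S (sh k 10) := H.E4_lo hφ (by norm_num) (by norm_num) hw
  have dvh : H.hi (φ (H.S 25)) = H.S (sh k 10) := H.E4_hi hφ (by norm_num) (by norm_num) hw'
  have dvi : H.hi (φ (H.S 25))⁻¹ = H.S (sh 4 (sh k 17)) :=
    H.E4_hii hφ (by norm_num) (by norm_num)
      ((H.fh_sh hφ (i := 6) (by norm_num) (by norm_num) 4).trans (by rw [hb']))
  have du : H.lo (φ (H.S 17)) = H.S (sh k 17) := H.E4_lo hφ (by norm_num) (by norm_num) hv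
  have dui : H.hi (φ (H.S 17))⁻¹ = H.S (sh 1 (sh k 10)) :=
    H.E4_hii hφ (by norm_num) (by norm_num)
      ((H.fh_sh hφ (i := 1) (by norm_num) (by norm_num) 1).trans (by rw [ha']))
  have dA : H.hi (φ (H.S 1)) = H.S (sh k 10) := H.E4_hi hφ (by norm_num) (by norm_num) ha'
  have ny := H.nonpow hφ (i := 10) (by norm_num) (by norm_num)
  have nv := H.nonpow hφ (i := 25) (by norm_num) (by norm_num)
  generalize φ (H.S 6) = x at *
  generalize φ (H.S 10) = y at *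
  generalize φ (H.S 25) = v at *
  generalize φ (H.S 17) = u at *
  generalize φ (H.S 1) = A at *
  have exh : ∀ g : G, 1 ≤ H.hi g → ∃ i < 31, H.hi g = H.S i := by
    intro g hg
    have q1 := H.toGar.hi_lt_δ g
    obtain ⟨i, hi, e⟩ := H.cover (H.hi g) hg q1.le
    refine ⟨i, ?_, e.symm⟩
    have : i ≠ 31 := by
      rintro rfl
      rw [← e, H.S_last] at q1
      exact absurd q1 (lt_irrefl _)
    omega
  have pos : ∀ i < 32, 1 ≤ H.S i := by
    intro i hi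
    rw [← H.S_zero, H.le_iff _ (by norm_num) _ hi]
    revert i
    decide +kernel
  have led : ∀ i < 32, H.S i ≤ H.δ := by
    intro i hi
    rw [← H.S_last, H.le_iff _ hi _ (by norm_num)]
    revert i
    decide +kernel
  -- 1.
  have s1 : H.up (y * v) = H.up y + H.up v := by
    apply H.toGar.up_mul_of
    rw [dvl, dyih, H.le_iff _ b1 _ b2, t1]
    exact Bool.false_ne_true
  have s2 : H.lw (y * v) = H.lw y + H.lw v := by
    apply H.toGar.lw_mul_of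
    rw [dyil, dvh, H.le_iff _ b2 _ b1, t2]
    exact Bool.false_ne_true
  have s3 := H.toGar.hi_inv_le_of_up y v s1
  have s4 := H.toGar.hi_le_of_lw y v s2
  rw [dvi] at s3
  rw [dyh] at s4
  have s5 : H.hi (y * v)⁻¹ = H.S (sh 4 (sh k 17)) := by
    obtain ⟨i, hi, e⟩ := exh (y * v)⁻¹ ((pos _ b5).trans s3)
    rw [e, H.le_iff _ b5 _ (by omega)] at s3
    rcases E4_tab1 k hk i (by omega) s3 with h | h
    · rw [e, h]
    · omega
  have s6 : H.lo (y * v)⁻¹ ≤ H.S (sh 4 (sh k 17)) := by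
    rw [← s5]
    apply H.toGar.lo_le_hi
    rw [H.toGar.lw_inv, H.toGar.up_inv]
    omega
  -- 2.
  have s7 : H.up (y * u) = H.up y + H.up u := by
    apply H.toGar.up_mul_of
    rw [du, dyih, H.le_iff _ b4 _ b2, t3]
    exact Bool.false_ne_true
  have s8 : H.up (u * x) = H.up u + H.up x := by
    apply H.toGar.up_mul_of
    rw [dx, dui, H.le_iff _ b4 _ b2, t3]
    exact Bool.false_ne_true
  have s9 := H.toGar.hi_inv_le_of_up y u s7
  have s10 := H.toGar.hi_inv_le_of_up u x s8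
  rw [dui] at s9
  rw [← r2, dxi] at s10
  obtain ⟨j, hj, ej⟩ := exh (y * u)⁻¹ ((pos _ b2).trans s9)
  rw [ej, H.le_iff _ b2 _ (by omega)] at s9
  rw [ej, H.le_iff _ b3 _ (by omega)] at s10
  -- 3.
  have s11 : H.up (y * x) = H.up y + H.up x := by
    apply H.toGar.up_mul_of
    rw [dx, dyih, H.le_iff _ b4 _ b2, t3]
    exact Bool.false_ne_true
  have s12 := H.toGar.lo_le_of_up y x s11
  rw [dyl] at s12
  have s13 : H.up (x * (y * x)) = H.up x + H.up (y * x) := by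
    apply H.toGar.up_mul_of
    rw [dxi]
    intro h
    have q1 := H.toGar.one_lt_lo (y * x)
    obtain ⟨i, hi, e⟩ := H.cover (H.lo (y * x)) q1.le
      (h.trans (led _ b3))
    rw [← e, H.le_iff _ hi _ b3] at h
    rcases E4_tab2 k hk i hi h with h' | h'
    · rw [← e, h', H.le_iff _ b3 _ b5, t4] at s12
      exact Bool.false_ne_true s12
    · rw [← e, h', H.S_zero] at q1
      exact lt_irrefl _ q1
  have s14 := H.toGar.hi_inv_le_of_up x (y * x) s13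
  have r4 : x * (y * x) = y * u := by
    rw [r2, r1, mul_assoc]
  rw [r4, ej] at s14
  -- 4.
  have s15 : H.lw (y * v * (y * x)⁻¹) = H.lw (y * v) + H.lw (y * x)⁻¹ := by
    apply H.toGar.lw_mul_of
    intro h
    have q1 := H.toGar.one_lt_lo (y * v)⁻¹
    obtain ⟨i, hi, e⟩ := H.cover (H.lo (y * v)⁻¹) q1.le (s6.trans (led _ b5))
    have h2 := h.trans s14
    rw [← e, H.le_iff _ hi _ (by omega)] at h2
    rw [← e, H.le_iff _ hi _ b5] at s6
    rcases E4_tab3 k hk j (by omega) i hi (by simp [s9, s10, h2, s6]) with h' | h'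
    · omega
    · rw [← e, h', H.S_zero] at q1
      exact lt_irrefl _ q1
  have s16 := H.toGar.hi_le_of_lw (y * v) (y * x)⁻¹ s15
  have r5 : y * v * (y * x)⁻¹ = A := by
    rw [r3]
    group
  rw [r5, dA] at s16
  have s17 := s4.trans s16
  rw [H.le_iff _ b5 _ b1, t5] at s17
  exact Bool.false_ne_true s17

end H3F

end Pool.Agent.HT
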