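import Pool.Agent.HT.F4
import Pool.Agent.HT.F5

/-!
# Project HT, piece HT-F6: the two types of homomorphisms
-/

namespace Pool.Agent.HT

namespace H3F

variable {G : Type*} [Group G] [Lattice G] (H : H3F G)

/-- the first type: the directions of `φ (S i)` are the single `S (sh k i)` -/
def TyI (φ : G →* G) (k : ℕ) : Prop :=
  (∀ i, 1 ≤ i → i ≤ 30 → H.fl φ i = sh k i ∧ H.fh φ i = sh k i) ∧
  ∀ i, 1 ≤ i → i ≤ 15 → H.At (φ (H.S i))

/-- the duality of the table: `x_j ↦ [x_(j+4)*]`, `[x_j*] ↦ x_(j+3)` -/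
def du (i : ℕ) : ℕ := if i ≤ 15 then sh 4 (i + 15) else sh 3 (i - 15)

/-- the second type: the directions of `φ (S i)` are the single `S (sh k (du i))` -/
def TyD (φ : G →* G) (k : ℕ) : Prop :=
  (∀ i, 1 ≤ i → i ≤ 30 → H.fl φ i = sh k (du i) ∧ H.fh φ i = sh k (du i)) ∧
  ∀ i, 1 ≤ i → i ≤ 15 → H.Co (φ (H.S i))

private theorem F6_tab : (∀ i ≤ 30, 1 ≤ i → ∃ j < 5, i = sh j 1 ∨ i = sh j 6 ∨ i = sh j 11 ∨
      i = sh j 17 ∨ i = sh j 25 ∨ i = sh j 27) ∧
    (∀ i ≤ 15, 1 ≤ i → ∃ j < 5, i = sh j 1 ∨ i = sh j 6 ∨ i = sh j 11) := by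
  decide +kernel

private theorem F6_comm : ∀ j < 5, ∀ k < 5, ∀ m < 32, sh j (sh k m) = sh k (sh j m) := by
  decide +kernel

private theorem F6_du : ∀ j < 5, du (sh j 1) = sh j 20 ∧ du (sh j 6) = sh j 25 ∧
    du (sh j 11) = sh j 30 ∧ du (sh j 17) = sh j 5 ∧ du (sh j 25) = sh j 8 ∧
    du (sh j 27) = sh j 15 := by
  decide +kernel

private theorem F6_dir {φ : G →* G} (hφ : H.NH φ) {k j m n i : ℕ} (hk : k < 5) (hj : j < 5)
    (h1 : 1 ≤ m) (h2 : m ≤ 30) (hn : n < 32) (hi : i = sh j m)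
    (h3 : H.fl φ m = sh k n) (h4 : H.fh φ m = sh k n) :
    H.fl φ i = sh k (sh j n) ∧ H.fh φ i = sh k (sh j n) := by
  subst hi
  rw [H.fl_sh hφ h1 h2, H.fh_sh hφ h1 h2, h3, h4, F6_comm j hj k hk n hn]
  exact ⟨rfl, rfl⟩

set_option linter.unusedSimpArgs false in
/-- Apply `fincheck` with `ia = lw (φ (S 1))`, `ib = lw (φ (S 6))`, `ic = lw (φ (S 11))`,
`na = up (φ (S 1)) - lw (φ (S 1))` and so on.  The hypotheses: `pr_fl_fh`; `ma`, `mb`, `mc` are
`len_ge`, `len_le'` with `len (φ (S i)) = 1`; the ten `Cor` are `corner` for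
`(x, y, z, w) = (6, 8, 10, 25)`, `(1, 6, 10, 25)`, `(6, 10, 2, 17)`, `(10, 2, 7, 22)`,
`(11, 1, 10, 25)`, `(1, 10, 12, 27)`, `(10, 12, 2, 17)`, `(5, 11, 10, 25)`, `(11, 10, 1, 16)`,
`(10, 1, 12, 27)` with `fl_sh`, `fh_sh`, `lw_sh`, `up_sh` (`8 = sh 2 6`, `10 = sh 4 6`,
`7 = sh 1 6`, `2 = sh 1 1`, `5 = sh 4 1`, `12 = sh 1 11`, `22 = sh 2 25`, `16 = sh 4 17`);
`N1a` to `N2f` are `tri_bounds` for the same triangles; `atb`, `cob` are `at_dirs`, `co_dirs` for
`6`, with `kt 6 = 22 = sh 2 25` (for single pairs `sh 2 wl = sh 2 wh` gives `wl = wh`, and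
`sh` preserves `≤ 15`); `ata`, `coa` for `1`, `kt 1 = 17`.
The last four cases of the conclusion are excluded by `excl1` to `excl4`.  In the first two cases
every `i` in `1..30` is `sh j` of one of `1, 6, 11, 17, 25, 27` with `j < 5`, so `fl_sh`, `fh_sh`
give all the values, and `At`, `Co` follow from `lw_sh`, `up_sh`. -/
theorem types {φ : G →* G} (hφ : H.NH φ) : ∃ k < 5, H.TyI φ k ∨ H.TyD φ k := by
  have s8 : sh 2 6 = 8 := by decide +kernel
  have s10 : sh 4 6 = 10 := by decide +kernel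
  have s7 : sh 1 6 = 7 := by decide +kernel
  have s2 : sh 1 1 = 2 := by decide +kernel
  have s5 : sh 4 1 = 5 := by decide +kernel
  have s12 : sh 1 11 = 12 := by decide +kernel
  have s22 : sh 2 25 = 22 := by decide +kernel
  have s16 : sh 4 17 = 16 := by decide +kernel
  have l8 : H.lw (φ (H.S 8)) = H.lw (φ (H.S 6)) := by
    rw [← s8, H.lw_sh hφ (by norm_num)]
  have u8 : H.up (φ (H.S 8)) = H.up (φ (H.S 6)) := by
    rw [← s8, H.up_sh hφ (by norm_num)]
  have f10 : H.fl φ 10 = sh 4 (H.fl φ 6) := by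
    rw [← H.fl_sh hφ (by norm_num) (by norm_num), s10]
  have g10 : H.fh φ 10 = sh 4 (H.fh φ 6) := by
    rw [← H.fh_sh hφ (by norm_num) (by norm_num), s10]
  have l10 : H.lw (φ (H.S 10)) = H.lw (φ (H.S 6)) := by
    rw [← s10, H.lw_sh hφ (by norm_num)]
  have u10 : H.up (φ (H.S 10)) = H.up (φ (H.S 6)) := by
    rw [← s10, H.up_sh hφ (by norm_num)]
  have l7 : H.lw (φ (H.S 7)) = H.lw (φ (H.S 6)) := by
    rw [← s7, H.lw_sh hφ (by norm_num)]
  have u7 : H.up (φ (H.S 7)) = H.up (φ (H.S 6)) := by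
    rw [← s7, H.up_sh hφ (by norm_num)]
  have l2 : H.lw (φ (H.S 2)) = H.lw (φ (H.S 1)) := by
    rw [← s2, H.lw_sh hφ (by norm_num)]
  have u2 : H.up (φ (H.S 2)) = H.up (φ (H.S 1)) := by
    rw [← s2, H.up_sh hφ (by norm_num)]
  have f5 : H.fl φ 5 = sh 4 (H.fl φ 1) := by
    rw [← H.fl_sh hφ (by norm_num) (by norm_num), s5]
  have g5 : H.fh φ 5 = sh 4 (H.fh φ 1) := by
    rw [← H.fh_sh hφ (by norm_num) (by norm_num), s5]
  have l5 : H.lw (φ (H.S 5)) = H.lw (φ (H.S 1)) := by
    rw [← s5, H.lw_sh hφ (by norm_num)]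
  have u5 : H.up (φ (H.S 5)) = H.up (φ (H.S 1)) := by
    rw [← s5, H.up_sh hφ (by norm_num)]
  have l12 : H.lw (φ (H.S 12)) = H.lw (φ (H.S 11)) := by
    rw [← s12, H.lw_sh hφ (by norm_num)]
  have u12 : H.up (φ (H.S 12)) = H.up (φ (H.S 11)) := by
    rw [← s12, H.up_sh hφ (by norm_num)]
  have f22 : H.fl φ 22 = sh 2 (H.fl φ 25) := by
    rw [← H.fl_sh hφ (by norm_num) (by norm_num), s22]
  have g22 : H.fh φ 22 = sh 2 (H.fh φ 25) := by
    rw [← H.fh_sh hφ (by norm_num) (by norm_num), s22]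
  have f16 : H.fl φ 16 = sh 4 (H.fl φ 17) := by
    rw [← H.fl_sh hφ (by norm_num) (by norm_num), s16]
  have g16 : H.fh φ 16 = sh 4 (H.fh φ 17) := by
    rw [← H.fh_sh hφ (by norm_num) (by norm_num), s16]
  have S1 := H.corner hφ (x := 6) (y := 8) (z := 10) (w := 25) (by decide) (by decide)
    (by decide) (by decide +kernel) (by decide +kernel) (by decide)
  have T1a := H.corner hφ (x := 1) (y := 6) (z := 10) (w := 25) (by decide) (by decide)
    (by decide) (by decide +kernel) (by decide +kernel) (by decide)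
  have T1b := H.corner hφ (x := 6) (y := 10) (z := 2) (w := 17) (by decide) (by decide)
    (by decide) (by decide +kernel) (by decide +kernel) (by decide)
  have T1c := H.corner hφ (x := 10) (y := 2) (z := 7) (w := 22) (by decide) (by decide)
    (by decide) (by decide +kernel) (by decide +kernel) (by decide)
  have T2a := H.corner hφ (x := 11) (y := 1) (z := 10) (w := 25) (by decide) (by decide)
    (by decide) (by decide +kernel) (by decide +kernel) (by decide)
  have T2b := H.corner hφ (x := 1) (y := 10) (z := 12) (w := 27) (by decide) (by decide)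
    (by decide) (by decide +kernel) (by decide +kernel) (by decide)
  have T2c := H.corner hφ (x := 10) (y := 12) (z := 2) (w := 17) (by decide) (by decide)
    (by decide) (by decide +kernel) (by decide +kernel) (by decide)
  have T3a := H.corner hφ (x := 5) (y := 11) (z := 10) (w := 25) (by decide) (by decide)
    (by decide) (by decide +kernel) (by decide +kernel) (by decide)
  have T3b := H.corner hφ (x := 11) (y := 10) (z := 1) (w := 16) (by decide) (by decide)
    (by decide) (by decide +kernel) (by decide +kernel) (by decide)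
  have T3c := H.corner hφ (x := 10) (y := 1) (z := 12) (w := 27) (by decide) (by decide)
    (by decide) (by decide +kernel) (by decide +kernel) (by decide)
  have NS1 := H.tri_bounds hφ (x := 6) (y := 8) (z := 10) (w := 25) (by decide) (by decide)
    (by decide) (by decide +kernel) (by decide +kernel) (by decide)
  have NT1a := H.tri_bounds hφ (x := 1) (y := 6) (z := 10) (w := 25) (by decide) (by decide)
    (by decide) (by decide +kernel) (by decide +kernel) (by decide)
  have NT1b := H.tri_bounds hφ (x := 6) (y := 10) (z := 2) (w := 17) (by decide) (by decide)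
    (by decide) (by decide +kernel) (by decide +kernel) (by decide)
  have NT1c := H.tri_bounds hφ (x := 10) (y := 2) (z := 7) (w := 22) (by decide) (by decide)
    (by decide) (by decide +kernel) (by decide +kernel) (by decide)
  have NT2a := H.tri_bounds hφ (x := 11) (y := 1) (z := 10) (w := 25) (by decide) (by decide)
    (by decide) (by decide +kernel) (by decide +kernel) (by decide)
  have NT2b := H.tri_bounds hφ (x := 1) (y := 10) (z := 12) (w := 27) (by decide) (by decide)
    (by decide) (by decide +kernel) (by decide +kernel) (by decide)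
  have NT2c := H.tri_bounds hφ (x := 10) (y := 12) (z := 2) (w := 17) (by decide) (by decide)
    (by decide) (by decide +kernel) (by decide +kernel) (by decide)
  have NT3a := H.tri_bounds hφ (x := 5) (y := 11) (z := 10) (w := 25) (by decide) (by decide)
    (by decide) (by decide +kernel) (by decide +kernel) (by decide)
  have NT3b := H.tri_bounds hφ (x := 11) (y := 10) (z := 1) (w := 16) (by decide) (by decide)
    (by decide) (by decide +kernel) (by decide +kernel) (by decide)
  have NT3c := H.tri_bounds hφ (x := 10) (y := 1) (z := 12) (w := 27) (by decide) (by decide)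
    (by decide) (by decide +kernel) (by decide +kernel) (by decide)
  simp only [l8, l10, l7, l2, l5, l12, u8, u10, u7, u2, u5, u12, f10, g10, f5, g5, f22, g22, f16, g16] at S1 NS1
  simp only [l8, l10, l7, l2, l5, l12, u8, u10, u7, u2, u5, u12, f10, g10, f5, g5, f22, g22, f16, g16] at T1a NT1a
  simp only [l8, l10, l7, l2, l5, l12, u8, u10, u7, u2, u5, u12, f10, g10, f5, g5, f22, g22, f16, g16] at T1b NT1b
  simp only [l8, l10, l7, l2, l5, l12, u8, u10, u7, u2, u5, u12, f10, g10, f5, g5, f22, g22, f16, g16] at T1c NT1c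
  simp only [l8, l10, l7, l2, l5, l12, u8, u10, u7, u2, u5, u12, f10, g10, f5, g5, f22, g22, f16, g16] at T2a NT2a
  simp only [l8, l10, l7, l2, l5, l12, u8, u10, u7, u2, u5, u12, f10, g10, f5, g5, f22, g22, f16, g16] at T2b NT2b
  simp only [l8, l10, l7, l2, l5, l12, u8, u10, u7, u2, u5, u12, f10, g10, f5, g5, f22, g22, f16, g16] at T2c NT2c
  simp only [l8, l10, l7, l2, l5, l12, u8, u10, u7, u2, u5, u12, f10, g10, f5, g5, f22, g22, f16, g16] at T3a NT3a
  simp only [l8, l10, l7, l2, l5, l12, u8, u10, u7, u2, u5, u12, f10, g10, f5, g5, f22, g22, f16, g16] at T3b NT3b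
  simp only [l8, l10, l7, l2, l5, l12, u8, u10, u7, u2, u5, u12, f10, g10, f5, g5, f22, g22, f16, g16] at T3c NT3c
  have r1 : H.len (φ (H.S 1)) = 1 := by
    rw [hφ.maplen, H.lenS 1 (by norm_num)]
    decide +kernel
  have r6 : H.len (φ (H.S 6)) = 1 := by
    rw [hφ.maplen, H.lenS 6 (by norm_num)]
    decide +kernel
  have r11 : H.len (φ (H.S 11)) = 1 := by
    rw [hφ.maplen, H.lenS 11 (by norm_num)]
    decide +kernel
  have p1 := H.toGar.len_ge (φ (H.S 1))
  have q1 := H.toGar.len_le' (φ (H.S 1))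
  have p6 := H.toGar.len_ge (φ (H.S 6))
  have q6 := H.toGar.len_le' (φ (H.S 6))
  have p11 := H.toGar.len_ge (φ (H.S 11))
  have q11 := H.toGar.len_le' (φ (H.S 11))
  rw [r1] at p1 q1
  rw [r6] at p6 q6
  rw [r11] at p11 q11
  have k6 : kt 6 = 22 := by decide +kernel
  have k1 : kt 1 = 17 := by decide +kernel
  have inj : ∀ i < 32, ∀ j < 32, sh 2 i = sh 2 j → i = j := by decide +kernel
  have le15 : ∀ i < 32, 1 ≤ i → (sh 2 i ≤ 15 ↔ i ≤ 15) := by decide +kernel
  have pw := H.pr_fl_fh hφ (i := 25) (by norm_num) (by norm_num)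
  have pwl : H.fl φ 25 < 32 := lt_of_le_of_lt pw.2.1 (by norm_num)
  have pwh : H.fh φ 25 < 32 := lt_of_le_of_lt pw.2.2.2.1 (by norm_num)
  obtain ⟨k, hk, h⟩ := fincheck (ia := H.lw (φ (H.S 1))) (ib := H.lw (φ (H.S 6)))
    (ic := H.lw (φ (H.S 11))) (na := H.up (φ (H.S 1)) - H.lw (φ (H.S 1)))
    (nb := H.up (φ (H.S 6)) - H.lw (φ (H.S 6))) (nc := H.up (φ (H.S 11)) - H.lw (φ (H.S 11)))
    (H.pr_fl_fh hφ (i := 6) (by norm_num) (by norm_num)) pw
    (H.pr_fl_fh hφ (i := 1) (by norm_num) (by norm_num))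
    (H.pr_fl_fh hφ (i := 17) (by norm_num) (by norm_num))
    (H.pr_fl_fh hφ (i := 11) (by norm_num) (by norm_num))
    (H.pr_fl_fh hφ (i := 27) (by norm_num) (by norm_num))
    (by omega) (by omega) (by omega) S1 T1a T1b T1c T2a T2b T2c T3a T3b T3c
    (by omega) (by omega) (by omega) (by omega) (by omega) (by omega) (by omega) (by omega)
    (by omega) (by omega) (fun h => by
      have h1 := H.at_dirs hφ (i := 6) (by norm_num) (by norm_num) (by
        unfold Gar.At
        rw [r6]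
        omega)
      rw [k6, f22, g22] at h1
      refine ⟨h1.1, h1.2.1, inj _ pwl _ pwh h1.2.2.1, ?_⟩
      have h2 := (le15 _ pwl pw.1).2
      omega) (fun h => by
      have h1 := H.co_dirs hφ (i := 6) (by norm_num) (by norm_num) (by
        unfold Gar.Co
        rw [r6]
        omega)
      rw [k6, f22, g22] at h1
      exact ⟨h1.1, h1.2.1, inj _ pwl _ pwh h1.2.2.1, (le15 _ pwl pw.1).1 h1.2.2.2⟩)
    (fun h => by
      have h1 := H.at_dirs hφ (i := 1) (by norm_num) (by norm_num) (by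
        unfold Gar.At
        rw [r1]
        omega)
      rw [k1] at h1
      exact h1) (fun h => by
      have h1 := H.co_dirs hφ (i := 1) (by norm_num) (by norm_num) (by
        unfold Gar.Co
        rw [r1]
        omega)
      rw [k1] at h1
      exact h1)
  have len1 : ∀ i ≤ 15, 1 ≤ i → rk i = 1 := by decide +kernel
  obtain ⟨t1, t2⟩ := F6_tab
  refine ⟨k, hk, ?_⟩
  rcases h with h | h | h | h | h | h
  · obtain ⟨ha, hb, hc, b1, b2, w1, w2, a1, a2, v1, v2, c1, c2, m1, m2⟩ := h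
    left
    refine ⟨fun i i1 i2 => ?_, fun i i1 i2 => ?_⟩
    · obtain ⟨j, hj, h⟩ := t1 i i2 i1
      rcases h with h | h | h | h | h | h
      · have d := H.F6_dir hφ (n := 1) hk hj (by norm_num) (by norm_num) (by norm_num) h a1 a2
        rwa [← h] at d
      · have d := H.F6_dir hφ (n := 6) hk hj (by norm_num) (by norm_num) (by norm_num) h b1 b2
        rwa [← h] at d
      · have d := H.F6_dir hφ (n := 11) hk hj (by norm_num) (by norm_num) (by norm_num) h c1 c2
        rwa [← h] at d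
      · have d := H.F6_dir hφ (n := 17) hk hj (by norm_num) (by norm_num) (by norm_num) h v1 v2
        rwa [← h] at d
      · have d := H.F6_dir hφ (n := 25) hk hj (by norm_num) (by norm_num) (by norm_num) h w1 w2
        rwa [← h] at d
      · have d := H.F6_dir hφ (n := 27) hk hj (by norm_num) (by norm_num) (by norm_num) h m1 m2
        rwa [← h] at d
    · obtain ⟨j, hj, h⟩ := t2 i i2 i1
      unfold Gar.At
      rw [hφ.maplen, H.lenS i (by omega), len1 i i2 i1]
      rcases h with h | h | h <;> subst h <;>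
        rw [H.lw_sh hφ (by norm_num), H.up_sh hφ (by norm_num)] <;> push_cast <;> omega
  · obtain ⟨ha, hb, hc, b1, b2, w1, w2, a1, a2, v1, v2, c1, c2, m1, m2⟩ := h
    right
    refine ⟨fun i i1 i2 => ?_, fun i i1 i2 => ?_⟩
    · obtain ⟨j, hj, h⟩ := t1 i i2 i1
      obtain ⟨e1, e2, e3, e4, e5, e6⟩ := F6_du j hj
      rcases h with h | h | h | h | h | h
      · have d := H.F6_dir hφ (n := 20) hk hj (by norm_num) (by norm_num) (by norm_num) h a1 a2
        rwa [← e1, ← h] at d
      · have d := H.F6_dir hφ (n := 25) hk hj (by norm_num) (by norm_num) (by norm_num) h b1 b2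
        rwa [← e2, ← h] at d
      · have d := H.F6_dir hφ (n := 30) hk hj (by norm_num) (by norm_num) (by norm_num) h c1 c2
        rwa [← e3, ← h] at d
      · have d := H.F6_dir hφ (n := 5) hk hj (by norm_num) (by norm_num) (by norm_num) h v1 v2
        rwa [← e4, ← h] at d
      · have d := H.F6_dir hφ (n := 8) hk hj (by norm_num) (by norm_num) (by norm_num) h w1 w2
        rwa [← e5, ← h] at d
      · have d := H.F6_dir hφ (n := 15) hk hj (by norm_num) (by norm_num) (by norm_num) h m1 m2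
        rwa [← e6, ← h] at d
    · obtain ⟨j, hj, h⟩ := t2 i i2 i1
      unfold Gar.Co
      rw [hφ.maplen, H.lenS i (by omega), len1 i i2 i1]
      rcases h with h | h | h <;> subst h <;>
        rw [H.lw_sh hφ (by norm_num), H.up_sh hφ (by norm_num)] <;> push_cast <;> omega
  · exact (H.excl1 hφ k hk h.1 h.2.1 h.2.2.1 h.2.2.2.1 h.2.2.2.2.1 h.2.2.2.2.2.1
      h.2.2.2.2.2.2.1 h.2.2.2.2.2.2.2).elim
  · exact (H.excl2 hφ k hk h.1 h.2.1 h.2.2.1 h.2.2.2.1 h.2.2.2.2.1 h.2.2.2.2.2.1
      h.2.2.2.2.2.2.1 h.2.2.2.2.2.2.2).elim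
  · exact (H.excl3 hφ k hk h.1 h.2.1 h.2.2.1 h.2.2.2.1 h.2.2.2.2.1 h.2.2.2.2.2.1
      h.2.2.2.2.2.2.1 h.2.2.2.2.2.2.2).elim
  · exact (H.excl4 hφ k hk h.1 h.2.1 h.2.2.1 h.2.2.2.1 h.2.2.2.2.1 h.2.2.2.2.2.1
      h.2.2.2.2.2.2.1 h.2.2.2.2.2.2.2).elim

end H3F

end Pool.Agent.HT
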