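import Pool.Agent.HT.G1

/-!
# Project HT, piece HT-G2: rules for `lw` and `up`
-/

namespace Pool.Agent.HT

namespace Gar

variable {G : Type*} [Group G] [Lattice G] (H : Gar G)

include H

theorem zpow_lw_le (g : G) : H.δ ^ H.lw g ≤ g := (H.zpow_le_iff_le_lw g _).2 le_rfl

theorem le_zpow_up (g : G) : g ≤ H.δ ^ H.up g := (H.le_zpow_iff_up_le g _).2 le_rfl

theorem lw_le_up (g : G) : H.lw g ≤ H.up g := by
  exact (H.zpow_le_iff _ _).1 (le_trans (H.zpow_lw_le g) (H.le_zpow_up g))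

/-- If `up g ≤ lw g` then `δ ^ lw g ≤ g ≤ δ ^ up g ≤ δ ^ lw g`. -/
theorem eq_zpow_of_up_le (g : G) (h : H.up g ≤ H.lw g) : g = H.δ ^ H.lw g := by
  apply le_antisymm
  · exact le_trans (H.le_zpow_up g) ((H.zpow_le_iff _ _).2 h)
  · exact H.zpow_lw_le g

theorem lw_zpow (k : ℤ) : H.lw (H.δ ^ k) = k := by
  apply le_antisymm
  · exact (H.zpow_le_iff _ _).1 (H.zpow_lw_le (H.δ ^ k))
  · exact (H.zpow_le_iff_le_lw _ _).1 le_rfl

theorem up_zpow (k : ℤ) : H.up (H.δ ^ k) = k := by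
  apply le_antisymm
  · exact (H.le_zpow_iff_up_le _ _).1 le_rfl
  · exact (H.zpow_le_iff _ _).1 (H.le_zpow_up (H.δ ^ k))

theorem lw_one : H.lw 1 = 0 := by
  have h := H.lw_zpow 0
  rwa [zpow_zero] at h

theorem up_one : H.up 1 = 0 := by
  have h := H.up_zpow 0
  rwa [zpow_zero] at h

/-- `δ^m ≤ g δ^k` iff `δ^(m-k) ≤ g` (multiply on the right). -/
theorem lw_mul_zpow (g : G) (k : ℤ) : H.lw (g * H.δ ^ k) = H.lw g + k := by
  apply eq_of_forall_le_iff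
  intro m
  rw [← H.zpow_le_iff_le_lw, ← H.mul_zpow_le_iff _ _ (-k), mul_assoc, ← zpow_add, ← zpow_add,
    add_neg_cancel, zpow_zero, mul_one, H.zpow_le_iff_le_lw]
  omega

theorem up_mul_zpow (g : G) (k : ℤ) : H.up (g * H.δ ^ k) = H.up g + k := by
  apply eq_of_forall_ge_iff
  intro m
  rw [← H.le_zpow_iff_up_le, ← H.mul_zpow_le_iff _ _ (-k), mul_assoc, ← zpow_add, ← zpow_add,
    add_neg_cancel, zpow_zero, mul_one, H.le_zpow_iff_up_le]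
  omega

/-- `δ^m ≤ δ^k g` iff `δ^(m-k) ≤ g` (multiply on the left). -/
theorem lw_zpow_mul (g : G) (k : ℤ) : H.lw (H.δ ^ k * g) = H.lw g + k := by
  apply eq_of_forall_le_iff
  intro m
  rw [← H.zpow_le_iff_le_lw, ← H.mul_le_iff (H.δ ^ (-k)), ← mul_assoc, ← zpow_add, ← zpow_add,
    neg_add_cancel, zpow_zero, one_mul, H.zpow_le_iff_le_lw]
  omega

theorem up_zpow_mul (g : G) (k : ℤ) : H.up (H.δ ^ k * g) = H.up g + k := by
  apply eq_of_forall_ge_iff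
  intro m
  rw [← H.le_zpow_iff_up_le, ← H.mul_le_iff (H.δ ^ (-k)), ← mul_assoc, ← zpow_add, ← zpow_add,
    neg_add_cancel, zpow_zero, one_mul, H.le_zpow_iff_up_le]
  omega

/-- `δ^k ≤ g⁻¹` iff `g δ^k ≤ 1` iff `g ≤ δ^(-k)`. -/
theorem lw_inv (g : G) : H.lw g⁻¹ = -H.up g := by
  apply eq_of_forall_le_iff
  intro k
  have e : g * H.δ ^ k * H.δ ^ (-k) = g := by
    rw [mul_assoc, ← zpow_add, add_neg_cancel, zpow_zero, mul_one]
  rw [← H.zpow_le_iff_le_lw, ← H.mul_le_iff g, mul_inv_cancel, ← H.mul_zpow_le_iff _ _ (-k), e,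
    one_mul, H.le_zpow_iff_up_le]
  omega

theorem up_inv (g : G) : H.up g⁻¹ = -H.lw g := by
  have h := H.lw_inv g⁻¹
  rw [inv_inv] at h
  omega

/-- `δ^(lw g + lw h) ≤ g δ^(lw h) ≤ g h`. -/
theorem lw_mul_le (g h : G) : H.lw g + H.lw h ≤ H.lw (g * h) := by
  rw [← H.zpow_le_iff_le_lw, zpow_add]
  calc H.δ ^ H.lw g * H.δ ^ H.lw h ≤ g * H.δ ^ H.lw h :=
        (H.mul_zpow_le_iff _ _ _).2 (H.zpow_lw_le g)
    _ ≤ g * h := H.mul_le _ _ _ (H.zpow_lw_le h)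

theorem up_mul_le (g h : G) : H.up (g * h) ≤ H.up g + H.up h := by
  rw [← H.le_zpow_iff_up_le, zpow_add]
  calc g * h ≤ g * H.δ ^ H.up h := H.mul_le _ _ _ (H.le_zpow_up h)
    _ ≤ H.δ ^ H.up g * H.δ ^ H.up h := (H.mul_zpow_le_iff _ _ _).2 (H.le_zpow_up g)

end Gar

end Pool.Agent.HT
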