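import Pool.Agent.HT.G2

/-!
# Project HT, piece HT-G3: the directions `lo`, `hi`
-/

namespace Pool.Agent.HT

namespace Gar

variable {G : Type*} [Group G] [Lattice G] (H : Gar G)

include H

private theorem G3_mul_zpow_lt_iff (g h : G) (k : ℤ) : g * H.δ ^ k < h * H.δ ^ k ↔ g < h := by
  rw [lt_iff_le_not_ge, lt_iff_le_not_ge, H.mul_zpow_le_iff, H.mul_zpow_le_iff]

theorem lo_mul_zpow (g : G) (k : ℤ) : H.lo (g * H.δ ^ k) = H.lo g := by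
  unfold lo
  rw [H.up_mul_zpow, mul_assoc, ← zpow_add]
  have : k + (1 - (H.up g + k)) = 1 - H.up g := by ring
  rw [this]

theorem hi_mul_zpow (g : G) (k : ℤ) : H.hi (g * H.δ ^ k) = H.hi g := by
  unfold hi
  rw [H.lw_mul_zpow, mul_assoc, ← zpow_add]
  have : k + -(H.lw g + k) = -H.lw g := by ring
  rw [this]

/-- `lo (δ^k g) = δ^k g δ^(1 - up g - k) ⊔ 1 = δ^k (g δ^(1 - up g) ⊔ 1) δ^(-k)`. -/
theorem lo_zpow_mul (g : G) (k : ℤ) : H.lo (H.δ ^ k * g) = H.δ ^ k * H.lo g * H.δ ^ (-k) := by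
  unfold lo
  rw [H.up_zpow_mul, H.mul_sup, H.sup_mul_zpow]
  have h1 : H.δ ^ k * g * H.δ ^ (1 - (H.up g + k)) =
      H.δ ^ k * (g * H.δ ^ (1 - H.up g)) * H.δ ^ (-k) := by
    have : 1 - (H.up g + k) = (1 - H.up g) + -k := by ring
    rw [this, zpow_add]
    simp only [mul_assoc]
  have h2 : H.δ ^ k * 1 * H.δ ^ (-k) = 1 := by
    rw [mul_one, ← zpow_add, add_neg_cancel, zpow_zero]
  rw [h1, h2]

theorem hi_zpow_mul (g : G) (k : ℤ) : H.hi (H.δ ^ k * g) = H.δ ^ k * H.hi g * H.δ ^ (-k) := by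
  unfold hi
  rw [H.lw_zpow_mul, H.mul_inf, H.inf_mul_zpow]
  have h1 : H.δ ^ k * g * H.δ ^ (-(H.lw g + k)) =
      H.δ ^ k * (g * H.δ ^ (-H.lw g)) * H.δ ^ (-k) := by
    have : -(H.lw g + k) = -H.lw g + -k := by ring
    rw [this, zpow_add]
    simp only [mul_assoc]
  have h2 : H.δ ^ k * H.δ * H.δ ^ (-k) = H.δ := by
    rw [← zpow_add_one, ← zpow_add]
    have : k + 1 + -k = 1 := by ring
    rw [this, zpow_one]
  rw [h1, h2]

theorem one_le_lo (g : G) : 1 ≤ H.lo g := le_sup_right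

theorem hi_le_δ (g : G) : H.hi g ≤ H.δ := inf_le_right

/-- Let `h = g δ^(-lw g)`, so `1 ≤ h`, and `h ≠ 1` since `g` is not a power of `δ`; use `pos`. -/
theorem one_lt_hi (g : G) (hg : H.lw g < H.up g) : 1 < H.hi g := by
  apply H.pos
  refine lt_of_le_of_ne ?_ fun h => ?_
  · have := (H.zpow_le_iff_le_lw (g * H.δ ^ (-H.lw g)) 0).2 (by rw [H.lw_mul_zpow]; omega)
    rwa [zpow_zero] at this
  · have h1 : H.up (g * H.δ ^ (-H.lw g)) = 0 := by rw [← h, H.up_one]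
    rw [H.up_mul_zpow] at h1
    omega

/-- Otherwise `δ ≤ g δ^(-lw g)`, so `δ^(lw g + 1) ≤ g`. -/
theorem hi_lt_δ (g : G) : H.hi g < H.δ := by
  refine lt_of_le_of_ne (H.hi_le_δ g) fun h => ?_
  have h1 : H.δ ≤ g * H.δ ^ (-H.lw g) := by
    conv_lhs => rw [← h]
    exact inf_le_left
  have h2 := (H.zpow_le_iff_le_lw (g * H.δ ^ (-H.lw g)) 1).1 (by rwa [zpow_one])
  rw [H.lw_mul_zpow] at h2
  omega

/-- Otherwise `g δ^(1 - up g) ≤ 1`, so `g ≤ δ^(up g - 1)`. -/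
theorem one_lt_lo (g : G) : 1 < H.lo g := by
  refine lt_of_le_of_ne (H.one_le_lo g) fun h => ?_
  have h1 : g * H.δ ^ (1 - H.up g) ≤ 1 := by
    conv_rhs => rw [h]
    exact le_sup_left
  have h2 := (H.le_zpow_iff_up_le (g * H.δ ^ (1 - H.up g)) 0).1 (by rwa [zpow_zero])
  rw [H.up_mul_zpow] at h2
  omega

/-- Let `h = g δ^(-up g)`, so `h ≤ 1`, and `h ≠ 1`; `lo g = h δ ⊔ 1 = (h ⊔ δ⁻¹) δ < δ` by `neg`. -/
theorem lo_lt_δ (g : G) (hg : H.lw g < H.up g) : H.lo g < H.δ := by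
  have h1 : g * H.δ ^ (-H.up g) < 1 := by
    refine lt_of_le_of_ne ?_ fun h => ?_
    · have := (H.le_zpow_iff_up_le (g * H.δ ^ (-H.up g)) 0).2 (by rw [H.up_mul_zpow]; omega)
      rwa [zpow_zero] at this
    · have h1 : H.lw (g * H.δ ^ (-H.up g)) = 0 := by rw [h, H.lw_one]
      rw [H.lw_mul_zpow] at h1
      omega
  have h2 := H.neg _ h1
  have h3 : H.lo g = (g * H.δ ^ (-H.up g) ⊔ H.δ⁻¹) * H.δ ^ (1 : ℤ) := by
    rw [H.sup_mul_zpow, mul_assoc, ← zpow_add, zpow_one, inv_mul_cancel]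
    have : -H.up g + 1 = 1 - H.up g := by ring
    rw [this]
    rfl
  have h4 : (g * H.δ ^ (-H.up g) ⊔ H.δ⁻¹) * H.δ ^ (1 : ℤ) < 1 * H.δ ^ (1 : ℤ) :=
    (G3_mul_zpow_lt_iff H _ _ _).2 h2
  rw [h3]
  calc (g * H.δ ^ (-H.up g) ⊔ H.δ⁻¹) * H.δ ^ (1 : ℤ) < H.δ ^ (1 : ℤ) := by rwa [one_mul] at h4
    _ = H.δ := zpow_one _

/-- Four inequalities: `g δ^(1 - up g) ≤ g δ^(-lw g)`, `g δ^(1 - up g) ≤ δ`, `1 ≤ g δ^(-lw g)`,
`1 ≤ δ`. -/
theorem lo_le_hi (g : G) (hg : H.lw g < H.up g) : H.lo g ≤ H.hi g := by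
  refine sup_le (le_inf ?_ ?_) (le_inf ?_ H.one_le_δ)
  · rw [H.mul_le_iff, H.zpow_le_iff]
    omega
  · have := (H.le_zpow_iff_up_le (g * H.δ ^ (1 - H.up g)) 1).2 (by rw [H.up_mul_zpow]; omega)
    rwa [zpow_one] at this
  · have := (H.zpow_le_iff_le_lw (g * H.δ ^ (-H.lw g)) 0).2 (by rw [H.lw_mul_zpow]; omega)
    rwa [zpow_zero] at this

/-- simple elements: `1 < s < δ` -/
theorem lw_simple (s : G) (h1 : 1 < s) (h2 : s < H.δ) : H.lw s = 0 := by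
  have h3 := (H.zpow_le_iff_le_lw s 0).1 (by rw [zpow_zero]; exact h1.le)
  have h4 : ¬ 1 ≤ H.lw s := fun h => by
    have := (H.zpow_le_iff_le_lw s 1).2 h
    rw [zpow_one] at this
    exact absurd h2 (not_lt_of_ge this)
  omega

theorem up_simple (s : G) (h1 : 1 < s) (h2 : s < H.δ) : H.up s = 1 := by
  have h3 := (H.le_zpow_iff_up_le s 1).1 (by rw [zpow_one]; exact h2.le)
  have h4 : ¬ H.up s ≤ 0 := fun h => by
    have := (H.le_zpow_iff_up_le s 0).2 h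
    rw [zpow_zero] at this
    exact absurd h1 (not_lt_of_ge this)
  omega

theorem lo_simple (s : G) (h1 : 1 < s) (h2 : s < H.δ) : H.lo s = s := by
  unfold lo
  rw [H.up_simple s h1 h2, sub_self, zpow_zero, mul_one]
  exact sup_eq_left.2 h1.le

theorem hi_simple (s : G) (h1 : 1 < s) (h2 : s < H.δ) : H.hi s = s := by
  unfold hi
  rw [H.lw_simple s h1 h2, neg_zero, zpow_zero, mul_one]
  exact inf_eq_left.2 h2.le

private theorem G3_inv_simple (s : G) (h1 : 1 < s) (h2 : s < H.δ) :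
    1 < s⁻¹ * H.δ ∧ s⁻¹ * H.δ < H.δ := by
  constructor
  · rw [← H.mul_lt_iff s, mul_one, mul_inv_cancel_left]
    exact h2
  · rw [← H.mul_lt_iff s, mul_inv_cancel_left]
    have := (G3_mul_zpow_lt_iff H 1 s 1).2 h1
    rwa [one_mul, zpow_one] at this

private theorem G3_inv_eq (s : G) : s⁻¹ = s⁻¹ * H.δ * H.δ ^ (-1 : ℤ) := by
  rw [mul_assoc, zpow_neg, zpow_one, mul_inv_cancel, mul_one]

/-- `s⁻¹ δ` is simple and `lo (s⁻¹) = lo (s⁻¹ δ)`. -/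
theorem lo_inv_simple (s : G) (h1 : 1 < s) (h2 : s < H.δ) : H.lo s⁻¹ = s⁻¹ * H.δ := by
  obtain ⟨h3, h4⟩ := G3_inv_simple H s h1 h2
  have h5 := H.lo_mul_zpow (s⁻¹ * H.δ) (-1)
  rw [← G3_inv_eq H s] at h5
  rw [h5, H.lo_simple _ h3 h4]

theorem hi_inv_simple (s : G) (h1 : 1 < s) (h2 : s < H.δ) : H.hi s⁻¹ = s⁻¹ * H.δ := by
  obtain ⟨h3, h4⟩ := G3_inv_simple H s h1 h2
  have h5 := H.hi_mul_zpow (s⁻¹ * H.δ) (-1)
  rw [← G3_inv_eq H s] at h5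
  rw [h5, H.hi_simple _ h3 h4]

end Gar

end Pool.Agent.HT
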