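import Pool.Agent.HT.G3

/-!
# Project HT, piece HT-G4: the criteria and the monotonicity rules
-/

namespace Pool.Agent.HT

namespace Gar

variable {G : Type*} [Group G] [Lattice G] (H : Gar G)

include H

private theorem g4_lw_right (h : G) : 1 ≤ h * H.δ ^ (-H.lw h) := by
  have e := (H.mul_zpow_le_iff (H.δ ^ H.lw h) h (-H.lw h)).2 (H.zpow_lw_le h)
  rwa [← zpow_add, add_neg_cancel, zpow_zero] at e

private theorem g4_lw_left (g : G) : g⁻¹ * H.δ ^ H.lw g ≤ 1 := by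
  have e := (H.mul_le_iff g⁻¹ (H.δ ^ H.lw g) g).2 (H.zpow_lw_le g)
  rwa [inv_mul_cancel] at e

private theorem g4_up_right (h : G) : h * H.δ ^ (-H.up h) ≤ 1 := by
  have e := (H.mul_zpow_le_iff h (H.δ ^ H.up h) (-H.up h)).2 (H.le_zpow_up h)
  rwa [← zpow_add, add_neg_cancel, zpow_zero] at e

private theorem g4_up_left (g : G) : 1 ≤ g⁻¹ * H.δ ^ H.up g := by
  have e := (H.mul_le_iff g⁻¹ g (H.δ ^ H.up g)).2 (H.le_zpow_up g)
  rwa [inv_mul_cancel] at e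

private theorem g4_lo (g : G) : H.lo g = g * H.δ ^ (1 - H.up g) ⊔ 1 := rfl

private theorem g4_hi (g : G) : H.hi g = g * H.δ ^ (-H.lw g) ⊓ H.δ := rfl

/-- Put `i = lw g`, `j = lw h`.  `i + j < lw (g h)` iff `δ^(i+j+1) ≤ g h` iff
`g⁻¹ δ^(i+1) ≤ h δ^(-j)` (left multiplication by `g⁻¹`, right multiplication by `δ^(-j)`).
Now `lo g⁻¹ = g⁻¹ δ^(1+i) ⊔ 1` since `up g⁻¹ = -i`, and `hi h = h δ^(-j) ⊓ δ`.  Since
`g⁻¹ δ^(i+1) ≤ δ` (as `δ^i ≤ g`), `1 ≤ h δ^(-j)` and `1 ≤ δ`, the inequality is equivalent to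
`lo g⁻¹ ≤ hi h`. -/
theorem crit_lw (g h : G) : H.lw g + H.lw h < H.lw (g * h) ↔ H.lo g⁻¹ ≤ H.hi h := by
  have a1 : g⁻¹ * H.δ ^ (1 + H.lw g) ≤ H.δ := by
    have e := (H.mul_zpow_le_iff (g⁻¹ * H.δ ^ H.lw g) 1 1).2 (H.g4_lw_left g)
    rwa [mul_assoc, ← zpow_add, one_mul, zpow_one, add_comm] at e
  have b1 := H.g4_lw_right h
  have key : H.δ ^ (H.lw g + H.lw h + 1) ≤ g * h ↔
      g⁻¹ * H.δ ^ (1 + H.lw g) ≤ h * H.δ ^ (-H.lw h) := by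
    rw [← H.mul_le_iff g⁻¹ (H.δ ^ (H.lw g + H.lw h + 1)) (g * h),
      ← H.mul_zpow_le_iff _ _ (-H.lw h), inv_mul_cancel_left, mul_assoc, ← zpow_add]
    have : H.lw g + H.lw h + 1 + -H.lw h = 1 + H.lw g := by ring
    rw [this]
  rw [← Int.add_one_le_iff, ← H.zpow_le_iff_le_lw, key, H.g4_lo, H.g4_hi, H.up_inv, sub_neg_eq_add]
  constructor
  · intro e
    exact sup_le (le_inf e a1) (le_inf b1 H.one_le_δ)
  · intro e
    exact (le_sup_left.trans e).trans inf_le_left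

/-- Put `p = up g`, `q = up h`.  `up (g h) < p + q` iff `g h ≤ δ^(p+q-1)` iff
`h δ^(1-q) ≤ g⁻¹ δ^p`; `lo h = h δ^(1-q) ⊔ 1` and `hi g⁻¹ = g⁻¹ δ^p ⊓ δ` since `lw g⁻¹ = -p`. -/
theorem crit_up (g h : G) : H.up (g * h) < H.up g + H.up h ↔ H.lo h ≤ H.hi g⁻¹ := by
  have a1 : h * H.δ ^ (1 - H.up h) ≤ H.δ := by
    have e := (H.mul_zpow_le_iff (h * H.δ ^ (-H.up h)) 1 1).2 (H.g4_up_right h)
    rw [mul_assoc, ← zpow_add, one_mul, zpow_one] at e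
    have : 1 - H.up h = -H.up h + 1 := by ring
    rwa [this]
  have b1 := H.g4_up_left g
  have key : g * h ≤ H.δ ^ (H.up g + H.up h - 1) ↔
      h * H.δ ^ (1 - H.up h) ≤ g⁻¹ * H.δ ^ H.up g := by
    rw [← H.mul_le_iff g⁻¹ (g * h) (H.δ ^ (H.up g + H.up h - 1)),
      ← H.mul_zpow_le_iff _ _ (1 - H.up h), inv_mul_cancel_left, mul_assoc g⁻¹, ← zpow_add]
    have : H.up g + H.up h - 1 + (1 - H.up h) = H.up g := by ring
    rw [this]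
  rw [← Int.le_sub_one_iff, ← H.le_zpow_iff_up_le, key, H.g4_lo, H.g4_hi, H.lw_inv, neg_neg]
  constructor
  · intro e
    exact sup_le (le_inf e a1) (le_inf b1 H.one_le_δ)
  · intro e
    exact (le_sup_left.trans e).trans inf_le_left

/-- From `g ≤ g h δ^(-lw h)` we get `g δ^(-lw g) ≤ g h δ^(-lw g - lw h)`. -/
theorem hi_le_of_lw (g h : G) (e : H.lw (g * h) = H.lw g + H.lw h) :
    H.hi g ≤ H.hi (g * h) := by
  rw [H.g4_hi, H.g4_hi, e]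
  refine inf_le_inf_right _ ?_
  have e1 := (H.mul_le_iff g _ _).2 (H.g4_lw_right h)
  rw [mul_one] at e1
  have e2 := (H.mul_zpow_le_iff _ _ (-H.lw g)).2 e1
  have e3 : g * (h * H.δ ^ (-H.lw h)) * H.δ ^ (-H.lw g) = g * h * H.δ ^ (-(H.lw g + H.lw h)) := by
    have : -(H.lw g + H.lw h) = -H.lw h + -H.lw g := by ring
    rw [this, zpow_add]
    group
  rwa [e3] at e2

/-- `lo (g h)⁻¹ = h⁻¹ g⁻¹ δ^(1 + lw g + lw h) ⊔ 1 ≤ h⁻¹ δ^(1 + lw h) ⊔ 1 = lo h⁻¹` since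
`g⁻¹ δ^(lw g) ≤ 1`. -/
theorem lo_inv_le_of_lw (g h : G) (e : H.lw (g * h) = H.lw g + H.lw h) :
    H.lo (g * h)⁻¹ ≤ H.lo h⁻¹ := by
  rw [H.g4_lo, H.g4_lo, H.up_inv, H.up_inv, e]
  refine sup_le_sup_right ?_ _
  have e1 := (H.mul_le_iff h⁻¹ _ _).2
    ((H.mul_zpow_le_iff _ _ (1 + H.lw h)).2 (H.g4_lw_left g))
  have e3 : h⁻¹ * (g⁻¹ * H.δ ^ H.lw g * H.δ ^ (1 + H.lw h)) =
      (g * h)⁻¹ * H.δ ^ (1 - -(H.lw g + H.lw h)) := by
    have : 1 - -(H.lw g + H.lw h) = H.lw g + (1 + H.lw h) := by ring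
    rw [this, zpow_add H.δ (H.lw g) (1 + H.lw h), mul_inv_rev]
    simp only [mul_assoc]
  rw [e3, one_mul] at e1
  rwa [sub_neg_eq_add 1 (H.lw h)]

/-- From `h ≤ δ^(up h)` we get `g h δ^(1 - up g - up h) ≤ g δ^(1 - up g)`. -/
theorem lo_le_of_up (g h : G) (e : H.up (g * h) = H.up g + H.up h) :
    H.lo (g * h) ≤ H.lo g := by
  rw [H.g4_lo, H.g4_lo, e]
  refine sup_le_sup_right ?_ _
  have e1 := (H.mul_zpow_le_iff _ _ (1 - H.up g)).2 ((H.mul_le_iff g _ _).2 (H.g4_up_right h))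
  have e3 : g * (h * H.δ ^ (-H.up h)) * H.δ ^ (1 - H.up g) =
      g * h * H.δ ^ (1 - (H.up g + H.up h)) := by
    have : 1 - (H.up g + H.up h) = -H.up h + (1 - H.up g) := by ring
    rw [this, zpow_add H.δ (-H.up h) (1 - H.up g)]
    simp only [mul_assoc]
  rwa [e3, mul_one] at e1

/-- `hi h⁻¹ = h⁻¹ δ^(up h) ⊓ δ ≤ h⁻¹ g⁻¹ δ^(up g + up h) ⊓ δ = hi (g h)⁻¹` since
`1 ≤ g⁻¹ δ^(up g)`. -/
theorem hi_inv_le_of_up (g h : G) (e : H.up (g * h) = H.up g + H.up h) :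
    H.hi h⁻¹ ≤ H.hi (g * h)⁻¹ := by
  rw [H.g4_hi, H.g4_hi, H.lw_inv, H.lw_inv, e]
  refine inf_le_inf_right _ ?_
  have e1 := (H.mul_le_iff h⁻¹ _ _).2 ((H.mul_zpow_le_iff _ _ (H.up h)).2 (H.g4_up_left g))
  have e3 : h⁻¹ * (g⁻¹ * H.δ ^ H.up g * H.δ ^ H.up h) =
      (g * h)⁻¹ * H.δ ^ (- -(H.up g + H.up h)) := by
    rw [neg_neg, zpow_add, mul_inv_rev]
    simp only [mul_assoc]
  rw [e3, one_mul] at e1
  rwa [neg_neg (H.up h)]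

/-- Combination with `crit_lw` and `lw_mul_le`. -/
theorem lw_mul_of (g h : G) (e : ¬ H.lo g⁻¹ ≤ H.hi h) : H.lw (g * h) = H.lw g + H.lw h := by
  have e1 := mt (H.crit_lw g h).1 e
  have e2 := H.lw_mul_le g h
  omega

/-- Combination with `crit_up` and `up_mul_le`. -/
theorem up_mul_of (g h : G) (e : ¬ H.lo h ≤ H.hi g⁻¹) : H.up (g * h) = H.up g + H.up h := by
  have e1 := mt (H.crit_up g h).1 e
  have e2 := H.up_mul_le g h
  omega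

/-- Peeling off a direction: `s ≤ g δ^(-lw g)` gives `lw g ≤ lw (s⁻¹ g)` and
`g δ^(1 - up g) ≤ s` gives `up (s⁻¹ g) ≤ up g - 1`; the opposite inequalities are `lw_mul_le` and
`up_mul_le` for `g = s (s⁻¹ g)` and `lw s = 0`, `up s = 1` (`1 < lo g ≤ s ≤ hi g < δ`). -/
theorem lw_peel (g s : G) (hg : H.lw g < H.up g) (h1 : H.lo g ≤ s) (h2 : s ≤ H.hi g) :
    H.lw (s⁻¹ * g) = H.lw g := by
  have s1 : 1 < s := (H.one_lt_lo g).trans_le h1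
  have s2 : s < H.δ := h2.trans_lt (H.hi_lt_δ g)
  have e1 := H.lw_mul_le s (s⁻¹ * g)
  rw [mul_inv_cancel_left, H.lw_simple s s1 s2] at e1
  have e2 : H.lw g ≤ H.lw (s⁻¹ * g) := by
    rw [← H.zpow_le_iff_le_lw]
    have e3 : s ≤ g * H.δ ^ (-H.lw g) := h2.trans inf_le_left
    have e4 := (H.mul_zpow_le_iff _ _ (H.lw g)).2 ((H.mul_le_iff s⁻¹ _ _).2 e3)
    rwa [inv_mul_cancel, one_mul, mul_assoc, mul_assoc, ← zpow_add, neg_add_cancel, zpow_zero,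
      mul_one] at e4
  omega

theorem up_peel (g s : G) (hg : H.lw g < H.up g) (h1 : H.lo g ≤ s) (h2 : s ≤ H.hi g) :
    H.up (s⁻¹ * g) = H.up g - 1 := by
  have s1 : 1 < s := (H.one_lt_lo g).trans_le h1
  have s2 : s < H.δ := h2.trans_lt (H.hi_lt_δ g)
  have e1 := H.up_mul_le s (s⁻¹ * g)
  rw [mul_inv_cancel_left, H.up_simple s s1 s2] at e1
  have e2 : H.up (s⁻¹ * g) ≤ H.up g - 1 := by
    rw [← H.le_zpow_iff_up_le]
    have e3 : g * H.δ ^ (1 - H.up g) ≤ s := le_sup_left.trans h1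
    have e4 := (H.mul_zpow_le_iff _ _ (H.up g - 1)).2 ((H.mul_le_iff s⁻¹ _ _).2 e3)
    rw [inv_mul_cancel, one_mul, mul_assoc, mul_assoc, ← zpow_add] at e4
    have e5 : 1 - H.up g + (H.up g - 1) = 0 := by ring
    rwa [e5, zpow_zero, mul_one] at e4
  omega

end Gar

end Pool.Agent.HT
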