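import Pool.Agent.HT.G4

/-!
# Project HT, piece HT-G5: the length inequality and its extreme cases
-/

namespace Pool.Agent.HT

namespace Gar

variable {G : Type*} [Group G] [Lattice G] (H : Gar G)

include H

/-- the length of an element strictly between `1` and `δ` is `1` or `2` -/
theorem len_simple (s : G) (h1 : 1 < s) (h2 : s < H.δ) : H.len s = 1 ∨ H.len s = 2 := by
  have a1 := H.len_lt _ _ h1
  have a2 := H.len_lt _ _ h2
  rw [H.len_one] at a1
  rw [H.len_δ] at a2
  omega

/-- Induction on `up g - lw g`.  If it is `0` then `g` is a power of `δ` and there is equality.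
Otherwise put `s = hi g`, `g' = s⁻¹ g`; then `lw g' = lw g`, `up g' = up g - 1` (`lw_peel`,
`up_peel`) and `len g = len s + len g' ≥ 1 + 2 lw g + (up g - 1)`. -/
theorem len_ge (g : G) : 2 * H.lw g + H.up g ≤ H.len g := by
  have key : ∀ (n : ℕ) (g : G), H.up g - H.lw g = n → 2 * H.lw g + H.up g ≤ H.len g := by
    intro n
    induction n with
    | zero =>
      intro g hn
      have h0 : H.up g = H.lw g := by
        push_cast at hn
        omega
      have h1 := H.eq_zpow_of_up_le g h0.le
      have h2 : H.len g = 3 * H.lw g := by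
        conv_lhs => rw [h1]
        rw [H.len_zpow]
      omega
    | succ n ih =>
      intro g hn
      have hlt : H.lw g < H.up g := by
        push_cast at hn
        omega
      have h1 := H.lw_peel g (H.hi g) hlt (H.lo_le_hi g hlt) le_rfl
      have h2 := H.up_peel g (H.hi g) hlt (H.lo_le_hi g hlt) le_rfl
      have h3 := ih ((H.hi g)⁻¹ * g) (by
        rw [h1, h2]
        push_cast at hn ⊢
        omega)
      have h4 : H.len g = H.len (H.hi g) + H.len ((H.hi g)⁻¹ * g) := by
        rw [← H.len_mul, mul_inv_cancel_left]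
      have h5 := H.len_simple (H.hi g) (H.one_lt_hi g hlt) (H.hi_lt_δ g)
      rw [h1, h2] at h3
      omega
  have h := H.lw_le_up g
  exact key (H.up g - H.lw g).toNat g (by omega)

/-- The same induction, with `len s ≤ 2`: `len g ≤ 2 + 2 (up g - 1) + lw g`; or apply `len_ge` to
`g⁻¹`. -/
theorem len_le' (g : G) : H.len g ≤ 2 * H.up g + H.lw g := by
  have h := H.len_ge g⁻¹
  rw [H.lw_inv, H.up_inv, H.len_inv] at h
  omega

theorem at_inv (g : G) : H.At g⁻¹ ↔ H.Co g := by
  unfold At Co
  rw [H.lw_inv, H.up_inv, H.len_inv]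
  omega

theorem co_inv (g : G) : H.Co g⁻¹ ↔ H.At g := by
  unfold At Co
  rw [H.lw_inv, H.up_inv, H.len_inv]
  omega

/-- Let `s` be a direction of `g` (`lo g ≤ s ≤ hi g`) and `g' = s⁻¹ g`.  In
`len g = len s + len g' ≥ 1 + 2 lw g + (up g - 1)` there is equality, so `len s = 1`. -/
theorem at_len (g s : G) (hg : H.lw g < H.up g) (ha : H.At g) (h1 : H.lo g ≤ s)
    (h2 : s ≤ H.hi g) : H.len s = 1 := by
  have h3 := H.lw_peel g s hg h1 h2
  have h4 := H.up_peel g s hg h1 h2
  have h5 := H.len_ge (s⁻¹ * g)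
  have h6 : H.len g = H.len s + H.len (s⁻¹ * g) := by
    rw [← H.len_mul, mul_inv_cancel_left]
  have h7 := H.len_simple s (lt_of_lt_of_le (H.one_lt_lo g) h1) (lt_of_le_of_lt h2 (H.hi_lt_δ g))
  rw [h3, h4] at h5
  unfold At at ha
  omega

/-- As `at_len`. -/
theorem at_peel (g s : G) (hg : H.lw g < H.up g) (ha : H.At g) (h1 : H.lo g ≤ s)
    (h2 : s ≤ H.hi g) : H.At (s⁻¹ * g) := by
  have h3 := H.lw_peel g s hg h1 h2
  have h4 := H.up_peel g s hg h1 h2
  have h6 : H.len g = H.len s + H.len (s⁻¹ * g) := by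
    rw [← H.len_mul, mul_inv_cancel_left]
  have h7 := H.at_len g s hg ha h1 h2
  unfold At at ha ⊢
  rw [h3, h4]
  omega

/-- `lo g ≤ hi g` have the same length `1`, and `len` is strictly increasing. -/
theorem at_lo_eq_hi (g : G) (hg : H.lw g < H.up g) (ha : H.At g) : H.lo g = H.hi g := by
  by_contra hne
  have hle := H.lo_le_hi g hg
  have h1 := H.len_lt _ _ (lt_of_le_of_ne hle hne)
  rw [H.at_len g _ hg ha le_rfl hle, H.at_len g _ hg ha hle le_rfl] at h1
  exact lt_irrefl _ h1

/-- As `at_len`, with the upper bound. -/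
theorem co_len (g s : G) (hg : H.lw g < H.up g) (ha : H.Co g) (h1 : H.lo g ≤ s)
    (h2 : s ≤ H.hi g) : H.len s = 2 := by
  have h3 := H.lw_peel g s hg h1 h2
  have h4 := H.up_peel g s hg h1 h2
  have h5 := H.len_le' (s⁻¹ * g)
  have h6 : H.len g = H.len s + H.len (s⁻¹ * g) := by
    rw [← H.len_mul, mul_inv_cancel_left]
  have h7 := H.len_simple s (lt_of_lt_of_le (H.one_lt_lo g) h1) (lt_of_le_of_lt h2 (H.hi_lt_δ g))
  rw [h3, h4] at h5
  unfold Co at ha
  omega

theorem co_lo_eq_hi (g : G) (hg : H.lw g < H.up g) (ha : H.Co g) : H.lo g = H.hi g := by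
  by_contra hne
  have hle := H.lo_le_hi g hg
  have h1 := H.len_lt _ _ (lt_of_le_of_ne hle hne)
  rw [H.co_len g _ hg ha le_rfl hle, H.co_len g _ hg ha hle le_rfl] at h1
  exact lt_irrefl _ h1

/-- a product which is additive for `lw` and `up` of two elements with `At` has `At` -/
theorem at_mul (g h : G) (hg : H.At g) (hh : H.At h) (h1 : H.lw (g * h) = H.lw g + H.lw h)
    (h2 : H.up (g * h) = H.up g + H.up h) : H.At (g * h) := by
  unfold At at hg hh ⊢
  rw [h1, h2, H.len_mul]
  omega

theorem co_mul (g h : G) (hg : H.Co g) (hh : H.Co h) (h1 : H.lw (g * h) = H.lw g + H.lw h)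
    (h2 : H.up (g * h) = H.up g + H.up h) : H.Co (g * h) := by
  unfold Co at hg hh ⊢
  rw [h1, h2, H.len_mul]
  omega

end Gar

end Pool.Agent.HT
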