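import Pool.Agent.HT.G5

/-!
# Project HT, piece HT-G6: lifting geodesics through a homomorphism
-/

namespace Pool.Agent.HT

namespace Gar

variable {G : Type*} [Group G] [Lattice G] (H : Gar G)

include H

private theorem G6_lt (g : G) (hg : H.len g = 1) : H.lw g < H.up g := by
  by_contra hc
  have h1 := congrArg H.len (H.eq_zpow_of_up_le g (not_lt.1 hc))
  rw [hg, H.len_zpow] at h1
  omega

private theorem G6_compl (s : G) (h1 : 1 < s) (h2 : s < H.δ) :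
    1 < s⁻¹ * H.δ ∧ s⁻¹ * H.δ < H.δ := by
  have h3 : H.lw s⁻¹ < H.up s⁻¹ := by
    rw [H.lw_inv, H.up_inv, H.lw_simple s h1 h2, H.up_simple s h1 h2]
    norm_num
  have h4 := H.one_lt_hi s⁻¹ h3
  have h5 := H.hi_lt_δ s⁻¹
  rw [H.hi_inv_simple s h1 h2] at h4 h5
  exact ⟨h4, h5⟩

private theorem G6_hi_inv (φ : G →* G) (hδ : φ H.δ = H.δ) (s : G) :
    H.hi (φ s)⁻¹ = H.hi (φ (s⁻¹ * H.δ)) := by
  rw [map_mul, hδ, map_inv]
  have h1 := H.hi_mul_zpow (φ s)⁻¹ 1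
  rw [zpow_one] at h1
  exact h1.symm

/-- the data of the peeling of the first letter of an element with `At` -/
private theorem G6_peel (h : G) (ha : H.At h) (hn : H.lw h < H.up h) :
    ∃ s h' : G, H.hi h = s ∧ h = s * h' ∧ 1 < s ∧ s < H.δ ∧ H.len s = 1 ∧ H.At h' ∧
      H.lw h' = H.lw h ∧ H.up h' = H.up h - 1 ∧
      (H.lw h' < H.up h' → 1 < H.hi h' ∧ H.hi h' < H.δ ∧ ¬ s⁻¹ * H.δ ≤ H.hi h' ∧
        ¬ H.hi h' ≤ s⁻¹ * H.δ) := by
  have hs1 := H.one_lt_hi h hn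
  have hs2 := H.hi_lt_δ h
  have hlo := H.lo_le_hi h hn
  have e1 := H.lw_peel h (H.hi h) hn hlo le_rfl
  have e2 := H.up_peel h (H.hi h) hn hlo le_rfl
  have e3 := H.at_peel h (H.hi h) hn ha hlo le_rfl
  have e0 : h = H.hi h * ((H.hi h)⁻¹ * h) := by group
  refine ⟨H.hi h, (H.hi h)⁻¹ * h, rfl, e0, hs1, hs2, H.at_len h (H.hi h) hn ha hlo le_rfl, e3,
    e1, e2, fun hlt => ⟨H.one_lt_hi _ hlt, H.hi_lt_δ _, fun hc => ?_, fun hc => ?_⟩⟩
  · have h1 := (H.crit_lw (H.hi h) ((H.hi h)⁻¹ * h)).2 (by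
      rw [H.lo_inv_simple _ hs1 hs2]
      exact hc)
    rw [← e0, e1, H.lw_simple _ hs1 hs2] at h1
    omega
  · have h1 := (H.crit_up (H.hi h) ((H.hi h)⁻¹ * h)).2 (by
      rw [H.hi_inv_simple _ hs1 hs2, H.at_lo_eq_hi _ hlt e3]
      exact hc)
    rw [← e0, e2, H.up_simple _ hs1 hs2] at h1
    omega

/-- Case of an order preserving `Θ = hi ∘ φ`.  Induction on `up h - lw h ≥ 1`.  Let `s = hi h`
(`= lo h`, an atom: `at_lo_eq_hi`, `at_len`), `h' = s⁻¹ h`, so `h'` has `At`, `lw h' = lw h`,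
`up h' = up h - 1`.  If `up h' = lw h'` then `h' = δ^k` and `h = s δ^k`, so `φ h = φ s δ^k` and
everything is clear (`hi_mul_zpow`; `φ s` is not a power of `δ` because its length is `1`).
Otherwise let `t = hi h' = lo h'`.  Since `lw (s h') = lw s + lw h'` and `up (s h') = up s + up h'`
the criteria say: `s⁻¹ δ ≤ t` is false and `t ≤ s⁻¹ δ` is false (`lo s⁻¹ = hi s⁻¹ = s⁻¹ δ`).
By induction `φ h'` has `At`, hence `lo (φ h') = hi (φ h') = hi (φ t)`.  Also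
`(φ s)⁻¹ = φ (s⁻¹ δ) δ⁻¹`, so `hi (φ s)⁻¹ = hi (φ (s⁻¹ δ))`, and `(φ s)⁻¹` has `Co` (`co_inv`), so
`lo (φ s)⁻¹ = hi (φ s)⁻¹`.  By `hord` the relations `hi (φ (s⁻¹ δ)) ≤ hi (φ t)` and
`hi (φ t) ≤ hi (φ (s⁻¹ δ))` are false, so `lw` and `up` are additive for the product
`φ h = φ s * φ h'` (`lw_mul_of`, `up_mul_of`).  So `φ h` has `At` (`at_mul`),
`up - lw` adds up and is at least `1 + (up h' - lw h')`, and `hi (φ s) ≤ hi (φ h)` with both of
length `1` (`hi_le_of_lw`, `at_len`), so they are equal. -/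
theorem lift_at (φ : G →* G) (hδ : φ H.δ = H.δ) (hlen : ∀ g, H.len (φ g) = H.len g)
    (hat : ∀ s, 1 < s → s < H.δ → H.len s = 1 → H.At (φ s))
    (hord : ∀ s t, 1 < s → s < H.δ → 1 < t → t < H.δ → H.hi (φ s) ≤ H.hi (φ t) → s ≤ t)
    (h : G) (ha : H.At h) (hn : H.lw h < H.up h) :
    H.At (φ h) ∧ H.up h - H.lw h ≤ H.up (φ h) - H.lw (φ h) ∧ H.hi (φ h) = H.hi (φ (H.hi h)) := by
  obtain ⟨n, hn'⟩ : ∃ n : ℕ, H.up h - H.lw h = n + 1 :=
    ⟨(H.up h - H.lw h - 1).toNat, by omega⟩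
  clear hn
  induction n generalizing h with
  | zero =>
    have hn : H.lw h < H.up h := by push_cast at hn'; omega
    obtain ⟨s, h', e0, rfl, hs1, hs2, hs3, ha', e1, e2, -⟩ := G6_peel H h ha hn
    have h3 : h' = H.δ ^ H.lw h' := H.eq_zpow_of_up_le h' (by push_cast at hn'; omega)
    have h4 : φ (s * h') = φ s * H.δ ^ H.lw h' := by
      rw [map_mul]
      nth_rewrite 1 [h3]
      rw [map_zpow, hδ]
    have h5 := hat s hs1 hs2 hs3
    have h6 := H.up_mul_zpow (φ s) (H.lw h')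
    have h7 := H.lw_mul_zpow (φ s) (H.lw h')
    have h8 := G6_lt H (φ s) ((hlen s).trans hs3)
    refine ⟨?_, ?_, ?_⟩
    · unfold At at h5 ⊢
      rw [h4, h6, h7, H.len_mul, H.len_zpow]
      omega
    · rw [hn', h4, h6, h7]
      push_cast
      omega
    · rw [h4, H.hi_mul_zpow, e0]
  | succ n ih =>
    have hn : H.lw h < H.up h := by push_cast at hn'; omega
    obtain ⟨s, h', e0, rfl, hs1, hs2, hs3, ha', e1, e2, hp⟩ := G6_peel H h ha hn
    have hn2 : H.up h' - H.lw h' = n + 1 := by push_cast at hn'; omega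
    obtain ⟨ht1, ht2, hc1, hc2⟩ := hp (by omega)
    obtain ⟨i1, i2, i3⟩ := ih h' ha' hn2
    have hl' : H.lw (φ h') < H.up (φ h') := by omega
    obtain ⟨hk1, hk2⟩ := G6_compl H s hs1 hs2
    have h5 := hat s hs1 hs2 hs3
    have h8 := G6_lt H (φ s) ((hlen s).trans hs3)
    have h9 := H.at_lo_eq_hi (φ h') hl' i1
    have h10 : H.lo (φ s)⁻¹ = H.hi (φ s)⁻¹ :=
      H.co_lo_eq_hi _ (by rw [H.lw_inv, H.up_inv]; omega) ((H.co_inv (φ s)).2 h5)
    have h11 := G6_hi_inv H φ hδ s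
    have a1 : H.lw (φ s * φ h') = H.lw (φ s) + H.lw (φ h') := by
      apply H.lw_mul_of
      rw [h10, h11, i3]
      exact fun hc => hc1 (hord _ _ hk1 hk2 ht1 ht2 hc)
    have a2 : H.up (φ s * φ h') = H.up (φ s) + H.up (φ h') := by
      apply H.up_mul_of
      rw [h11, h9, i3]
      exact fun hc => hc2 (hord _ _ ht1 ht2 hk1 hk2 hc)
    have a3 := H.at_mul (φ s) (φ h') h5 i1 a1 a2
    have a4 := H.hi_le_of_lw (φ s) (φ h') a1
    have hl : H.lw (φ s * φ h') < H.up (φ s * φ h') := by rw [a1, a2]; omega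
    have b1 := H.at_len (φ s) (H.hi (φ s)) h8 h5 (H.lo_le_hi _ h8) le_rfl
    have b2 := H.at_len (φ s * φ h') (H.hi (φ s * φ h')) hl a3 (H.lo_le_hi _ hl) le_rfl
    rw [map_mul, e0]
    refine ⟨a3, ?_, ?_⟩
    · rw [hn', a1, a2]
      push_cast
      omega
    · rcases a4.eq_or_lt with h12 | h12
      · exact h12.symm
      · have h13 := H.len_lt _ _ h12
        omega

/-- Case of an order reversing `Θ = hi ∘ φ`, the same proof with `Co (φ h)` in place of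
`At (φ h)`: `φ s` has `Co`, `(φ s)⁻¹` has `At`, and the relations `hi (φ (s⁻¹ δ)) ≤ hi (φ t)`,
`hi (φ t) ≤ hi (φ (s⁻¹ δ))` would give `t ≤ s⁻¹ δ`, `s⁻¹ δ ≤ t`.  At the end
`hi (φ s) ≤ hi (φ h)` both have length `2`. -/
theorem lift_co (φ : G →* G) (hδ : φ H.δ = H.δ) (hlen : ∀ g, H.len (φ g) = H.len g)
    (hco : ∀ s, 1 < s → s < H.δ → H.len s = 1 → H.Co (φ s))
    (hord : ∀ s t, 1 < s → s < H.δ → 1 < t → t < H.δ → H.hi (φ s) ≤ H.hi (φ t) → t ≤ s)
    (h : G) (ha : H.At h) (hn : H.lw h < H.up h) :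
    H.Co (φ h) ∧ H.up h - H.lw h ≤ H.up (φ h) - H.lw (φ h) ∧ H.hi (φ h) = H.hi (φ (H.hi h)) := by
  obtain ⟨n, hn'⟩ : ∃ n : ℕ, H.up h - H.lw h = n + 1 :=
    ⟨(H.up h - H.lw h - 1).toNat, by omega⟩
  clear hn
  induction n generalizing h with
  | zero =>
    have hn : H.lw h < H.up h := by push_cast at hn'; omega
    obtain ⟨s, h', e0, rfl, hs1, hs2, hs3, ha', e1, e2, -⟩ := G6_peel H h ha hn
    have h3 : h' = H.δ ^ H.lw h' := H.eq_zpow_of_up_le h' (by push_cast at hn'; omega)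
    have h4 : φ (s * h') = φ s * H.δ ^ H.lw h' := by
      rw [map_mul]
      nth_rewrite 1 [h3]
      rw [map_zpow, hδ]
    have h5 := hco s hs1 hs2 hs3
    have h6 := H.up_mul_zpow (φ s) (H.lw h')
    have h7 := H.lw_mul_zpow (φ s) (H.lw h')
    have h8 := G6_lt H (φ s) ((hlen s).trans hs3)
    refine ⟨?_, ?_, ?_⟩
    · unfold Co at h5 ⊢
      rw [h4, h6, h7, H.len_mul, H.len_zpow]
      omega
    · rw [hn', h4, h6, h7]
      push_cast
      omega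
    · rw [h4, H.hi_mul_zpow, e0]
  | succ n ih =>
    have hn : H.lw h < H.up h := by push_cast at hn'; omega
    obtain ⟨s, h', e0, rfl, hs1, hs2, hs3, ha', e1, e2, hp⟩ := G6_peel H h ha hn
    have hn2 : H.up h' - H.lw h' = n + 1 := by push_cast at hn'; omega
    obtain ⟨ht1, ht2, hc1, hc2⟩ := hp (by omega)
    obtain ⟨i1, i2, i3⟩ := ih h' ha' hn2
    have hl' : H.lw (φ h') < H.up (φ h') := by omega
    obtain ⟨hk1, hk2⟩ := G6_compl H s hs1 hs2
    have h5 := hco s hs1 hs2 hs3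
    have h8 := G6_lt H (φ s) ((hlen s).trans hs3)
    have h9 := H.co_lo_eq_hi (φ h') hl' i1
    have h10 : H.lo (φ s)⁻¹ = H.hi (φ s)⁻¹ :=
      H.at_lo_eq_hi _ (by rw [H.lw_inv, H.up_inv]; omega) ((H.at_inv (φ s)).2 h5)
    have h11 := G6_hi_inv H φ hδ s
    have a1 : H.lw (φ s * φ h') = H.lw (φ s) + H.lw (φ h') := by
      apply H.lw_mul_of
      rw [h10, h11, i3]
      exact fun hc => hc2 (hord _ _ hk1 hk2 ht1 ht2 hc)
    have a2 : H.up (φ s * φ h') = H.up (φ s) + H.up (φ h') := by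
      apply H.up_mul_of
      rw [h11, h9, i3]
      exact fun hc => hc1 (hord _ _ ht1 ht2 hk1 hk2 hc)
    have a3 := H.co_mul (φ s) (φ h') h5 i1 a1 a2
    have a4 := H.hi_le_of_lw (φ s) (φ h') a1
    have hl : H.lw (φ s * φ h') < H.up (φ s * φ h') := by rw [a1, a2]; omega
    have b1 := H.co_len (φ s) (H.hi (φ s)) h8 h5 (H.lo_le_hi _ h8) le_rfl
    have b2 := H.co_len (φ s * φ h') (H.hi (φ s * φ h')) hl a3 (H.lo_le_hi _ hl) le_rfl
    rw [map_mul, e0]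
    refine ⟨a3, ?_, ?_⟩
    · rw [hn', a1, a2]
      push_cast
      omega
    · rcases a4.eq_or_lt with h12 | h12
      · exact h12.symm
      · have h13 := H.len_lt _ _ h12
        omega

/-- Combination of both: if `h` has `At` or `Co` and `φ` is of one of the two types, then
`up h - lw h ≤ up (φ h) - lw (φ h)`.  If `h` has `Co` then apply `lift_at`, `lift_co` to `h⁻¹`
(`at_inv`, `lw_inv`, `up_inv`).  If `up h = lw h` use `lw_le_up`. -/
theorem lift_nn (φ : G →* G) (hδ : φ H.δ = H.δ) (hlen : ∀ g, H.len (φ g) = H.len g)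
    (hφ : ((∀ s, 1 < s → s < H.δ → H.len s = 1 → H.At (φ s)) ∧
        (∀ s t, 1 < s → s < H.δ → 1 < t → t < H.δ → H.hi (φ s) ≤ H.hi (φ t) → s ≤ t)) ∨
      ((∀ s, 1 < s → s < H.δ → H.len s = 1 → H.Co (φ s)) ∧
        (∀ s t, 1 < s → s < H.δ → 1 < t → t < H.δ → H.hi (φ s) ≤ H.hi (φ t) → t ≤ s)))
    (h : G) (ha : H.At h ∨ H.Co h) : H.up h - H.lw h ≤ H.up (φ h) - H.lw (φ h) := by
  have key : ∀ h : G, H.At h → H.up h - H.lw h ≤ H.up (φ h) - H.lw (φ h) := by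
    intro h ha
    by_cases hn : H.lw h < H.up h
    · rcases hφ with ⟨h1, h2⟩ | ⟨h1, h2⟩
      · exact (H.lift_at φ hδ hlen h1 h2 h ha hn).2.1
      · exact (H.lift_co φ hδ hlen h1 h2 h ha hn).2.1
    · have h3 := H.lw_le_up (φ h)
      omega
  rcases ha with ha | ha
  · exact key h ha
  · have h1 := key h⁻¹ ((H.at_inv h).2 ha)
    rw [map_inv, H.lw_inv, H.up_inv, H.lw_inv, H.up_inv] at h1
    omega

end Gar

end Pool.Agent.HT
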