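import Mathlib

/-!
# Project HT (MP_2ec7a7_al): lattice ordered groups of rank three

`Gar G` collects what we use of the dual Garside structure of a group of rank three: a lattice
order which is invariant under left multiplication and under right multiplication by `δ` and
`δ⁻¹`, and a length homomorphism to `ℤ` which is strictly increasing.  For `g` in `G`

* `lw g` is the largest `k` with `δ ^ k ≤ g` and `up g` the smallest `k` with `g ≤ δ ^ k`;
* `hi g = g δ^(-lw g) ⊓ δ` and `lo g = g δ^(1 - up g) ⊔ 1`: for `g` not a power of `δ` these are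
  simple elements with `1 < lo g ≤ hi g < δ`.
* `At g`, `Co g`: the extreme cases of the inequality `2 lw g + up g ≤ len g ≤ 2 up g + lw g`.
-/

namespace Pool.Agent.HT

/-- the part of the dual Garside structure of rank three which we use -/
structure Gar (G : Type*) [Group G] [Lattice G] where
  /-- the Garside element -/
  δ : G
  /-- the length -/
  len : G → ℤ
  mul_le : ∀ u g h : G, g ≤ h → u * g ≤ u * h
  mulδ_le : ∀ g h : G, g ≤ h → g * δ ≤ h * δ
  mulδi_le : ∀ g h : G, g ≤ h → g * δ⁻¹ ≤ h * δ⁻¹
  len_mul : ∀ g h : G, len (g * h) = len g + len h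
  len_lt : ∀ g h : G, g < h → len g < len h
  len_δ : len δ = 3
  one_le_δ : 1 ≤ δ
  arch : ∀ g : G, ∃ k : ℤ, δ ^ (-k) ≤ g ∧ g ≤ δ ^ k
  pos : ∀ g : G, 1 < g → 1 < g ⊓ δ
  neg : ∀ g : G, g < 1 → g ⊔ δ⁻¹ < 1

namespace Gar

variable {G : Type*} [Group G] [Lattice G] (H : Gar G)

/-- the largest `k` with `δ ^ k ≤ g` -/
noncomputable def lw (g : G) : ℤ := sSup {k : ℤ | H.δ ^ k ≤ g}

/-- the smallest `k` with `g ≤ δ ^ k` -/
noncomputable def up (g : G) : ℤ := sInf {k : ℤ | g ≤ H.δ ^ k}

/-- the smallest direction of `g` -/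
noncomputable def lo (g : G) : G := g * H.δ ^ (1 - H.up g) ⊔ 1

/-- the largest direction of `g` -/
noncomputable def hi (g : G) : G := g * H.δ ^ (-H.lw g) ⊓ H.δ

/-- `g` is a power of `δ` times a product of `up g - lw g` simple elements of length one -/
def At (g : G) : Prop := 2 * H.lw g + H.up g = H.len g

/-- `g` is a power of `δ` times a product of `up g - lw g` simple elements of length two -/
def Co (g : G) : Prop := 2 * H.up g + H.lw g = H.len g

end Gar

end Pool.Agent.HT
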