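import Pool.Agent.HT.Tab
import Pool.Agent.Helper7.AG.Defs

/-!
# Project HT (MP_2ec7a7_al): the Artin group of type `H3`

`HA = Artin CoxeterMatrix.H₃`; generators `ga = 2`, `gb = 1`, `gc = 0`, so `m(a, b) = 5`,
`m(b, c) = 3`, `m(a, c) = 2`.  `gd = ga gb gc` is the dual Garside element and `gS i` is the
`i`-th simple element of the table of `Tab.lean`.
-/

namespace Pool.Agent.HT

open Pool.Agent.Helper7.AG

/-- the Artin group of type `H3` -/
abbrev HA : Type := Artin CoxeterMatrix.H₃

/-- the standard generators -/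
def ga : HA := PresentedGroup.of 2
/-- the standard generators -/
def gb : HA := PresentedGroup.of 1
/-- the standard generators -/
def gc : HA := PresentedGroup.of 0

/-- the dual Garside element -/
def gd : HA := ga * gb * gc

/-- the simple elements up to conjugation by `gd` -/
def base : ℕ → HA
  | 0 => ga
  | 1 => gb
  | 2 => ga * gb * ga⁻¹
  | 3 => gb * gc
  | 4 => ga * gb
  | _ => ga * gc

/-- the offset of the numbering -/
def off (t : ℕ) : ℕ := if t < 3 then 0 else if t = 4 then 1 else 4

/-- the simple elements -/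
def gS (i : ℕ) : HA :=
  if i = 0 then 1 else if i = 31 then gd else
    gd ^ (-((((i - 1) % 5 + off ((i - 1) / 5)) % 5 : ℕ) : ℤ)) * base ((i - 1) / 5) *
      gd ^ ((((i - 1) % 5 + off ((i - 1) / 5)) % 5 : ℕ) : ℤ)

end Pool.Agent.HT
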