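import Mathlib
import Pool.Agent.Helper7.AG.Defs

/-!
# Project HT (MP_2ec7a7_al): the notions of the statement
-/

namespace Pool.Agent.HT

open Pool.Agent.Helper7.AG

/-- the group of inner automorphisms -/
def Inn (G : Type*) [Group G] : Subgroup (MulAut G) := (MulAut.conj : G →* MulAut G).range

instance Inn_normal (G : Type*) [Group G] : (Inn G).Normal := by
  refine ⟨?_⟩
  rintro _ ⟨x, rfl⟩ φ
  refine ⟨φ x, ?_⟩
  ext y
  simp [MulAut.mul_apply]

/-- the group of outer automorphisms -/
abbrev Out (G : Type*) [Group G] : Type _ := MulAut G ⧸ Inn G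

/-- `ε` inverts the standard generators of the Artin group of `M` -/
def InvertsGens {S : Type*} (M : CoxeterMatrix S) (ε : MulAut (Artin M)) : Prop :=
  ∀ s : S, ε (PresentedGroup.of s) = (PresentedGroup.of s)⁻¹

/-- the automorphism `conj x` (for `u = false`) or `conj x * ε` (for `u = true`) -/
def tw {G : Type*} [Group G] (ε : MulAut G) (x : G) (u : Bool) : MulAut G :=
  MulAut.conj x * (if u = true then ε else 1)

/-- every automorphism of `G` is `conj x` or `conj x * ε`; the two possibilities exclude each
other and `x` is unique up to the powers of `z` -/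
def FormMod (G : Type*) [Group G] (ε : MulAut G) (z : G) : Prop :=
  (∀ φ : MulAut G, ∃ (x : G) (u : Bool), φ = tw ε x u) ∧
  ∀ (x y : G) (u v : Bool), tw ε x u = tw ε y v ↔ u = v ∧ x⁻¹ * y ∈ Subgroup.zpowers z

/-- the group `Out G` has order two and is generated by the class of `ε` -/
def OutGenBy (G : Type*) [Group G] (ε : MulAut G) : Prop :=
  ∃ e : Out G ≃* ℤˣ, e (QuotientGroup.mk ε) = -1

/-- the extension `1 → Inn G → Aut G → Out G → 1` splits: `Aut G → Out G` has a section which is
a homomorphism -/
def Splits (G : Type*) [Group G] : Prop :=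
  ∃ σ : Out G →* MulAut G, ∀ o, QuotientGroup.mk (σ o) = o

end Pool.Agent.HT
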